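import Pool.Agent.Q88.KO.Stm

/-!
# Norm and modular
-/

set_option autoImplicit false

namespace Pool.Agent.Q88.KO

open MeasureTheory Set Filter Topology
open scoped ENNReal

namespace DAx

theorem Phi_nonneg (c : Cx) {s : ℝ} (hs : 0 ≤ s) : 0 ≤ c.Φ s := by
  have h1 := c.prof.orl.mono (mem_Ici.2 le_rfl) (mem_Ici.2 hs) hs
  rwa [c.prof.orl.zero] at h1

theorem sc (c : Cx) (a s : ℝ) (ha : 0 ≤ a) (ha1 : a ≤ 1) (hs : 0 ≤ s) :
    c.Φ (a * s) ≤ 5 * a ^ (7 / 4 : ℝ) * c.Φ s ∧ a ^ (9 / 4 : ℝ) * c.Φ s ≤ 5 * c.Φ (a * s) := by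
  rcases hs.eq_or_lt with rfl | hs
  · rw [mul_zero, c.prof.orl.zero]
    simp
  rcases ha.eq_or_lt with rfl | ha
  · rw [zero_mul, c.prof.orl.zero, Real.zero_rpow (by norm_num), Real.zero_rpow (by norm_num)]
    simp
  have has : 0 < a * s := mul_pos ha hs
  have hlog : Real.log (a * s) = Real.log s + Real.log a := by
    rw [Real.log_mul ha.ne' hs.ne', add_comm]
  have hla : Real.log a ≤ 0 := Real.log_nonpos ha.le ha1
  have hlip := c.prof.lip (Real.log (a * s)) (Real.log s)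
  rw [hlog, add_sub_cancel_left, abs_of_nonpos hla, abs_le] at hlip
  rw [← hlog] at hlip
  have e1 : a ^ (7 / 4 : ℝ) = a ^ 2 * Real.exp (-Real.log a / 4) := by
    rw [← Real.exp_log (show 0 < a ^ (7 / 4 : ℝ) by positivity), Real.log_rpow ha,
      ← Real.exp_log (show 0 < a ^ 2 by positivity), ← Real.exp_add, Real.log_pow]
    congr 1
    push_cast
    ring
  have e2 : a ^ (9 / 4 : ℝ) = a ^ 2 * Real.exp (Real.log a / 4) := by
    rw [← Real.exp_log (show 0 < a ^ (9 / 4 : ℝ) by positivity), Real.log_rpow ha,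
      ← Real.exp_log (show 0 < a ^ 2 by positivity), ← Real.exp_add, Real.log_pow]
    congr 1
    push_cast
    ring
  have hlo := c.prof.lo s hs
  have hhi := c.prof.hi s hs
  have hlo' := c.prof.lo (a * s) has
  have hhi' := c.prof.hi (a * s) has
  constructor
  · calc c.Φ (a * s) ≤ (a * s) ^ 2 * Real.exp (c.H (Real.log (a * s))) := hhi'
      _ ≤ (a * s) ^ 2 * Real.exp (c.H (Real.log s) + -Real.log a / 4) := by
          refine mul_le_mul_of_nonneg_left (Real.exp_le_exp.2 ?_) (by positivity)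
          linarith [hlip.2]
      _ = a ^ (7 / 4 : ℝ) * (s ^ 2 * Real.exp (c.H (Real.log s))) := by
          rw [Real.exp_add, e1]; ring
      _ ≤ a ^ (7 / 4 : ℝ) * (5 * c.Φ s) := mul_le_mul_of_nonneg_left hlo (by positivity)
      _ = _ := by ring
  · calc a ^ (9 / 4 : ℝ) * c.Φ s ≤ a ^ (9 / 4 : ℝ) * (s ^ 2 * Real.exp (c.H (Real.log s))) :=
          mul_le_mul_of_nonneg_left hhi (by positivity)
      _ = (a * s) ^ 2 * Real.exp (c.H (Real.log s) + Real.log a / 4) := by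
          rw [Real.exp_add, e2]; ring
      _ ≤ (a * s) ^ 2 * Real.exp (c.H (Real.log (a * s))) := by
          refine mul_le_mul_of_nonneg_left (Real.exp_le_exp.2 ?_) (by positivity)
          linarith [hlip.1]
      _ ≤ _ := hlo'

/-- pointwise bounds give bounds of modulars -/
theorem rho_le (Φ : ℝ → ℝ) {f g : ℝ → ℝ} {C : ℝ} (hC : 0 ≤ C)
    (h : ∀ᵐ t ∂mu, Φ |f t| ≤ C * Φ |g t|) : rho Φ f ≤ ENNReal.ofReal C * rho Φ g := by
  unfold rho
  rw [← lintegral_const_mul' _ _ ENNReal.ofReal_ne_top]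
  refine lintegral_mono_ae (h.mono fun t ht => ?_)
  rw [← ENNReal.ofReal_mul hC]
  exact ENNReal.ofReal_le_ofReal ht

theorem scm (c : Cx) (a : ℝ) (e : c.E) (ha : |a| ≤ 1) :
    md c (a • e) ≤ ENNReal.ofReal (5 * |a| ^ (7 / 4 : ℝ)) * md c e := by
  refine rho_le c.Φ (by positivity) ?_
  rw [map_smul]
  filter_upwards [AEEqFun.coeFn_smul a (c.J e)] with t ht
  rw [ht, Pi.smul_apply, smul_eq_mul, abs_mul]
  exact (sc c |a| |c.J e t| (abs_nonneg _) ha (abs_nonneg _)).1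

theorem md_zero (c : Cx) : md c 0 = 0 := by
  unfold md rho
  rw [map_zero]
  have h : ∀ᵐ t ∂mu, ENNReal.ofReal (c.Φ |(0 : ℝ →ₘ[mu] ℝ) t|) = 0 := by
    filter_upwards [AEEqFun.coeFn_zero (μ := mu) (β := ℝ)] with t ht
    rw [ht, Pi.zero_apply, abs_zero, c.prof.orl.zero, ENNReal.ofReal_zero]
  rw [lintegral_congr_ae h]
  simp

theorem Phi_meas (c : Cx) : Measurable fun x : ℝ => c.Φ |x| := by
  have h : Continuous fun x : ℝ => c.Φ |x| :=
    c.prof.orl.cont.comp_continuous continuous_abs fun x => abs_nonneg x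
  exact h.measurable

theorem Dj_sum (c : Cx) (s : Finset ℕ) (e : ℕ → c.E) (x : c.E) (h : ∀ i ∈ s, Dj c.J x (e i)) :
    Dj c.J x (∑ i ∈ s, e i) := by
  classical
  induction s using Finset.induction_on with
  | empty =>
    rw [Finset.sum_empty]
    unfold Dj
    rw [map_zero]
    filter_upwards [AEEqFun.coeFn_zero (μ := mu) (β := ℝ)] with t ht
    right
    rw [ht, Pi.zero_apply]
  | insert j s hj ih =>
    rw [Finset.sum_insert hj]
    have h1 := ih fun i hi => h i (Finset.mem_insert_of_mem hi)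
    have h2 := h j (Finset.mem_insert_self _ _)
    unfold Dj at h1 h2 ⊢
    rw [map_add]
    filter_upwards [h1, h2, AEEqFun.coeFn_add (c.J (e j)) (c.J (∑ i ∈ s, e i))] with t h3 h4 h5
    rcases h3 with h3 | h3
    · exact Or.inl h3
    · rcases h4 with h4 | h4
      · exact Or.inl h4
      · right
        rw [h5, Pi.add_apply, h3, h4, add_zero]

theorem add (c : Cx) (s : Finset ℕ) (e : ℕ → c.E) (he : ∀ m n, m ≠ n → Dj c.J (e m) (e n)) :
    md c (∑ i ∈ s, e i) = ∑ i ∈ s, md c (e i) := by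
  classical
  induction s using Finset.induction_on with
  | empty => simp [md_zero]
  | insert j s hj ih =>
    rw [Finset.sum_insert hj, Finset.sum_insert hj, ← ih]
    have h1 := Dj_sum c s e (e j) fun i hi => he j i fun h => hj (h ▸ hi)
    unfold md rho
    rw [← lintegral_add_left']
    · rw [map_add]
      refine lintegral_congr_ae ?_
      unfold Dj at h1
      filter_upwards [h1, AEEqFun.coeFn_add (c.J (e j)) (c.J (∑ i ∈ s, e i))] with t h3 h5
      rw [h5, Pi.add_apply]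
      rcases h3 with h3 | h3
      · rw [h3, zero_add, abs_zero, c.prof.orl.zero, ENNReal.ofReal_zero, zero_add]
      · rw [h3, add_zero, abs_zero, c.prof.orl.zero, ENNReal.ofReal_zero, add_zero]
    · exact ((Phi_meas c).comp_aemeasurable
        (c.J (e j)).aestronglyMeasurable.aemeasurable).ennreal_ofReal

/-! ### The Luxemburg norm -/

theorem bddBelow (c : Cx) (e : c.E) :
    BddBelow {s : ℝ | 0 < s ∧ rho c.Φ (fun t => c.J e t / s) ≤ 1} :=
  ⟨0, fun s hs => hs.1.le⟩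

theorem norm_le_of (c : Cx) {e : c.E} {s : ℝ} (hs : 0 < s)
    (h : rho c.Φ (fun t => c.J e t / s) ≤ 1) : ‖e‖ ≤ s := by
  rw [c.orl.norm e]
  exact csInf_le (bddBelow c e) ⟨hs, h⟩

theorem rho_mono (c : Cx) {f g : ℝ → ℝ} (h : ∀ᵐ t ∂mu, |f t| ≤ |g t|) :
    rho c.Φ f ≤ rho c.Φ g := by
  unfold rho
  refine lintegral_mono_ae (h.mono fun t ht => ENNReal.ofReal_le_ofReal ?_)
  exact c.prof.orl.mono (mem_Ici.2 (abs_nonneg _)) (mem_Ici.2 (abs_nonneg _)) ht

/-- the set in the definition of the norm is not empty -/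
theorem nonempty (c : Cx) (e : c.E) :
    {s : ℝ | 0 < s ∧ rho c.Φ (fun t => c.J e t / s) ≤ 1}.Nonempty := by
  obtain ⟨s, hs, h⟩ := (c.orl.mem (c.J e)).1 ⟨e, rfl⟩
  -- scale down
  set R : ℝ := (rho c.Φ (fun t => c.J e t / s)).toReal with hR
  have hR0 : 0 ≤ R := ENNReal.toReal_nonneg
  have hRe : rho c.Φ (fun t => c.J e t / s) = ENNReal.ofReal R :=
    (ENNReal.ofReal_toReal h.ne).symm
  set a : ℝ := 1 / (5 * (R + 1)) with ha
  have ha0 : 0 < a := by positivity
  have ha1 : a ≤ 1 := by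
    rw [ha, div_le_one (by positivity)]
    linarith
  refine ⟨s / a, by positivity, ?_⟩
  have h1 : rho c.Φ (fun t => c.J e t / (s / a)) ≤
      ENNReal.ofReal (5 * a ^ (7 / 4 : ℝ)) * rho c.Φ (fun t => c.J e t / s) := by
    refine rho_le c.Φ (by positivity) (Eventually.of_forall fun t => ?_)
    have e1 : c.J e t / (s / a) = a * (c.J e t / s) := by
      field_simp
    rw [e1, abs_mul, abs_of_pos ha0]
    exact (sc c a _ ha0.le ha1 (abs_nonneg _)).1
  refine h1.trans ?_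
  rw [hRe, ← ENNReal.ofReal_mul (by positivity)]
  rw [← ENNReal.ofReal_one]
  refine ENNReal.ofReal_le_ofReal ?_
  have h2 : a ^ (7 / 4 : ℝ) ≤ a := by
    calc a ^ (7 / 4 : ℝ) ≤ a ^ (1 : ℝ) :=
          Real.rpow_le_rpow_of_exponent_ge ha0 ha1 (by norm_num)
      _ = a := Real.rpow_one a
  calc 5 * a ^ (7 / 4 : ℝ) * R ≤ 5 * a * (R + 1) := by
        refine mul_le_mul (mul_le_mul_of_nonneg_left h2 (by norm_num)) (by linarith) hR0
          (by positivity)
    _ = 1 := by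
        rw [ha]
        field_simp

theorem rho_le_one (c : Cx) {e : c.E} {s : ℝ} (h : ‖e‖ < s) :
    rho c.Φ (fun t => c.J e t / s) ≤ 1 := by
  rw [c.orl.norm e] at h
  obtain ⟨r, ⟨hr, h1⟩, hrs⟩ := (csInf_lt_iff (bddBelow c e) (nonempty c e)).1 h
  refine le_trans (rho_mono c (Eventually.of_forall fun t => ?_)) h1
  rw [abs_div, abs_div, abs_of_pos hr, abs_of_pos (hr.trans hrs)]
  exact div_le_div_of_nonneg_left (abs_nonneg _) hr hrs.le

/-- the modular of `e` and of a multiple -/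
theorem md_le_of (c : Cx) {e : c.E} {s : ℝ} (hs : 1 ≤ s) :
    md c e ≤ ENNReal.ofReal (5 * s ^ (9 / 4 : ℝ)) * rho c.Φ (fun t => c.J e t / s) := by
  have hs0 : 0 < s := lt_of_lt_of_le one_pos hs
  refine rho_le c.Φ (by positivity) (Eventually.of_forall fun t => ?_)
  have h1 := (sc c s⁻¹ |c.J e t| (by positivity) (inv_le_one_of_one_le₀ hs) (abs_nonneg _)).2
  have e1 : |c.J e t / s| = s⁻¹ * |c.J e t| := by
    rw [abs_div, abs_of_pos hs0, div_eq_inv_mul]
  rw [e1]
  have h2 : s ^ (9 / 4 : ℝ) * (s⁻¹) ^ (9 / 4 : ℝ) = 1 := by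
    rw [← Real.mul_rpow hs0.le (by positivity), mul_inv_cancel₀ hs0.ne', Real.one_rpow]
  calc c.Φ |c.J e t| = s ^ (9 / 4 : ℝ) * (s⁻¹ ^ (9 / 4 : ℝ) * c.Φ |c.J e t|) := by
        rw [← mul_assoc, h2, one_mul]
    _ ≤ s ^ (9 / 4 : ℝ) * (5 * c.Φ (s⁻¹ * |c.J e t|)) :=
        mul_le_mul_of_nonneg_left h1 (by positivity)
    _ = _ := by ring

theorem N1 (c : Cx) (B : ℝ) : ∃ C : ℝ, ∀ e : c.E, ‖e‖ ≤ B → md c e ≤ ENNReal.ofReal C := by
  refine ⟨5 * (|B| + 1) ^ (9 / 4 : ℝ), fun e he => ?_⟩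
  have h1 : ‖e‖ < |B| + 1 := by
    have := le_abs_self B; linarith
  have h2 := md_le_of c (e := e) (s := |B| + 1) (by have := abs_nonneg B; linarith)
  refine h2.trans ?_
  calc ENNReal.ofReal (5 * (|B| + 1) ^ (9 / 4 : ℝ)) * rho c.Φ (fun t => c.J e t / (|B| + 1)) ≤
        ENNReal.ofReal (5 * (|B| + 1) ^ (9 / 4 : ℝ)) * 1 := by
        gcongr
        exact rho_le_one c h1
    _ = _ := mul_one _

theorem N2 (c : Cx) (B : ℝ) : ∃ C : ℝ, ∀ e : c.E, md c e ≤ ENNReal.ofReal B → ‖e‖ ≤ C := by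
  set a : ℝ := 1 / (5 * (|B| + 1)) with ha
  have ha0 : 0 < a := by positivity
  have hB0 := abs_nonneg B
  have ha1 : a ≤ 1 := by
    rw [ha, div_le_one (by positivity)]
    linarith
  refine ⟨1 / a, fun e he => norm_le_of c (by positivity) ?_⟩
  have h1 : rho c.Φ (fun t => c.J e t / (1 / a)) ≤
      ENNReal.ofReal (5 * a ^ (7 / 4 : ℝ)) * md c e := by
    refine rho_le c.Φ (by positivity) (Eventually.of_forall fun t => ?_)
    have e1 : c.J e t / (1 / a) = a * c.J e t := by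
      field_simp
    rw [e1, abs_mul, abs_of_pos ha0]
    exact (sc c a _ ha0.le ha1 (abs_nonneg _)).1
  refine h1.trans ?_
  calc ENNReal.ofReal (5 * a ^ (7 / 4 : ℝ)) * md c e ≤
        ENNReal.ofReal (5 * a ^ (7 / 4 : ℝ)) * ENNReal.ofReal (|B| + 1) := by
        gcongr
        exact he.trans (ENNReal.ofReal_le_ofReal (by have := le_abs_self B; linarith))
    _ ≤ 1 := by
        rw [← ENNReal.ofReal_mul (by positivity), ← ENNReal.ofReal_one]
        refine ENNReal.ofReal_le_ofReal ?_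
        have h2 : a ^ (7 / 4 : ℝ) ≤ a := by
          calc a ^ (7 / 4 : ℝ) ≤ a ^ (1 : ℝ) :=
                Real.rpow_le_rpow_of_exponent_ge ha0 ha1 (by norm_num)
            _ = a := Real.rpow_one a
        calc 5 * a ^ (7 / 4 : ℝ) * (|B| + 1) ≤ 5 * a * (|B| + 1) := by
              gcongr
          _ = 1 := by
              rw [ha]
              field_simp

theorem N3 (c : Cx) (δ : ℝ) (hδ : 0 < δ) : ∃ η : ℝ, 0 < η ∧ ∀ e : c.E, δ ≤ ‖e‖ →
    ENNReal.ofReal η ≤ md c e := by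
  set d : ℝ := min (δ / 2) 1 with hd
  have hd0 : 0 < d := lt_min (by positivity) one_pos
  have hd1 : d ≤ 1 := min_le_right _ _
  refine ⟨d ^ (9 / 4 : ℝ) / 5, by positivity, fun e he => ?_⟩
  by_contra hcon
  push Not at hcon
  have h1 : ‖e‖ ≤ d := by
    refine norm_le_of c hd0 ?_
    have h2 : rho c.Φ (fun t => c.J e t / d) ≤
        ENNReal.ofReal (5 / d ^ (9 / 4 : ℝ)) * md c e := by
      refine rho_le c.Φ (by positivity) (Eventually.of_forall fun t => ?_)
      have h3 := (sc c d |c.J e t / d| hd0.le hd1 (abs_nonneg _)).2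
      have e1 : d * |c.J e t / d| = |c.J e t| := by
        rw [abs_div, abs_of_pos hd0]
        field_simp
      rw [e1] at h3
      rw [div_mul_eq_mul_div, le_div_iff₀ (by positivity)]
      linarith
    refine h2.trans ?_
    calc ENNReal.ofReal (5 / d ^ (9 / 4 : ℝ)) * md c e ≤
          ENNReal.ofReal (5 / d ^ (9 / 4 : ℝ)) * ENNReal.ofReal (d ^ (9 / 4 : ℝ) / 5) := by
          gcongr
      _ = 1 := by
          rw [← ENNReal.ofReal_mul (by positivity), ← ENNReal.ofReal_one]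
          congr 1
          field_simp
  have h3 : d ≤ δ / 2 := min_le_left _ _
  linarith

theorem N4 (c : Cx) (η : ℝ) (hη : 0 < η) : ∃ δ : ℝ, 0 < δ ∧ ∀ e : c.E,
    ENNReal.ofReal η ≤ md c e → δ ≤ ‖e‖ := by
  set d : ℝ := min (η / 6) 1 with hd
  have hd0 : 0 < d := lt_min (by positivity) one_pos
  have hd1 : d ≤ 1 := min_le_right _ _
  refine ⟨d, hd0, fun e he => ?_⟩
  by_contra hcon
  push Not at hcon
  have h1 := rho_le_one c hcon
  have h2 : md c e ≤ ENNReal.ofReal (5 * d ^ (7 / 4 : ℝ)) * rho c.Φ (fun t => c.J e t / d) := by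
    refine rho_le c.Φ (by positivity) (Eventually.of_forall fun t => ?_)
    have h3 := (sc c d |c.J e t / d| hd0.le hd1 (abs_nonneg _)).1
    have e1 : d * |c.J e t / d| = |c.J e t| := by
      rw [abs_div, abs_of_pos hd0]
      field_simp
    rwa [e1] at h3
  have h3 : md c e ≤ ENNReal.ofReal (5 * d ^ (7 / 4 : ℝ)) := by
    refine h2.trans ?_
    calc ENNReal.ofReal (5 * d ^ (7 / 4 : ℝ)) * rho c.Φ (fun t => c.J e t / d) ≤
          ENNReal.ofReal (5 * d ^ (7 / 4 : ℝ)) * 1 := by gcongr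
      _ = _ := mul_one _
  have h4 := he.trans h3
  rw [ENNReal.ofReal_le_ofReal_iff (by positivity)] at h4
  have h5 : d ^ (7 / 4 : ℝ) ≤ d := by
    calc d ^ (7 / 4 : ℝ) ≤ d ^ (1 : ℝ) :=
          Real.rpow_le_rpow_of_exponent_ge hd0 hd1 (by norm_num)
      _ = d := Real.rpow_one d
  have h6 : d ≤ η / 6 := min_le_left _ _
  linarith

end DAx

theorem dictA : DictA where
  sc := DAx.sc
  scm := DAx.scm
  add := DAx.add
  N1 := DAx.N1
  N2 := DAx.N2
  N3 := DAx.N3
  N4 := DAx.N4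

end Pool.Agent.Q88.KO
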