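import Pool.Agent.Q88.KO.DA

/-!
# Lattice facts, `L²` and `L⁴`
-/

set_option autoImplicit false

namespace Pool.Agent.Q88.KO

open MeasureTheory Set Filter Topology
open scoped ENNReal

namespace DBx

open DAx

theorem N5 (c : Cx) (e e' : c.E) (h : ∀ᵐ t ∂mu, |c.J e t| ≤ |c.J e' t|) : ‖e‖ ≤ ‖e'‖ := by
  refine le_of_forall_gt_imp_ge_of_dense fun s hs => ?_
  have hs0 : 0 < s := lt_of_le_of_lt (norm_nonneg _) hs
  refine norm_le_of c hs0 ((rho_mono c ?_).trans (rho_le_one c hs))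
  filter_upwards [h] with t ht
  rw [abs_div, abs_div]
  exact div_le_div_of_nonneg_right ht (abs_nonneg _)

theorem N6 (c : Cx) (e : c.E) (A : Set ℝ) (hA : MeasurableSet A) : ∃ e', Res c e e' A := by
  have hm : AEStronglyMeasurable (A.indicator (c.J e)) mu :=
    (c.J e).aestronglyMeasurable.indicator hA
  obtain ⟨s, hs, h⟩ := (c.orl.mem (c.J e)).1 ⟨e, rfl⟩
  have h2 : rho c.Φ (fun t => (AEEqFun.mk _ hm : ℝ →ₘ[mu] ℝ) t / s) ≤
      rho c.Φ (fun t => c.J e t / s) := by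
    refine rho_mono c ?_
    filter_upwards [AEEqFun.coeFn_mk _ hm] with t ht
    rw [ht, abs_div, abs_div]
    refine div_le_div_of_nonneg_right ?_ (abs_nonneg _)
    by_cases htA : t ∈ A
    · rw [indicator_of_mem htA]
    · rw [indicator_of_notMem htA, abs_zero]
      exact abs_nonneg _
  obtain ⟨e', he'⟩ := (c.orl.mem (AEEqFun.mk _ hm)).2 ⟨s, hs, lt_of_le_of_lt h2 h⟩
  exact ⟨e', by rw [Res, he']; exact AEEqFun.coeFn_mk _ hm⟩

theorem N11 (c : Cx) (f : ℝ → ℝ) (K : ℝ) (hm : AEStronglyMeasurable f mu)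
    (hK : ∀ᵐ t ∂mu, |f t| ≤ K) : ∃ e : c.E, c.J e =ᵐ[mu] f := by
  have h1 : rho c.Φ (fun t => (AEEqFun.mk f hm : ℝ →ₘ[mu] ℝ) t / 1) ≤
      ∫⁻ _, ENNReal.ofReal (c.Φ |K|) ∂mu := by
    refine lintegral_mono_ae ?_
    filter_upwards [AEEqFun.coeFn_mk _ hm, hK] with t ht hk
    rw [ht, div_one]
    refine ENNReal.ofReal_le_ofReal (c.prof.orl.mono (mem_Ici.2 (abs_nonneg _))
      (mem_Ici.2 (abs_nonneg _)) (hk.trans (le_abs_self K)))
  have h2 : rho c.Φ (fun t => (AEEqFun.mk f hm : ℝ →ₘ[mu] ℝ) t / 1) < ⊤ := by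
    refine lt_of_le_of_lt h1 ?_
    rw [lintegral_const, measure_univ, mul_one]
    exact ENNReal.ofReal_lt_top
  obtain ⟨e, he⟩ := (c.orl.mem (AEEqFun.mk f hm)).2 ⟨1, one_pos, h2⟩
  exact ⟨e, by rw [he]; exact AEEqFun.coeFn_mk _ hm⟩

theorem sq_le (c : Cx) {s : ℝ} (hs : 0 ≤ s) : s ^ 2 ≤ 5 * c.Φ s := by
  rcases hs.eq_or_lt with rfl | hs
  · rw [c.prof.orl.zero]
    simp
  · refine le_trans ?_ (c.prof.lo s hs)
    have : 1 ≤ Real.exp (c.H (Real.log s)) := Real.one_le_exp (c.prof.nonneg _)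
    nlinarith [sq_nonneg s]

theorem le_four (c : Cx) {s : ℝ} (hs : 0 ≤ s) : c.Φ s ≤ 2 * s ^ 4 + 1 / 4 := by
  rcases hs.eq_or_lt with rfl | hs
  · rw [c.prof.orl.zero]
    norm_num
  · have h1 := c.prof.hi s hs
    have h2 : Real.exp (c.H (Real.log s)) ≤ 1 + s ^ 2 := by
      rcases le_or_gt s 1 with h3 | h3
      · rw [c.prof.neg _ (Real.log_nonpos hs.le h3), Real.exp_zero]
        nlinarith [sq_nonneg s]
      · have h4 := c.prof.lip (Real.log s) 0
        rw [c.prof.neg 0 le_rfl, sub_zero, sub_zero, abs_of_nonneg (c.prof.nonneg _),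
          abs_of_pos (Real.log_pos h3)] at h4
        have h5 : Real.log s / 4 ≤ Real.log s := by
          have := Real.log_pos h3
          linarith
        calc Real.exp (c.H (Real.log s)) ≤ Real.exp (Real.log s) :=
              Real.exp_le_exp.2 (h4.trans h5)
          _ = s := Real.exp_log hs
          _ ≤ 1 + s ^ 2 := by nlinarith [sq_nonneg (s - 1)]
    calc c.Φ s ≤ s ^ 2 * (1 + s ^ 2) :=
          h1.trans (mul_le_mul_of_nonneg_left h2 (sq_nonneg s))
      _ ≤ _ := by nlinarith [sq_nonneg (s ^ 2 - 1 / 2)]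

theorem N9 (c : Cx) : ∃ C : ℝ, 0 < C ∧ ∀ e : c.E, MemLp (c.J e) 2 mu ∧
    ∫ t, (c.J e t) ^ 2 ∂mu ≤ C * ‖e‖ ^ 2 := by
  refine ⟨5, by norm_num, fun e => ?_⟩
  have hm := (c.J e).aestronglyMeasurable
  have key : ∀ s : ℝ, ‖e‖ < s → ∫⁻ t, ENNReal.ofReal ((c.J e t) ^ 2) ∂mu ≤
      ENNReal.ofReal (5 * s ^ 2) := by
    intro s hs
    have hs0 : 0 < s := lt_of_le_of_lt (norm_nonneg _) hs
    have h1 := rho_le_one c hs
    have h2 : ∫⁻ t, ENNReal.ofReal ((c.J e t) ^ 2) ∂mu ≤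
        ENNReal.ofReal (5 * s ^ 2) * rho c.Φ (fun t => c.J e t / s) := by
      unfold rho
      rw [← lintegral_const_mul' _ _ ENNReal.ofReal_ne_top]
      refine lintegral_mono fun t => ?_
      rw [← ENNReal.ofReal_mul (by positivity)]
      refine ENNReal.ofReal_le_ofReal ?_
      have h3 := sq_le c (abs_nonneg (c.J e t / s))
      rw [sq_abs, div_pow, div_le_iff₀ (by positivity)] at h3
      linarith
    calc _ ≤ _ := h2
      _ ≤ ENNReal.ofReal (5 * s ^ 2) * 1 := by gcongr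
      _ = _ := mul_one _
  have hint : Integrable (fun t => (c.J e t) ^ 2) mu := by
    refine ⟨hm.pow 2, ?_⟩
    rw [hasFiniteIntegral_iff_ofReal (Eventually.of_forall fun t => sq_nonneg _)]
    exact lt_of_le_of_lt (key (‖e‖ + 1) (by linarith)) ENNReal.ofReal_lt_top
  refine ⟨(memLp_two_iff_integrable_sq hm).2 hint, ?_⟩
  rw [integral_eq_lintegral_of_nonneg_ae (Eventually.of_forall fun t => sq_nonneg _)
    (hm.pow 2)]
  have h3 : ∀ s : ℝ, ‖e‖ < s → (∫⁻ t, ENNReal.ofReal ((c.J e t) ^ 2) ∂mu).toReal ≤ 5 * s ^ 2 := by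
    intro s hs
    exact ENNReal.toReal_le_of_le_ofReal (by positivity) (key s hs)
  have h4 : Tendsto (fun s : ℝ => 5 * s ^ 2) (𝓝[>] ‖e‖) (𝓝 (5 * ‖e‖ ^ 2)) :=
    (show Continuous fun s : ℝ => 5 * s ^ 2 by fun_prop).continuousWithinAt
  exact ge_of_tendsto h4 (eventually_nhdsWithin_of_forall fun s hs => h3 s hs)

theorem N10 (c : Cx) : ∃ C : ℝ, 0 < C ∧ ∀ e : c.E, MemLp (c.J e) 4 mu →
    ‖e‖ ^ 4 ≤ C * ∫ t, (c.J e t) ^ 4 ∂mu := by
  refine ⟨4, by norm_num, fun e he => ?_⟩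
  have hint : Integrable (fun t => (c.J e t) ^ 4) mu := by
    have h1 := he.integrable_norm_pow (p := 4) (by norm_num)
    refine h1.congr (Eventually.of_forall fun t => ?_)
    simp only [Real.norm_eq_abs]
    exact Even.pow_abs (by decide) _
  set I : ℝ := ∫ t, (c.J e t) ^ 4 ∂mu with hI
  have hI0 : 0 ≤ I := integral_nonneg fun t => by positivity
  rcases hI0.eq_or_lt with h0 | h0
  · have h1 : (fun t => (c.J e t) ^ 4) =ᵐ[mu] 0 :=
      (integral_eq_zero_iff_of_nonneg (fun t => by positivity) hint).1 h0.symm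
    have h2 : c.J e = 0 := by
      refine AEEqFun.ext ?_
      filter_upwards [h1, AEEqFun.coeFn_zero (μ := mu) (β := ℝ)] with t ht h3
      rw [h3]
      exact pow_eq_zero_iff (by norm_num : (4:ℕ) ≠ 0) |>.1 ht
    have h3 : e = 0 := c.orl.inj (by rw [h2, map_zero])
    rw [h3, norm_zero, ← h0]
    simp
  · set s : ℝ := (4 * I) ^ (1 / 4 : ℝ) with hs
    have hs0 : 0 < s := by positivity
    have hs4 : s ^ 4 = 4 * I := by
      rw [hs, ← Real.rpow_natCast, ← Real.rpow_mul (by positivity)]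
      norm_num
    have h1 : ‖e‖ ≤ s := by
      refine norm_le_of c hs0 ?_
      have h2 : rho c.Φ (fun t => c.J e t / s) ≤
          ∫⁻ t, ENNReal.ofReal (2 / s ^ 4 * (c.J e t) ^ 4 + 1 / 4) ∂mu := by
        unfold rho
        refine lintegral_mono fun t => ENNReal.ofReal_le_ofReal ?_
        refine (le_four c (abs_nonneg _)).trans (le_of_eq ?_)
        rw [Even.pow_abs (by decide), div_pow]
        ring
      refine h2.trans ?_
      have j1 : Integrable (fun t => 2 / s ^ 4 * (c.J e t) ^ 4) mu := hint.const_mul _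
      have j2 : Integrable (fun t => 2 / s ^ 4 * (c.J e t) ^ 4 + 1 / 4) mu :=
        j1.add (integrable_const _)
      have j3 : 0 ≤ᵐ[mu] fun t => 2 / s ^ 4 * (c.J e t) ^ 4 + 1 / 4 :=
        Eventually.of_forall fun t => by
          show (0:ℝ) ≤ 2 / s ^ 4 * (c.J e t) ^ 4 + 1 / 4
          positivity
      rw [← ofReal_integral_eq_lintegral_ofReal j2 j3,
        integral_add j1 (integrable_const _), integral_const_mul,
        integral_const, ← hI, hs4, ← ENNReal.ofReal_one]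
      refine ENNReal.ofReal_le_ofReal ?_
      simp
      field_simp
      norm_num
    calc ‖e‖ ^ 4 ≤ s ^ 4 := pow_le_pow_left₀ (norm_nonneg _) h1 4
      _ = 4 * I := hs4

theorem N7 (c : Cx) (C : ℝ) : ∃ C' : ℝ, 0 < C' ∧ ∀ (e : c.E) (A : Set ℝ), MeasurableSet A →
    (∀ᵐ t ∂mu, t ∉ A → c.J e t = 0) → (∀ᵐ t ∂mu, |c.J e t| ≤ C) →
      ‖e‖ ^ 4 ≤ C' * (mu A).toReal := by
  obtain ⟨D, hD, h10⟩ := N10 c
  refine ⟨D * C ^ 4 + 1, by positivity, fun e A hA h1 h2 => ?_⟩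
  have hmem : MemLp (c.J e) 4 mu :=
    MemLp.of_bound (AEEqFun.aestronglyMeasurable _) C (h2.mono fun t ht => by
      rwa [Real.norm_eq_abs])
  refine (h10 e hmem).trans ?_
  have h3 : ∫ t, (c.J e t) ^ 4 ∂mu ≤ ∫ t, A.indicator (fun _ => C ^ 4) t ∂mu := by
    have hint : Integrable (fun t => (c.J e t) ^ 4) mu := by
      have h1 := hmem.integrable_norm_pow (p := 4) (by norm_num)
      refine h1.congr (Eventually.of_forall fun t => ?_)
      simp only [Real.norm_eq_abs]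
      exact Even.pow_abs (by decide) _
    refine integral_mono_ae hint ((integrable_const _).indicator hA) ?_
    filter_upwards [h1, h2] with t h4 h5
    by_cases ht : t ∈ A
    · rw [indicator_of_mem ht]
      rw [← Even.pow_abs (by decide : Even 4) (c.J e t)]
      exact pow_le_pow_left₀ (abs_nonneg _) h5 4
    · rw [indicator_of_notMem ht, h4 ht]
      simp
  rw [integral_indicator hA, setIntegral_const, smul_eq_mul] at h3
  have h4 : mu.real A = (mu A).toReal := rfl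
  rw [h4] at h3
  have h5 : 0 ≤ (mu A).toReal := ENNReal.toReal_nonneg
  nlinarith [mul_le_mul_of_nonneg_left h3 hD.le]

theorem N8 (c : Cx) (e : c.E) (ε : ℝ) (hε : 0 < ε) : ∃ η : ℝ, 0 < η ∧ ∀ A : Set ℝ,
    MeasurableSet A → mu A ≤ ENNReal.ofReal η → ∀ e', Res c e e' A → ‖e'‖ ≤ ε := by
  obtain ⟨C, hC⟩ := N1 c ‖(1 / ε) • e‖
  have h1 : ∫⁻ t, ENNReal.ofReal (c.Φ |c.J e t / ε|) ∂mu ≠ ⊤ := by
    have h2 := hC _ le_rfl
    have h3 : md c ((1 / ε) • e) = ∫⁻ t, ENNReal.ofReal (c.Φ |c.J e t / ε|) ∂mu := by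
      unfold md rho
      rw [map_smul]
      refine lintegral_congr_ae ?_
      filter_upwards [AEEqFun.coeFn_smul (1 / ε) (c.J e)] with t ht
      rw [ht, Pi.smul_apply, smul_eq_mul]
      congr 3
      ring
    rw [← h3]
    exact ne_top_of_le_ne_top ENNReal.ofReal_ne_top h2
  obtain ⟨δ, hδ, h2⟩ := exists_pos_setLIntegral_lt_of_measure_lt h1 one_ne_zero
  obtain ⟨η, hη, hηδ⟩ : ∃ η : ℝ, 0 < η ∧ ENNReal.ofReal η < δ := by
    rcases eq_top_or_lt_top δ with h | h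
    · exact ⟨1, one_pos, by rw [h]; exact ENNReal.ofReal_lt_top⟩
    · refine ⟨δ.toReal / 2, by have := ENNReal.toReal_pos hδ.ne' h.ne; positivity, ?_⟩
      rw [← ENNReal.ofReal_toReal h.ne]
      have := ENNReal.toReal_pos hδ.ne' h.ne
      rw [ENNReal.toReal_ofReal this.le]
      exact (ENNReal.ofReal_lt_ofReal_iff this).2 (by linarith)
  refine ⟨η, hη, fun A hA hAη e' he' => norm_le_of c hε ?_⟩
  have h3 := h2 A (lt_of_le_of_lt hAη hηδ)
  refine le_trans (le_of_eq ?_) h3.le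
  unfold rho
  rw [← lintegral_indicator hA]
  refine lintegral_congr_ae ?_
  filter_upwards [he'] with t ht
  rw [ht]
  by_cases htA : t ∈ A
  · rw [indicator_of_mem htA, indicator_of_mem htA]
  · rw [indicator_of_notMem htA, indicator_of_notMem htA, zero_div, abs_zero, c.prof.orl.zero,
      ENNReal.ofReal_zero]

end DBx

theorem dictB : DictB where
  N5 := DBx.N5
  N6 := DBx.N6
  N7 := DBx.N7
  N8 := DBx.N8
  N9 := DBx.N9
  N10 := DBx.N10
  N11 := DBx.N11

end Pool.Agent.Q88.KO
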