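import Mathlib

/-!
# Orlicz spaces on `[0,1]`, the Kato property, 2-disjoint homogeneity
-/

set_option autoImplicit false

namespace Pool.Agent.Q88.KO

open MeasureTheory Set
open scoped ENNReal

/-- Lebesgue measure on `[0,1]`. -/
noncomputable def mu : Measure ℝ := volume.restrict (Icc 0 1)

/-- Orlicz functions: convex, nondecreasing and continuous on `[0,∞)`, zero at `0`, not identically
zero. (Only the values on `[0,∞)` matter.) -/
structure IsOrlicz (Φ : ℝ → ℝ) : Prop where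
  convex : ConvexOn ℝ (Ici 0) Φ
  mono : MonotoneOn Φ (Ici 0)
  cont : ContinuousOn Φ (Ici 0)
  zero : Φ 0 = 0
  ne : ∃ s, 0 ≤ s ∧ Φ s ≠ 0

/-- The modular `∫ Φ(|f|)` on `[0,1]`. -/
noncomputable def rho (Φ : ℝ → ℝ) (f : ℝ → ℝ) : ℝ≥0∞ := ∫⁻ t, ENNReal.ofReal (Φ |f t|) ∂mu

/-- The normed space `E` is, via the linear injection `J` to the classes of measurable functions on
`[0,1]` modulo equality almost everywhere, the Orlicz space of `Φ` with the Luxemburg norm. -/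
structure IsOrliczSpace (Φ : ℝ → ℝ) (E : Type) [NormedAddCommGroup E] [NormedSpace ℝ E]
    (J : E →ₗ[ℝ] (ℝ →ₘ[mu] ℝ)) : Prop where
  inj : Function.Injective J
  mem : ∀ f : ℝ →ₘ[mu] ℝ, (∃ e, J e = f) ↔ ∃ s : ℝ, 0 < s ∧ rho Φ (fun t => f t / s) < ⊤
  norm : ∀ e, ‖e‖ = sInf {s : ℝ | 0 < s ∧ rho Φ (fun t => J e t / s) ≤ 1}

/-- `T` is strictly singular: it is not bounded below on any closed subspace of infinite
dimension. -/
def StrictlySingular {E : Type} [NormedAddCommGroup E] [NormedSpace ℝ E] (T : E →L[ℝ] E) : Prop :=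
  ∀ M : Submodule ℝ E, IsClosed (M : Set E) → ¬ FiniteDimensional ℝ M →
    ¬ ∃ c > 0, ∀ x ∈ M, c * ‖x‖ ≤ ‖T x‖

/-- The Kato property: every strictly singular operator is compact. -/
def Kato (E : Type) [NormedAddCommGroup E] [NormedSpace ℝ E] : Prop :=
  ∀ T : E →L[ℝ] E, StrictlySingular T → IsCompactOperator T

/-- `e` and `e'` are disjoint: their product is zero almost everywhere. -/
def Dj {E : Type} [NormedAddCommGroup E] [NormedSpace ℝ E] (J : E →ₗ[ℝ] (ℝ →ₘ[mu] ℝ))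
    (e e' : E) : Prop := ∀ᵐ t ∂mu, J e t = 0 ∨ J e' t = 0

/-- The sequence `y` is equivalent to the unit vector basis of `ℓ₂`. -/
def IsEllTwo {E : Type} [NormedAddCommGroup E] [NormedSpace ℝ E] (y : ℕ → E) : Prop :=
  ∃ C : ℝ, 0 < C ∧ ∀ (s : Finset ℕ) (a : ℕ → ℝ),
    C⁻¹ * √(∑ i ∈ s, a i ^ 2) ≤ ‖∑ i ∈ s, a i • y i‖ ∧
      ‖∑ i ∈ s, a i • y i‖ ≤ C * √(∑ i ∈ s, a i ^ 2)

/-- 2-disjointly homogeneous: each normalized sequence of pairwise disjoint elements has a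
subsequence which is equivalent to the unit vector basis of `ℓ₂`. -/
def TwoDH (E : Type) [NormedAddCommGroup E] [NormedSpace ℝ E] (J : E →ₗ[ℝ] (ℝ →ₘ[mu] ℝ)) : Prop :=
  ∀ x : ℕ → E, (∀ n, ‖x n‖ = 1) → (∀ m n, m ≠ n → Dj J (x m) (x n)) →
    ∃ φ : ℕ → ℕ, StrictMono φ ∧ IsEllTwo fun k => x (φ k)

end Pool.Agent.Q88.KO
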