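import Pool.Agent.Q88.KO.Stm

/-!
# The assembly
-/

set_option autoImplicit false

namespace Pool.Agent.Q88.KO

open MeasureTheory Set Filter Topology
open scoped ENNReal

theorem Low.sub {E : Type} [NormedAddCommGroup E] [NormedSpace ℝ E] {y : ℕ → E} (h : Low y)
    {φ : ℕ → ℕ} (hφ : StrictMono φ) : Low fun k => y (φ k) := by
  classical
  obtain ⟨κ, hκ, h⟩ := h
  refine ⟨κ, hκ, fun s a => ?_⟩
  have h1 := h (s.map ⟨φ, hφ.injective⟩) (fun n => if hn : ∃ k, φ k = n then a hn.choose else 0)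
  have h2 : ∀ k, (if hn : ∃ j, φ j = φ k then a hn.choose else 0) = a k := by
    intro k
    have hn : ∃ j, φ j = φ k := ⟨k, rfl⟩
    rw [dif_pos hn]
    exact congrArg a (hφ.injective hn.choose_spec)
  rw [Finset.sum_map, Finset.sum_map] at h1
  simp only [Function.Embedding.coeFn_mk, h2] at h1
  exact h1

theorem Upp.sub {E : Type} [NormedAddCommGroup E] [NormedSpace ℝ E] {y : ℕ → E} (h : Upp y)
    {φ : ℕ → ℕ} (hφ : StrictMono φ) : Upp fun k => y (φ k) := by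
  classical
  obtain ⟨κ, hκ, h⟩ := h
  refine ⟨κ, hκ, fun s a => ?_⟩
  have h1 := h (s.map ⟨φ, hφ.injective⟩) (fun n => if hn : ∃ k, φ k = n then a hn.choose else 0)
  have h2 : ∀ k, (if hn : ∃ j, φ j = φ k then a hn.choose else 0) = a k := by
    intro k
    have hn : ∃ j, φ j = φ k := ⟨k, rfl⟩
    rw [dif_pos hn]
    exact congrArg a (hφ.injective hn.choose_spec)
  rw [Finset.sum_map, Finset.sum_map] at h1
  simp only [Function.Embedding.coeFn_mk, h2] at h1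
  exact h1

/-- the image of a finite sum, almost everywhere -/
theorem J_sum (c : Cx) (s : Finset ℕ) (a : ℕ → ℝ) (r : ℕ → c.E) :
    c.J (∑ i ∈ s, a i • r i) =ᵐ[mu] fun t => ∑ i ∈ s, a i * c.J (r i) t := by
  classical
  induction s using Finset.induction_on with
  | empty =>
    simp only [Finset.sum_empty, map_zero]
    exact AEEqFun.coeFn_zero
  | insert j s hj ih =>
    rw [Finset.sum_insert hj, map_add, map_smul]
    filter_upwards [AEEqFun.coeFn_add (a j • c.J (r j)) (c.J (∑ i ∈ s, a i • r i)),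
      AEEqFun.coeFn_smul (a j) (c.J (r j)), ih] with t h1 h2 h3
    rw [h1, Pi.add_apply, h2, Pi.smul_apply, h3, Finset.sum_insert hj, smul_eq_mul]

theorem Wn.sub {f : ℕ → ℝ → ℝ} (h : Wn f) {φ : ℕ → ℕ} (hφ : StrictMono φ) :
    Wn fun k => f (φ k) := fun g hg => (h g hg).comp hφ.tendsto_atTop

/-- bounded functions -/
theorem case1 (hB : DictB) (hD1 : P_D1) (hW : P_W) (hlA : P_lA) (hSS : P_SS) (c : Cx)
    (T : c.E →L[ℝ] c.E) (r : ℕ → c.E) (K δ : ℝ) (hK : ∀ n, ∀ᵐ t ∂mu, |c.J (r n) t| ≤ K)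
    (hr : Wn (fun n => c.J (r n))) (hδ : 0 < δ) (hT : ∀ n, δ ≤ ‖T (r n)‖) :
    ¬ StrictlySingular T := by
  obtain ⟨φ, C, hφ, hC, h1⟩ := hD1 (fun n => c.J (r n)) K
    (fun n => (c.J (r n)).aestronglyMeasurable) hK hr
  obtain ⟨C₄, hC₄, h4⟩ := hB.N10 c
  have hup : Upp fun k => r (φ k) := by
    refine ⟨(C₄ * C) ^ (1 / 4 : ℝ), by positivity, fun s a => ?_⟩
    have h2 := J_sum c s a (fun k => r (φ k))
    have hK' : ∀ᵐ t ∂mu, ∀ n, |c.J (r n) t| ≤ K := ae_all_iff.2 hK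
    have hmem : MemLp (c.J (∑ i ∈ s, a i • r (φ i))) 4 mu := by
      refine MemLp.of_bound (AEEqFun.aestronglyMeasurable _) (∑ i ∈ s, |a i| * K) ?_
      filter_upwards [h2, hK'] with t ht hk
      rw [ht]
      refine (norm_sum_le _ _).trans (Finset.sum_le_sum fun i _ => ?_)
      rw [norm_mul, Real.norm_eq_abs, Real.norm_eq_abs]
      exact mul_le_mul_of_nonneg_left (hk _) (abs_nonneg _)
    have h3 := h4 _ hmem
    have h5 : ∫ t, (c.J (∑ i ∈ s, a i • r (φ i)) t) ^ 4 ∂mu =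
        ∫ t, (∑ i ∈ s, a i * c.J (r (φ i)) t) ^ 4 ∂mu := by
      refine integral_congr_ae ?_
      filter_upwards [h2] with t ht
      rw [ht]
    rw [h5] at h3
    have h6 : ‖∑ i ∈ s, a i • r (φ i)‖ ^ 4 ≤
        ((C₄ * C) ^ (1 / 4 : ℝ) * √(∑ i ∈ s, a i ^ 2)) ^ 4 := by
      rw [mul_pow, ← Real.rpow_natCast ((C₄ * C) ^ (1 / 4 : ℝ)) 4,
        ← Real.rpow_mul (by positivity)]
      have e1 : (1 / 4 : ℝ) * ((4 : ℕ) : ℝ) = 1 := by norm_num
      have e2 : √(∑ i ∈ s, a i ^ 2) ^ 4 = (∑ i ∈ s, a i ^ 2) ^ 2 := by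
        have : √(∑ i ∈ s, a i ^ 2) ^ 4 = (√(∑ i ∈ s, a i ^ 2) ^ 2) ^ 2 := by ring
        rw [this, Real.sq_sqrt (Finset.sum_nonneg fun i _ => sq_nonneg _)]
      rw [e1, Real.rpow_one, e2, mul_assoc]
      exact h3.trans (mul_le_mul_of_nonneg_left (h1 s a) hC₄.le)
    exact le_of_pow_le_pow_left₀ (by norm_num) (by positivity) h6
  -- `r` is bounded
  obtain ⟨C₇, hC₇, h7⟩ := hB.N7 c K
  have hbd : ∀ n, ‖T (r n)‖ ≤ ‖T‖ * (C₇ + 1) := by
    intro n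
    refine (T.le_opNorm _).trans (mul_le_mul_of_nonneg_left ?_ (norm_nonneg T))
    have h2 := h7 (r n) univ MeasurableSet.univ (Eventually.of_forall fun t ht => absurd trivial ht)
      (hK n)
    rw [measure_univ, ENNReal.toReal_one, mul_one] at h2
    by_contra hcon
    push Not at hcon
    have h3 : 1 ≤ ‖r n‖ := by linarith
    have h4 : ‖r n‖ ≤ ‖r n‖ ^ 4 := by
      calc ‖r n‖ = ‖r n‖ ^ 1 := (pow_one _).symm
        _ ≤ ‖r n‖ ^ 4 := pow_le_pow_right₀ h3 (by norm_num)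
    linarith
  obtain ⟨ψ, hψ, hlow⟩ := hlA c (fun k => T (r (φ k))) _ δ (fun n => hbd _)
    (hW c T (fun k => r (φ k)) (Or.inl hup)) hδ (fun n => hT _)
  exact hSS c.E T (fun k => r (φ (ψ k))) (hup.sub hψ) hlow

/-- disjoint sequences -/
theorem case2 (hB : DictB) (hW : P_W) (hlA : P_lA) (hSS : P_SS) (hNF : P_NF) (hFB : P_FB) (c : Cx)
    (T : c.E →L[ℝ] c.E) (h : ℕ → c.E) (B δ : ℝ) (hb : ∀ n, ‖h n‖ ≤ B)
    (hd : ∀ m n, m ≠ n → Dj c.J (h m) (h n)) (hδ : 0 < δ) (hT : ∀ n, δ ≤ ‖T (h n)‖) :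
    ¬ StrictlySingular T := by
  classical
  obtain ⟨φ, h', hφ, h1, ⟨δ', hδ', h2⟩, h3⟩ := hNF c T h B δ hb hd hδ hT
  have hb' : ∀ n, ‖h' n‖ ≤ B := by
    intro n
    refine (hB.N5 c _ _ ?_).trans (hb (φ n))
    filter_upwards [h1 n] with t ht
    rcases ht with ht | ht
    · rw [ht]
    · rw [ht, abs_zero]
      exact abs_nonneg _
  have hd' : ∀ m n, m ≠ n → Dj c.J (h' m) (h' n) := by
    intro m n hmn
    have h4 := hd (φ m) (φ n) (fun he => hmn (hφ.injective he))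
    unfold Dj at h4 ⊢
    filter_upwards [h4, h1 m, h1 n] with t ht h5 h6
    rcases h5 with h5 | h5
    · rcases h6 with h6 | h6
      · rw [h5, h6]
        exact ht
      · exact Or.inr h6
    · exact Or.inl h5
  obtain ⟨ψ, hψ, κ, hκ, hlow⟩ := hlA c (fun k => T (h' k)) (‖T‖ * B) δ'
    (fun n => (T.le_opNorm _).trans (mul_le_mul_of_nonneg_left (hb' n) (norm_nonneg T)))
    (hW c T h' (Or.inr ⟨⟨B, hb'⟩, hd'⟩)) hδ' h2
  have hψk : ∀ k : ℕ, (k : ℝ) ≤ ψ k := fun k => by exact_mod_cast hψ.id_le k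
  have h3' : (∃ L : ℝ, Nr c L fun k => h' (ψ k)) ∨ Far c fun k => h' (ψ k) := by
    rcases h3 with ⟨L, h3⟩ | h3
    · left
      refine ⟨L, fun k => ?_⟩
      filter_upwards [h3 (ψ k)] with t ht h0
      exact ⟨(hψk k).trans (ht h0).1, (ht h0).2⟩
    · right
      intro k
      filter_upwards [h3 (ψ k)] with t ht h0
      exact ⟨(hψk k).trans (ht h0).1, fun z hz => (hψk k).trans ((ht h0).2 z hz)⟩
  obtain ⟨S, τ, hS, hτ, hcard, hup⟩ := hFB c (fun k => h' (ψ k)) B (fun n => hb' _)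
    (fun m n hmn => hd' _ _ fun he => hmn (hψ.injective he)) h3'
  refine hSS c.E T _ hup ⟨κ, hκ, fun s a => ?_⟩
  -- the coefficients
  let b : ℕ → ℝ := fun n => if hn : ∃ k, n ∈ S k then a hn.choose * τ hn.choose else 0
  have hb1 : ∀ k n, n ∈ S k → b n = a k * τ k := by
    intro k n hn
    have hn' : ∃ k, n ∈ S k := ⟨k, hn⟩
    have e : hn'.choose = k := by
      by_contra hne
      exact (Finset.disjoint_left.1 (hS _ _ hne)) hn'.choose_spec hn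
    simp only [b]
    rw [dif_pos hn', e]
  have hdis : Set.PairwiseDisjoint (↑s : Set ℕ) S := fun m _ n _ hmn => hS m n hmn
  have hsum1 : ∑ n ∈ s.biUnion S, b n • T (h' (ψ n)) =
      ∑ k ∈ s, a k • T (τ k • ∑ n ∈ S k, h' (ψ n)) := by
    rw [Finset.sum_biUnion hdis]
    refine Finset.sum_congr rfl fun k _ => ?_
    rw [map_smul, map_sum, Finset.smul_sum, Finset.smul_sum]
    refine Finset.sum_congr rfl fun n hn => ?_
    rw [hb1 k n hn, smul_smul]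
  have hsum2 : ∑ k ∈ s, a k ^ 2 ≤ ∑ n ∈ s.biUnion S, b n ^ 2 := by
    rw [Finset.sum_biUnion hdis]
    refine Finset.sum_le_sum fun k _ => ?_
    have e1 : ∑ n ∈ S k, b n ^ 2 = a k ^ 2 * (τ k ^ 2 * (S k).card) := by
      rw [Finset.sum_congr rfl fun n hn => by rw [hb1 k n hn], Finset.sum_const, nsmul_eq_mul]
      ring
    rw [e1]
    have := mul_le_mul_of_nonneg_left (hcard k) (sq_nonneg (a k))
    linarith
  calc κ * √(∑ k ∈ s, a k ^ 2) ≤ κ * √(∑ n ∈ s.biUnion S, b n ^ 2) :=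
        mul_le_mul_of_nonneg_left (Real.sqrt_le_sqrt hsum2) hκ.le
    _ ≤ ‖∑ n ∈ s.biUnion S, b n • T (h' (ψ n))‖ := hlow _ _
    _ = _ := by rw [hsum1]

theorem kato (hB : DictB) (hD1 : P_D1) (hW : P_W) (hlA : P_lA) (hSS : P_SS) (hNF : P_NF)
    (hFB : P_FB) (hNC : P_NC) (c : Cx) : Kato c.E := by
  intro T hT
  by_contra hcon
  rcases hNC c T hcon with ⟨r, K, δ, h1, h2, h3, h4⟩ | ⟨h, B, δ, h1, h2, h3, h4⟩
  · exact case1 hB hD1 hW hlA hSS c T r K δ h1 h2 h3 h4 hT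
  · exact case2 hB hW hlA hSS hNF hFB c T h B δ h1 h2 h3 h4 hT

/-- the assembly -/
theorem main (pA : P_A) (pB : P_B) (hB : DictB) (hD1 : P_D1) (hW : P_W) (hlA : P_lA)
    (hSS : P_SS) (hNF : P_NF) (hFB : P_FB) (hNC : P_NC) (hG : P_G) :
    ∃ Φ : ℝ → ℝ, IsOrlicz Φ ∧ ∃ (E : Type) (_ : NormedAddCommGroup E) (_ : NormedSpace ℝ E)
      (_ : CompleteSpace E) (J : E →ₗ[ℝ] (ℝ →ₘ[mu] ℝ)), IsOrliczSpace Φ E J ∧ Kato E ∧
        ¬ TwoDH E J := by
  obtain ⟨Φ, H, Z, b, hP⟩ := pA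
  have h2 : ∀ s, 0 ≤ s → s ^ 2 ≤ 5 * Φ s := by
    intro s hs
    rcases hs.eq_or_lt with rfl | hs
    · rw [hP.orl.zero]
      simp
    · refine le_trans ?_ (hP.lo s hs)
      have : 1 ≤ Real.exp (H (Real.log s)) := Real.one_le_exp (hP.nonneg _)
      nlinarith [sq_nonneg s]
  obtain ⟨E, i1, i2, i3, J, hJ⟩ := pB Φ hP.orl h2
  let c : Cx := { Φ := Φ, H := H, Z := Z, b := b, E := E, J := J, prof := hP, orl := hJ }
  exact ⟨Φ, hP.orl, E, i1, i2, i3, J, hJ, kato hB hD1 hW hlA hSS hNF hFB hNC c, hG c⟩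

end Pool.Agent.Q88.KO
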