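import Pool.Agent.Q88.KO.Stm

/-!
# Existence of the profile
-/

set_option autoImplicit false

namespace Pool.Agent.Q88.KO

open MeasureTheory Set Filter Topology

namespace PAh

/-- the squares -/
def Sq : Set ℝ := Set.range fun k : ℕ => ((k : ℝ) ^ 2)

/-- distance to the squares -/
noncomputable def D (y : ℝ) : ℝ := Metric.infDist y Sq

theorem Sq_ne : Sq.Nonempty := ⟨_, 0, rfl⟩

theorem D_nonneg (y : ℝ) : 0 ≤ D y := Metric.infDist_nonneg

theorem D_lip (x y : ℝ) : |D x - D y| ≤ |x - y| := by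
  have h := (Metric.lipschitz_infDist_pt Sq).dist_le_mul x y
  rw [Real.dist_eq, Real.dist_eq, NNReal.coe_one, one_mul] at h
  exact h

theorem D_sq (k : ℕ) : D ((k : ℝ) ^ 2) = 0 := Metric.infDist_zero_of_mem ⟨k, rfl⟩

theorem D_mid (j : ℕ) : (j : ℝ) ≤ D ((j : ℝ) ^ 2 + j) := by
  unfold D
  rw [Metric.le_infDist Sq_ne]
  rintro _ ⟨k, rfl⟩
  rw [Real.dist_eq]
  simp only
  rcases le_or_gt k j with h | h
  · have h1 : (k : ℝ) ≤ j := by exact_mod_cast h
    have h2 : (k : ℝ) ^ 2 ≤ (j : ℝ) ^ 2 := pow_le_pow_left₀ (Nat.cast_nonneg _) h1 2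
    rw [abs_of_nonneg (by have := Nat.cast_nonneg (α := ℝ) j; linarith)]
    linarith
  · have h1 : (j : ℝ) + 1 ≤ k := by exact_mod_cast h
    have h2 : ((j : ℝ) + 1) ^ 2 ≤ (k : ℝ) ^ 2 := pow_le_pow_left₀ (by positivity) h1 2
    have h3 := neg_abs_le ((j : ℝ) ^ 2 + j - (k : ℝ) ^ 2)
    nlinarith

/-- the shape of a block, seen from its right end -/
noncomputable def h (v : ℝ) : ℝ := D (Real.log (1 + v)) / 4

theorem h_nonneg (v : ℝ) : 0 ≤ h v := div_nonneg (D_nonneg _) (by norm_num)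

theorem log_diff {v t : ℝ} (hv : 0 ≤ v) (ht : 0 ≤ t) :
    |Real.log (1 + (v + t)) - Real.log (1 + v)| ≤ t / (1 + v) := by
  have h1 : 0 < 1 + v := by linarith
  have h2 : 0 < 1 + (v + t) := by linarith
  have h3 : Real.log (1 + v) ≤ Real.log (1 + (v + t)) := Real.log_le_log h1 (by linarith)
  rw [abs_of_nonneg (by linarith), ← Real.log_div h2.ne' h1.ne']
  have h4 : (1 + (v + t)) / (1 + v) = t / (1 + v) + 1 := by
    field_simp
    ring
  rw [h4]
  have h5 : 0 ≤ t / (1 + v) := by positivity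
  have h6 := Real.log_le_sub_one_of_pos (show 0 < t / (1 + v) + 1 by linarith)
  linarith

theorem h_diff {v t : ℝ} (hv : 0 ≤ v) (ht : 0 ≤ t) : |h (v + t) - h v| ≤ t / (1 + v) / 4 := by
  unfold h
  have h1 := (D_lip (Real.log (1 + (v + t))) (Real.log (1 + v))).trans (log_diff hv ht)
  rw [← sub_div, abs_div, abs_of_pos (show (0 : ℝ) < 4 by norm_num)]
  exact div_le_div_of_nonneg_right h1 (by norm_num)

theorem h_lip {v w : ℝ} (hv : 0 ≤ v) (hw : 0 ≤ w) : |h v - h w| ≤ |v - w| / 4 := by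
  have key : ∀ a b : ℝ, 0 ≤ a → a ≤ b → |h b - h a| ≤ (b - a) / 4 := by
    intro a b ha hab
    have h1 := h_diff ha (show 0 ≤ b - a by linarith)
    rw [add_sub_cancel] at h1
    refine h1.trans (div_le_div_of_nonneg_right ?_ (by norm_num))
    exact div_le_self (by linarith) (by linarith)
  rcases le_total v w with h1 | h1
  · rw [abs_sub_comm, abs_sub_comm v w, abs_of_nonneg (show 0 ≤ w - v by linarith)]
    exact key v w hv h1
  · rw [abs_of_nonneg (show 0 ≤ v - w by linarith)]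
    exact key w v hw h1

/-- the lengths of the blocks -/
noncomputable def b (k : ℕ) : ℝ := Real.exp ((k : ℝ) ^ 2) - 1

theorem b_ge (k : ℕ) : (k : ℝ) ^ 2 ≤ b k := by
  have := Real.add_one_le_exp ((k : ℝ) ^ 2)
  unfold b
  linarith

theorem b_nonneg (k : ℕ) : 0 ≤ b k := le_trans (by positivity) (b_ge k)

theorem b_mono {k m : ℕ} (hkm : k ≤ m) : b k ≤ b m := by
  unfold b
  have h1 : (k : ℝ) ≤ m := by exact_mod_cast hkm
  have h2 := Real.exp_le_exp.2 (pow_le_pow_left₀ (Nat.cast_nonneg k) h1 2)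
  linarith

theorem log_b (k : ℕ) : Real.log (1 + b k) = (k : ℝ) ^ 2 := by
  unfold b
  rw [add_sub_cancel, Real.log_exp]

theorem h_b (k : ℕ) : h (b k) = 0 := by
  unfold h
  rw [log_b, D_sq, zero_div]

theorem h_zero : h 0 = 0 := by
  have h1 := h_b 0
  have h2 : b 0 = 0 := by simp [b]
  rwa [h2] at h1

/-- the ends of the blocks -/
noncomputable def z : ℕ → ℝ
  | 0 => 0
  | m + 1 => z m + b (m + 1)

theorem z_zero : z 0 = 0 := rfl

theorem z_succ (m : ℕ) : z (m + 1) = z m + b (m + 1) := rfl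

theorem z_mono : Monotone z := monotone_nat_of_le_succ fun m => by
  rw [z_succ]
  have := b_nonneg (m + 1)
  linarith

theorem z_ge (m : ℕ) : (m : ℝ) ≤ z m := by
  induction m with
  | zero => simp [z_zero]
  | succ m ih =>
    have h1 := b_ge (m + 1)
    have h2 : (1 : ℝ) ≤ ((m + 1 : ℕ) : ℝ) := by push_cast; linarith [Nat.cast_nonneg (α := ℝ) m]
    rw [z_succ]
    push_cast at *
    nlinarith

theorem z_nonneg (m : ℕ) : 0 ≤ z m := (Nat.cast_nonneg m).trans (z_ge m)

theorem ex_z (x : ℝ) : ∃ m, x ≤ z m := by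
  obtain ⟨m, hm⟩ := exists_nat_ge x
  exact ⟨m, hm.trans (z_ge m)⟩

theorem ex_b (x : ℝ) : ∃ m, x < b m := by
  obtain ⟨m, hm⟩ := exists_nat_gt (max x 1)
  refine ⟨m, ?_⟩
  have h1 := b_ge m
  have h2 : x < m := (le_max_left _ _).trans_lt hm
  have h3 : 1 < (m : ℝ) := (le_max_right _ _).trans_lt hm
  nlinarith

open Classical in
/-- the number of the block of `x` -/
noncomputable def blk (x : ℝ) : ℕ := Nat.find (ex_z x)

theorem blk_eq {x : ℝ} {m : ℕ} (h1 : z m < x) (h2 : x ≤ z (m + 1)) : blk x = m + 1 := by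
  classical
  unfold blk
  rw [Nat.find_eq_iff]
  refine ⟨h2, fun n hn => ?_⟩
  rw [not_le]
  exact (z_mono (Nat.lt_succ_iff.mp hn)).trans_lt h1

theorem ex_blk {x : ℝ} (hx : 0 < x) : ∃ m, z m < x ∧ x ≤ z (m + 1) := by
  classical
  have h1 : x ≤ z (blk x) := by
    unfold blk
    exact Nat.find_spec (ex_z x)
  obtain ⟨m, hm⟩ : ∃ m, blk x = m + 1 := by
    apply Nat.exists_eq_succ_of_ne_zero
    intro h0
    rw [h0, z_zero] at h1
    linarith
  refine ⟨m, ?_, by rw [← hm]; exact h1⟩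
  have h2 : ¬ x ≤ z m := by
    apply Nat.find_min (ex_z x)
    change m < blk x
    omega
  exact not_le.mp h2

/-- the exponent -/
noncomputable def H (x : ℝ) : ℝ := if x ≤ 0 then 0 else h (z (blk x) - x)

theorem H_neg {x : ℝ} (hx : x ≤ 0) : H x = 0 := if_pos hx

theorem H_blk {x : ℝ} {m : ℕ} (h1 : z m < x) (h2 : x ≤ z (m + 1)) : H x = h (z (m + 1) - x) := by
  unfold H
  rw [if_neg (by have := z_nonneg m; linarith), blk_eq h1 h2]

theorem H_nonneg (x : ℝ) : 0 ≤ H x := by
  unfold H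
  split_ifs
  · exact le_rfl
  · exact h_nonneg _

theorem H_right {x : ℝ} {m : ℕ} (hx : x ≤ z m) : H x ≤ (z m - x) / 4 := by
  rcases le_or_gt x 0 with h0 | h0
  · rw [H_neg h0]
    linarith [z_nonneg m]
  · obtain ⟨n, h1, h2⟩ := ex_blk h0
    rw [H_blk h1 h2]
    have h3 : n + 1 ≤ m := by
      by_contra hlt
      have h4 : m ≤ n := by omega
      have := z_mono h4
      linarith
    have h4 := z_mono h3
    have h5 := h_lip (v := z (n + 1) - x) (w := 0) (by linarith) le_rfl
    rw [h_zero, sub_zero, sub_zero, abs_of_nonneg (h_nonneg _),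
      abs_of_nonneg (show 0 ≤ z (n + 1) - x by linarith)] at h5
    linarith

theorem H_left {x : ℝ} {m : ℕ} (h1 : z m < x) (h2 : x ≤ z (m + 1)) : H x ≤ (x - z m) / 4 := by
  rw [H_blk h1 h2]
  have h3 : z (m + 1) - z m = b (m + 1) := by rw [z_succ]; ring
  have h4 := h_lip (v := z (m + 1) - x) (w := b (m + 1)) (by linarith) (b_nonneg _)
  rw [h_b, sub_zero, abs_of_nonneg (h_nonneg _), ← h3, abs_sub_comm,
    abs_of_nonneg (show 0 ≤ z (m + 1) - z m - (z (m + 1) - x) by linarith)] at h4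
  linarith

theorem H_lip (x y : ℝ) : |H x - H y| ≤ |x - y| / 4 := by
  have key : ∀ x y : ℝ, x ≤ y → |H x - H y| ≤ (y - x) / 4 := by
    intro x y hxy
    rcases le_or_gt y 0 with h0 | h0
    · rw [H_neg h0, H_neg (hxy.trans h0), sub_zero, abs_zero]
      linarith
    · obtain ⟨m, h1, h2⟩ := ex_blk h0
      rcases lt_or_ge (z m) x with h3 | h3
      · rw [H_blk h1 h2, H_blk h3 (hxy.trans h2)]
        have h4 := h_lip (v := z (m + 1) - x) (w := z (m + 1) - y) (by linarith) (by linarith)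
        refine h4.trans (le_of_eq ?_)
        rw [show z (m + 1) - x - (z (m + 1) - y) = y - x by ring,
          abs_of_nonneg (show 0 ≤ y - x by linarith)]
      · have h4 := H_left h1 h2
        have h5 := H_right h3
        have h6 := H_nonneg x
        have h7 := H_nonneg y
        rw [abs_le]
        constructor <;> linarith
  rcases le_total x y with h1 | h1
  · rw [abs_sub_comm x y, abs_of_nonneg (show 0 ≤ y - x by linarith)]
    exact key x y h1
  · rw [abs_sub_comm, abs_of_nonneg (show 0 ≤ x - y by linarith)]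
    exact key y x h1

theorem H_z (m : ℕ) : H (z m) = 0 := by
  have h1 := H_right (le_refl (z m))
  have h2 := H_nonneg (z m)
  linarith

theorem H_flat (u : ℝ) : ∃ L : ℝ, ∀ x, (∀ y ∈ Set.range z, L ≤ |x - y|) → ∀ t, 0 ≤ t → t ≤ u →
    |H (x - t) - H x| ≤ 1 := by
  refine ⟨|u| + 1, fun x hx t ht htu => ?_⟩
  have hu : t ≤ |u| := htu.trans (le_abs_self u)
  rcases le_or_gt x 0 with h0 | h0
  · rw [H_neg h0, H_neg (by linarith), sub_zero, abs_zero]
    exact zero_le_one
  · obtain ⟨m, h1, h2⟩ := ex_blk h0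
    have h3 := hx _ ⟨m, rfl⟩
    have h4 := hx _ ⟨m + 1, rfl⟩
    rw [abs_of_nonneg (show 0 ≤ x - z m by linarith)] at h3
    rw [abs_sub_comm, abs_of_nonneg (show 0 ≤ z (m + 1) - x by linarith)] at h4
    rw [H_blk h1 h2, H_blk (x := x - t) (m := m) (by linarith) (by linarith),
      show z (m + 1) - (x - t) = (z (m + 1) - x) + t by ring]
    refine (h_diff (by linarith) ht).trans ?_
    have h5 : t / (1 + (z (m + 1) - x)) ≤ 1 := by
      rw [div_le_one (by linarith)]
      linarith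
    linarith

theorem H_scale (L : ℝ) : ∃ k₀ : ℕ, ∀ k, k₀ ≤ k → ∃ x₀ : ℝ, ∀ x, x₀ ≤ x →
    (∃ y ∈ Set.range z, |x - y| ≤ L) → ∀ t : ℝ, 0 ≤ t → t ≤ k → H (x - b k - t) ≤ 1 := by
  obtain ⟨k₀, hk₀⟩ := exists_nat_ge (max (2 * L) 2)
  refine ⟨k₀, fun k hk => ?_⟩
  have hk1 : 2 * L ≤ k := (le_max_left _ _).trans (hk₀.trans (by exact_mod_cast hk))
  have hk2 : (2 : ℝ) ≤ k := (le_max_right _ _).trans (hk₀.trans (by exact_mod_cast hk))
  obtain ⟨m₁, hm₁⟩ := ex_b (b k + k + L)
  refine ⟨z m₁ + L + 1, fun x hx hxy t ht htk => ?_⟩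
  obtain ⟨_, ⟨m, rfl⟩, hm⟩ := hxy
  have hL0 : 0 ≤ L := (abs_nonneg _).trans hm
  rw [abs_le] at hm
  obtain ⟨hm1, hm2⟩ := hm
  have hmm : m₁ < m := by
    by_contra hlt
    have := z_mono (not_lt.mp hlt)
    linarith
  obtain ⟨n, rfl⟩ : ∃ n, m = n + 1 := ⟨m - 1, by omega⟩
  have hb := b_mono (show m₁ ≤ n + 1 by omega)
  have hbk := b_ge k
  set D' : ℝ := b k + t - (x - z (n + 1)) with hD'
  have hD1 : b k - L ≤ D' := by linarith
  have hD2 : D' ≤ b k + k + L := by linarith
  have hbL : k + L ≤ 1 + (b k - L) := by nlinarith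
  have hD0 : 0 ≤ D' := by linarith
  have hx2 : x - b k - t = z (n + 1) - D' := by rw [hD']; ring
  rw [hx2, H_blk (m := n) (by rw [z_succ]; linarith) (by linarith), sub_sub_cancel]
  unfold h
  have h1 := D_lip (Real.log (1 + D')) ((k : ℝ) ^ 2)
  rw [D_sq, sub_zero, abs_of_nonneg (D_nonneg _), ← log_b] at h1
  have h2 : |Real.log (1 + D') - Real.log (1 + b k)| ≤ 1 := by
    rcases le_total D' (b k) with h3 | h3
    · have h4 := log_diff (v := D') (t := b k - D') hD0 (by linarith)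
      rw [add_sub_cancel, abs_sub_comm] at h4
      refine h4.trans ?_
      rw [div_le_one (by linarith)]
      linarith
    · have h4 := log_diff (v := b k) (t := D' - b k) (b_nonneg k) (by linarith)
      rw [add_sub_cancel] at h4
      refine h4.trans ?_
      rw [div_le_one (by linarith [b_nonneg k])]
      linarith
  linarith

theorem H_top (M : ℝ) : ∃ u, 0 < u ∧ ∃ x₀ : ℝ, ∀ y ∈ Set.range z, x₀ ≤ y → M ≤ H (y - u) := by
  obtain ⟨j, hj⟩ := exists_nat_ge (max (4 * M) 1)
  have hj1 : 4 * M ≤ j := (le_max_left _ _).trans hj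
  have hj2 : (1 : ℝ) ≤ j := (le_max_right _ _).trans hj
  have hu : 0 < Real.exp ((j : ℝ) ^ 2 + j) - 1 := by
    have := Real.add_one_le_exp ((j : ℝ) ^ 2 + j)
    nlinarith
  refine ⟨Real.exp ((j : ℝ) ^ 2 + j) - 1, hu, ?_⟩
  obtain ⟨m₁, hm₁⟩ := ex_b (Real.exp ((j : ℝ) ^ 2 + j) - 1)
  refine ⟨z m₁ + 1, ?_⟩
  rintro _ ⟨m, rfl⟩ hm
  have hmm : m₁ < m := by
    by_contra hlt
    have := z_mono (not_lt.mp hlt)
    linarith
  obtain ⟨n, rfl⟩ : ∃ n, m = n + 1 := ⟨m - 1, by omega⟩
  have hb := b_mono (show m₁ ≤ n + 1 by omega)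
  rw [H_blk (m := n) (by rw [z_succ]; linarith) (by linarith), sub_sub_cancel]
  unfold h
  rw [add_sub_cancel, Real.log_exp]
  have := D_mid j
  linarith

/-- the derivative of the Orlicz function -/
noncomputable def a (t : ℝ) : ℝ := t * Real.exp (H (Real.log (max t 1)))

theorem H_cont : Continuous H := by
  have h1 : LipschitzWith 1 H := by
    apply LipschitzWith.of_dist_le_mul
    intro x y
    rw [Real.dist_eq, Real.dist_eq]
    have h2 := H_lip x y
    have h3 := abs_nonneg (x - y)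
    simp only [NNReal.coe_one, one_mul]
    linarith
  exact h1.continuous

theorem a_cont : Continuous a := by
  unfold a
  refine continuous_id.mul (Real.continuous_exp.comp (H_cont.comp ?_))
  exact (continuous_id.max continuous_const).log fun t =>
    (lt_of_lt_of_le one_pos (le_max_right t 1)).ne'

theorem a_eq {t : ℝ} (ht : 0 < t) : a t = t * Real.exp (H (Real.log t)) := by
  unfold a
  rcases le_total t 1 with h1 | h1
  · rw [max_eq_right h1, Real.log_one, H_neg le_rfl, H_neg (Real.log_nonpos ht.le h1)]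
  · rw [max_eq_left h1]

theorem a_nonneg {t : ℝ} (ht : 0 ≤ t) : 0 ≤ a t := mul_nonneg ht (Real.exp_pos _).le

theorem a_mono : MonotoneOn a (Ici 0) := by
  intro s hs t ht hst
  rcases (mem_Ici.mp hs).eq_or_lt with h0 | h0
  · rw [← h0]
    have : a 0 = 0 := by unfold a; rw [zero_mul]
    rw [this]
    exact a_nonneg ht
  · have h1 : 0 < t := h0.trans_le hst
    rw [a_eq h0, a_eq h1]
    have h2 : s * Real.exp (H (Real.log s)) = Real.exp (Real.log s + H (Real.log s)) := by
      rw [Real.exp_add, Real.exp_log h0]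
    have h3 : t * Real.exp (H (Real.log t)) = Real.exp (Real.log t + H (Real.log t)) := by
      rw [Real.exp_add, Real.exp_log h1]
    rw [h2, h3]
    apply Real.exp_le_exp.2
    have h4 := Real.log_le_log h0 hst
    have h5 := H_lip (Real.log s) (Real.log t)
    rw [abs_sub_comm (Real.log s), abs_of_nonneg (show 0 ≤ Real.log t - Real.log s by linarith)]
      at h5
    have h6 := le_abs_self (H (Real.log s) - H (Real.log t))
    linarith

/-- the Orlicz function -/
noncomputable def Ph (s : ℝ) : ℝ := ∫ t in (0 : ℝ)..s, a t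

theorem Ph_deriv (s : ℝ) : HasDerivAt Ph (a s) s :=
  intervalIntegral.integral_hasDerivAt_right (a_cont.intervalIntegrable _ _)
    (a_cont.stronglyMeasurableAtFilter _ _) a_cont.continuousAt

theorem Ph_hi {s : ℝ} (hs : 0 < s) : Ph s ≤ s ^ 2 * Real.exp (H (Real.log s)) := by
  have h1 : Ph s ≤ ∫ _t in (0 : ℝ)..s, a s := by
    refine intervalIntegral.integral_mono_on hs.le (a_cont.intervalIntegrable _ _)
      (continuous_const.intervalIntegrable _ _) fun t ht => ?_
    exact a_mono ht.1 hs.le ht.2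
  rw [intervalIntegral.integral_const, smul_eq_mul, sub_zero, a_eq hs] at h1
  refine h1.trans (le_of_eq ?_)
  ring

theorem Ph_lo {s : ℝ} (hs : 0 < s) : s ^ 2 * Real.exp (H (Real.log s)) ≤ 5 * Ph s := by
  have hs2 : 0 < s / 2 := by positivity
  have h0 : Ph s = (∫ t in (0 : ℝ)..(s / 2), a t) + ∫ t in (s / 2)..s, a t :=
    (intervalIntegral.integral_add_adjacent_intervals (a_cont.intervalIntegrable _ _)
      (a_cont.intervalIntegrable _ _)).symm
  have h1 : 0 ≤ ∫ t in (0 : ℝ)..(s / 2), a t :=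
    intervalIntegral.integral_nonneg hs2.le fun t ht => a_nonneg ht.1
  have h2 : (∫ _t in (s / 2)..s, a (s / 2)) ≤ ∫ t in (s / 2)..s, a t := by
    refine intervalIntegral.integral_mono_on (by linarith)
      (continuous_const.intervalIntegrable _ _) (a_cont.intervalIntegrable _ _) fun t ht => ?_
    exact a_mono hs2.le (hs2.le.trans ht.1) ht.1
  rw [intervalIntegral.integral_const, smul_eq_mul, a_eq hs2] at h2
  have h3 : Real.exp (H (Real.log s)) * (4 / 5) ≤ Real.exp (H (Real.log (s / 2))) := by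
    have e1 := H_lip (Real.log s) (Real.log (s / 2))
    rw [Real.log_div hs.ne' two_ne_zero, sub_sub_cancel,
      abs_of_nonneg (Real.log_nonneg (by norm_num : (1 : ℝ) ≤ 2))] at e1
    have e2 := le_abs_self (H (Real.log s) - H (Real.log s - Real.log 2))
    have e3 := Real.log_two_lt_d9
    rw [Real.log_div hs.ne' two_ne_zero]
    have e4 : Real.exp (H (Real.log s) - 1 / 5) ≤ Real.exp (H (Real.log s - Real.log 2)) :=
      Real.exp_le_exp.2 (by linarith)
    have e5 : Real.exp (H (Real.log s) - 1 / 5) = Real.exp (H (Real.log s)) * Real.exp (-(1 / 5)) := by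
      rw [← Real.exp_add]
      rfl
    have e6 := Real.add_one_le_exp (-(1 / 5 : ℝ))
    rw [e5] at e4
    refine le_trans ?_ e4
    exact mul_le_mul_of_nonneg_left (by linarith) (Real.exp_pos _).le
  have h4 : s ^ 2 / 4 * (Real.exp (H (Real.log s)) * (4 / 5)) ≤
      s ^ 2 / 4 * Real.exp (H (Real.log (s / 2))) := mul_le_mul_of_nonneg_left h3 (by positivity)
  have h5 : (s - s / 2) * (s / 2 * Real.exp (H (Real.log (s / 2)))) =
      s ^ 2 / 4 * Real.exp (H (Real.log (s / 2))) := by ring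
  rw [h5] at h2
  linarith

theorem Ph_orl : IsOrlicz Ph := by
  have hd : Differentiable ℝ Ph := fun s => (Ph_deriv s).differentiableAt
  have hderiv : deriv Ph = a := funext fun s => (Ph_deriv s).deriv
  have hint : interior (Ici (0 : ℝ)) ⊆ Ici 0 := interior_subset
  refine ⟨?_, ?_, hd.continuous.continuousOn, ?_, ?_⟩
  · refine MonotoneOn.convexOn_of_deriv (convex_Ici 0) hd.continuous.continuousOn
      hd.differentiableOn ?_
    rw [hderiv]
    exact a_mono.mono hint
  · refine monotoneOn_of_deriv_nonneg (convex_Ici 0) hd.continuous.continuousOn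
      hd.differentiableOn ?_
    intro x hx
    rw [hderiv]
    exact a_nonneg (hint hx)
  · exact intervalIntegral.integral_same
  · refine ⟨1, zero_le_one, ?_⟩
    have h1 := Ph_lo one_pos
    have h2 : 0 < (1 : ℝ) ^ 2 * Real.exp (H (Real.log 1)) := by positivity
    intro h3
    rw [h3] at h1
    linarith

end PAh

/-- **KO-A.** -/
theorem pA : P_A :=
  ⟨PAh.Ph, PAh.H, Set.range PAh.z, PAh.b,
    { orl := PAh.Ph_orl
      lo := fun _ hs => PAh.Ph_lo hs
      hi := fun _ hs => PAh.Ph_hi hs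
      nonneg := PAh.H_nonneg
      lip := PAh.H_lip
      neg := fun _ hx => PAh.H_neg hx
      zer := by
        rintro _ ⟨m, rfl⟩
        exact PAh.H_z m
      flat := PAh.H_flat
      bpos := PAh.b_nonneg
      scale := fun L => by
        obtain ⟨k₀, h1⟩ := PAh.H_scale L
        refine ⟨k₀, fun k hk => ?_⟩
        obtain ⟨x₀, h2⟩ := h1 k hk
        exact ⟨x₀, fun x hx hz t ht htk => h2 x hx hz t (by exact_mod_cast ht)
          (by exact_mod_cast htk)⟩
      top := PAh.H_top
      unb := fun x => by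
        obtain ⟨m, hm⟩ := PAh.ex_z x
        exact ⟨_, ⟨m, rfl⟩, hm⟩ }⟩

end Pool.Agent.Q88.KO
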