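import Pool.Agent.Q88.KO.PD2

/-!
# Bounded weakly null functions: fourth moments of a subsequence
-/

set_option autoImplicit false

namespace Pool.Agent.Q88.KO

open MeasureTheory Set Filter Topology
open scoped ENNReal

/-- bounded measurable functions -/
def Bm (g : ℝ → ℝ) : Prop := AEStronglyMeasurable g mu ∧ ∃ C : ℝ, 0 ≤ C ∧ ∀ᵐ t ∂mu, |g t| ≤ C

theorem Bm.int {g : ℝ → ℝ} (h : Bm g) : Integrable g mu := by
  obtain ⟨h1, C, _, h2⟩ := h
  exact Integrable.of_bound h1 C (h2.mono fun t ht => by rwa [Real.norm_eq_abs])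

theorem Bm.memLp {g : ℝ → ℝ} (h : Bm g) : MemLp g 2 mu := by
  obtain ⟨h1, C, _, h2⟩ := h
  exact MemLp.of_bound h1 C (h2.mono fun t ht => by rwa [Real.norm_eq_abs])

theorem Bm.add {f g : ℝ → ℝ} (hf : Bm f) (hg : Bm g) : Bm fun t => f t + g t := by
  obtain ⟨h1, C, hC, h2⟩ := hf
  obtain ⟨h3, D, hD, h4⟩ := hg
  refine ⟨h1.add h3, C + D, by positivity, ?_⟩
  filter_upwards [h2, h4] with t h5 h6
  exact (abs_add_le _ _).trans (add_le_add h5 h6)

theorem Bm.mul {f g : ℝ → ℝ} (hf : Bm f) (hg : Bm g) : Bm fun t => f t * g t := by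
  obtain ⟨h1, C, hC, h2⟩ := hf
  obtain ⟨h3, D, hD, h4⟩ := hg
  refine ⟨h1.mul h3, C * D, by positivity, ?_⟩
  filter_upwards [h2, h4] with t h5 h6
  rw [abs_mul]
  exact mul_le_mul h5 h6 (abs_nonneg _) hC

theorem Bm.const (a : ℝ) : Bm fun _ => a :=
  ⟨aestronglyMeasurable_const, |a|, abs_nonneg a, Eventually.of_forall fun _ => le_rfl⟩

theorem Bm.cmul {g : ℝ → ℝ} (a : ℝ) (hg : Bm g) : Bm fun t => a * g t := (Bm.const a).mul hg

theorem Bm.pow {g : ℝ → ℝ} (hg : Bm g) (n : ℕ) : Bm fun t => g t ^ n := by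
  induction n with
  | zero => simpa using Bm.const 1
  | succ n ih =>
    have h := ih.mul hg
    simp only [pow_succ]
    exact h

theorem Bm.sum {f : ℕ → ℝ → ℝ} (hf : ∀ n, Bm (f n)) (s : Finset ℕ) :
    Bm fun t => ∑ i ∈ s, f i t := by
  classical
  induction s using Finset.induction_on with
  | empty => simpa using Bm.const 0
  | insert a s ha ih =>
    simp only [Finset.sum_insert ha]
    exact (hf a).add ih

theorem pD1 : P_D1 := by
  classical
  intro f K₀ hfm hfK₀ hw
  -- `K ≥ 1`
  set K : ℝ := |K₀| + 1 with hK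
  have hK1 : 1 ≤ K := by have := abs_nonneg K₀; linarith
  have hK0 : 0 ≤ K := by linarith
  have hfK : ∀ n, ∀ᵐ t ∂mu, |f n t| ≤ K := fun n => (hfK₀ n).mono fun t ht => by
    have := le_abs_self K₀; linarith
  have hf : ∀ n, Bm (f n) := fun n => ⟨hfm n, K, hK0, hfK n⟩
  obtain ⟨φ, hφ, hP⟩ := exists_sub (P := fun s k n => ∀ p ∈ s ×ˢ (s ×ˢ s),
    |∫ t, f n t * (f p.1 t * (f p.2.1 t * f p.2.2 t)) ∂mu| ≤ (1 / 2) ^ k / ((k : ℝ) + 1) ^ 3) (by
      intro s k
      rw [Filter.eventually_all_finset]
      intro p _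
      have h1 := (hw _ ((hf p.1).mul ((hf p.2.1).mul (hf p.2.2))).memLp).abs
      rw [abs_zero] at h1
      have hpos : (0 : ℝ) < (1 / 2) ^ k / ((k : ℝ) + 1) ^ 3 := by positivity
      exact (h1.eventually (gt_mem_nhds hpos)).mono fun n hn => hn.le)
  set F : ℕ → ℝ → ℝ := fun n => f (φ n) with hF
  have hFb : ∀ n, Bm (F n) := fun n => hf _
  have hFK : ∀ n, ∀ᵐ t ∂mu, |F n t| ≤ K := fun n => hfK _
  have hsmall : ∀ i j l k, i < k → j < k → l < k →
      |∫ t, F k t * (F i t * (F j t * F l t)) ∂mu| ≤ (1 / 2) ^ k / ((k : ℝ) + 1) ^ 3 := by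
    intro i j l k hi hj hl
    have h1 : ∀ i, i < k → φ i ∈ (Finset.range k).image φ := fun i hi =>
      Finset.mem_image_of_mem φ (Finset.mem_range.2 hi)
    exact hP k (φ i, (φ j, φ l)) (Finset.mem_product.2 ⟨h1 i hi,
      Finset.mem_product.2 ⟨h1 j hj, h1 l hl⟩⟩)
  -- the constant
  set D : ℝ := 109 * K ^ 4 + 4 * K ^ 3 + 48 * K ^ 6 with hD
  have hD0 : 0 ≤ D := by positivity
  set B : ℝ := 2 * D + 4 with hB
  have hB0 : 0 < B := by positivity
  -- the induction
  have key : ∀ a : ℕ → ℝ, (∀ k, ∑ i ∈ Finset.range k, a i ^ 2 ≤ 1) → ∀ k,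
      ∫ t, (∑ i ∈ Finset.range k, a i * F i t) ^ 4 ∂mu ≤
        B * (∑ i ∈ Finset.range k, a i ^ 2 + ∑ i ∈ Finset.range k, (1 / 2 : ℝ) ^ i) := by
    intro a ha k
    have ha1 : ∀ i, |a i| ≤ 1 := by
      intro i
      have h1 := ha (i + 1)
      rw [Finset.sum_range_succ] at h1
      have h2 : 0 ≤ ∑ i ∈ Finset.range i, a i ^ 2 := Finset.sum_nonneg fun i _ => sq_nonneg _
      have h3 : a i ^ 2 ≤ 1 := by linarith
      exact abs_le_one_iff_mul_self_le_one.2 (by nlinarith)
    induction k with
    | zero => simp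
    | succ k ih =>
      set S : ℝ → ℝ := fun t => ∑ i ∈ Finset.range k, a i * F i t with hS
      have hSb : Bm S := Bm.sum (fun i => (hFb i).cmul (a i)) _
      set M : ℝ := ∫ t, S t ^ 4 ∂mu with hM
      have hM0 : 0 ≤ M := integral_nonneg fun t => by positivity
      have hM3 : M ≤ 3 * B := by
        have h1 : ∑ i ∈ Finset.range k, (1 / 2 : ℝ) ^ i ≤ 2 := by
          have h2 := (summable_geometric_two).sum_le_tsum (Finset.range k)
            (fun i _ => by positivity)
          rwa [tsum_geometric_two] at h2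
        have h2 := ha k
        calc M ≤ B * (∑ i ∈ Finset.range k, a i ^ 2 + ∑ i ∈ Finset.range k, (1 / 2 : ℝ) ^ i) := ih
          _ ≤ B * (1 + 2) := mul_le_mul_of_nonneg_left (add_le_add h2 h1) hB0.le
          _ = 3 * B := by ring
      -- the expansion
      have hexp : ∫ t, (∑ i ∈ Finset.range (k + 1), a i * F i t) ^ 4 ∂mu =
          M + 4 * a k * (∫ t, S t ^ 3 * F k t ∂mu) + 6 * a k ^ 2 * (∫ t, S t ^ 2 * F k t ^ 2 ∂mu) +
          4 * a k ^ 3 * (∫ t, S t * F k t ^ 3 ∂mu) + a k ^ 4 * ∫ t, F k t ^ 4 ∂mu := by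
        have i0 : Integrable (fun t => S t ^ 4) mu := (hSb.pow 4).int
        have i1 : Integrable (fun t => 4 * a k * (S t ^ 3 * F k t)) mu :=
          (((hSb.pow 3).mul (hFb k)).cmul _).int
        have i2 : Integrable (fun t => 6 * a k ^ 2 * (S t ^ 2 * F k t ^ 2)) mu :=
          (((hSb.pow 2).mul ((hFb k).pow 2)).cmul _).int
        have i3 : Integrable (fun t => 4 * a k ^ 3 * (S t * F k t ^ 3)) mu :=
          ((hSb.mul ((hFb k).pow 3)).cmul _).int
        have i4 : Integrable (fun t => a k ^ 4 * F k t ^ 4) mu := (((hFb k).pow 4).cmul _).int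
        have j1 : Integrable (fun t => S t ^ 4 + 4 * a k * (S t ^ 3 * F k t)) mu := i0.add i1
        have j2 : Integrable (fun t => S t ^ 4 + 4 * a k * (S t ^ 3 * F k t) +
          6 * a k ^ 2 * (S t ^ 2 * F k t ^ 2)) mu := j1.add i2
        have j3 : Integrable (fun t => S t ^ 4 + 4 * a k * (S t ^ 3 * F k t) +
          6 * a k ^ 2 * (S t ^ 2 * F k t ^ 2) + 4 * a k ^ 3 * (S t * F k t ^ 3)) mu := j2.add i3
        rw [← integral_const_mul, ← integral_const_mul, ← integral_const_mul,
          ← integral_const_mul, hM, ← integral_add i0 i1, ← integral_add j1 i2,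
          ← integral_add j2 i3, ← integral_add j3 i4]
        refine integral_congr_ae (Eventually.of_forall fun t => ?_)
        show (∑ i ∈ Finset.range (k + 1), a i * F i t) ^ 4 = _
        rw [Finset.sum_range_succ]
        simp only [hS]
        ring
      -- first term
      have t1 : |∫ t, S t ^ 3 * F k t ∂mu| ≤ (1 / 2) ^ k := by
        have e1 : ∫ t, S t ^ 3 * F k t ∂mu = ∑ i ∈ Finset.range k, ∑ j ∈ Finset.range k,
            ∑ l ∈ Finset.range k, a i * a j * a l * ∫ t, F k t * (F i t * (F j t * F l t)) ∂mu := by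
          have h1 : ∀ t, S t ^ 3 * F k t = ∑ i ∈ Finset.range k, ∑ j ∈ Finset.range k,
              ∑ l ∈ Finset.range k, a i * a j * a l * (F k t * (F i t * (F j t * F l t))) := by
            intro t
            simp only [hS]
            rw [pow_succ, sq, Finset.sum_mul_sum, Finset.sum_mul, Finset.sum_mul]
            refine Finset.sum_congr rfl fun i _ => ?_
            rw [Finset.sum_mul, Finset.sum_mul]
            refine Finset.sum_congr rfl fun j _ => ?_
            rw [Finset.mul_sum, Finset.sum_mul]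
            refine Finset.sum_congr rfl fun l _ => ?_
            ring
          have hI : ∀ i j l, Integrable
              (fun t => a i * a j * a l * (F k t * (F i t * (F j t * F l t)))) mu := fun i j l =>
            (((hFb k).mul ((hFb i).mul ((hFb j).mul (hFb l)))).cmul _).int
          simp only [h1]
          rw [integral_finsetSum _ fun i _ => integrable_finsetSum _ fun j _ =>
            integrable_finsetSum _ fun l _ => hI i j l]
          refine Finset.sum_congr rfl fun i _ => ?_
          rw [integral_finsetSum _ fun j _ => integrable_finsetSum _ fun l _ => hI i j l]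
          refine Finset.sum_congr rfl fun j _ => ?_
          rw [integral_finsetSum _ fun l _ => hI i j l]
          refine Finset.sum_congr rfl fun l _ => ?_
          rw [integral_const_mul]
        rw [e1]
        have e2 : ∀ i ∈ Finset.range k, ∀ j ∈ Finset.range k, ∀ l ∈ Finset.range k,
            |a i * a j * a l * ∫ t, F k t * (F i t * (F j t * F l t)) ∂mu| ≤
              (1 / 2) ^ k / ((k : ℝ) + 1) ^ 3 := by
          intro i hi j hj l hl
          rw [abs_mul, abs_mul, abs_mul]
          have h2 := hsmall i j l k (Finset.mem_range.1 hi) (Finset.mem_range.1 hj)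
            (Finset.mem_range.1 hl)
          have h3 : |a i| * |a j| * |a l| ≤ 1 :=
            mul_le_one₀ (mul_le_one₀ (ha1 i) (abs_nonneg _) (ha1 j)) (abs_nonneg _) (ha1 l)
          calc |a i| * |a j| * |a l| * |∫ t, F k t * (F i t * (F j t * F l t)) ∂mu| ≤
                1 * ((1 / 2) ^ k / ((k : ℝ) + 1) ^ 3) :=
                mul_le_mul h3 h2 (abs_nonneg _) zero_le_one
            _ = _ := one_mul _
        calc |∑ i ∈ Finset.range k, ∑ j ∈ Finset.range k, ∑ l ∈ Finset.range k,
              a i * a j * a l * ∫ t, F k t * (F i t * (F j t * F l t)) ∂mu| ≤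
              ∑ i ∈ Finset.range k, ∑ j ∈ Finset.range k, ∑ l ∈ Finset.range k,
                (1 / 2) ^ k / ((k : ℝ) + 1) ^ 3 := by
                refine (Finset.abs_sum_le_sum_abs _ _).trans (Finset.sum_le_sum fun i hi => ?_)
                refine (Finset.abs_sum_le_sum_abs _ _).trans (Finset.sum_le_sum fun j hj => ?_)
                refine (Finset.abs_sum_le_sum_abs _ _).trans (Finset.sum_le_sum fun l hl => ?_)
                exact e2 i hi j hj l hl
          _ = (k : ℝ) ^ 3 * ((1 / 2) ^ k / ((k : ℝ) + 1) ^ 3) := by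
                simp only [Finset.sum_const, Finset.card_range, nsmul_eq_mul]
                ring
          _ ≤ ((k : ℝ) + 1) ^ 3 * ((1 / 2) ^ k / ((k : ℝ) + 1) ^ 3) := by
                refine mul_le_mul_of_nonneg_right ?_ (by positivity)
                exact pow_le_pow_left₀ (by positivity) (by linarith) 3
          _ = (1 / 2) ^ k := by field_simp
      -- second term
      have t2 : ∫ t, S t ^ 2 * F k t ^ 2 ∂mu ≤ K ^ 2 * ((M / (36 * K ^ 2) + 36 * K ^ 2) / 2) := by
        have h1 : ∫ t, S t ^ 2 * F k t ^ 2 ∂mu ≤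
            ∫ t, K ^ 2 * ((S t ^ 4 / (36 * K ^ 2) + 36 * K ^ 2) / 2) ∂mu := by
          refine integral_mono_ae ((hSb.pow 2).mul ((hFb k).pow 2)).int ?_ ?_
          · have : Bm fun t => K ^ 2 * ((S t ^ 4 / (36 * K ^ 2) + 36 * K ^ 2) / 2) := by
              have h2 := (((hSb.pow 4).cmul (K ^ 2 / (36 * K ^ 2) / 2)).add
                (Bm.const (K ^ 2 * (36 * K ^ 2) / 2)))
              refine ⟨?_, ?_⟩
              · have h3 := h2.1
                refine h3.congr (Eventually.of_forall fun t => ?_)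
                simp only
                ring
              · obtain ⟨C, hC, h4⟩ := h2.2
                refine ⟨C, hC, h4.mono fun t ht => ?_⟩
                refine le_trans (le_of_eq ?_) ht
                congr 1
                ring
            exact this.int
          · filter_upwards [hFK k] with t ht
            have h2 : F k t ^ 2 ≤ K ^ 2 := by
              rw [← sq_abs]
              exact pow_le_pow_left₀ (abs_nonneg _) ht 2
            have h3 : S t ^ 2 ≤ (S t ^ 4 / (36 * K ^ 2) + 36 * K ^ 2) / 2 := by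
              have h4 : 0 < 36 * K ^ 2 := by positivity
              rw [div_add' _ _ _ h4.ne', div_div, le_div_iff₀ (by positivity)]
              nlinarith [sq_nonneg (S t ^ 2 - 36 * K ^ 2)]
            calc S t ^ 2 * F k t ^ 2 ≤ (S t ^ 4 / (36 * K ^ 2) + 36 * K ^ 2) / 2 * K ^ 2 :=
                  mul_le_mul h3 h2 (sq_nonneg _) (by positivity)
              _ = _ := by ring
        refine h1.trans (le_of_eq ?_)
        rw [integral_const_mul]
        congr 1
        rw [integral_div, integral_add ((hSb.pow 4).int.div_const _) (integrable_const _),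
          integral_div, integral_const]
        simp [hM]
      -- third term
      have t3 : |∫ t, S t * F k t ^ 3 ∂mu| ≤
          K ^ 3 * (1 + (M / (24 * K ^ 3) + 24 * K ^ 3) / 2) := by
        have h0 : |∫ t, S t * F k t ^ 3 ∂mu| ≤ ∫ t, |S t * F k t ^ 3| ∂mu :=
          abs_integral_le_integral_abs
        have h1 : ∫ t, |S t * F k t ^ 3| ∂mu ≤
            ∫ t, K ^ 3 * (1 + (S t ^ 4 / (24 * K ^ 3) + 24 * K ^ 3) / 2) ∂mu := by
          refine integral_mono_ae (hSb.mul ((hFb k).pow 3)).int.abs ?_ ?_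
          · have : Bm fun t => K ^ 3 * (1 + (S t ^ 4 / (24 * K ^ 3) + 24 * K ^ 3) / 2) := by
              have h2 := (((hSb.pow 4).cmul (K ^ 3 / (24 * K ^ 3) / 2)).add
                (Bm.const (K ^ 3 * (1 + (24 * K ^ 3) / 2))))
              refine ⟨?_, ?_⟩
              · have h3 := h2.1
                refine h3.congr (Eventually.of_forall fun t => ?_)
                simp only
                ring
              · obtain ⟨C, hC, h4⟩ := h2.2
                refine ⟨C, hC, h4.mono fun t ht => ?_⟩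
                refine le_trans (le_of_eq ?_) ht
                congr 1
                ring
            exact this.int
          · filter_upwards [hFK k] with t ht
            have h2 : |F k t ^ 3| ≤ K ^ 3 := by
              rw [abs_pow]
              exact pow_le_pow_left₀ (abs_nonneg _) ht 3
            have h3 : |S t| ≤ 1 + (S t ^ 4 / (24 * K ^ 3) + 24 * K ^ 3) / 2 := by
              have h4 : 0 < 24 * K ^ 3 := by positivity
              have h5 : S t ^ 2 ≤ (S t ^ 4 / (24 * K ^ 3) + 24 * K ^ 3) / 2 := by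
                rw [div_add' _ _ _ h4.ne', div_div, le_div_iff₀ (by positivity)]
                nlinarith [sq_nonneg (S t ^ 2 - 24 * K ^ 3)]
              have h6 : |S t| ≤ 1 + S t ^ 2 := by
                rw [← sq_abs (S t)]
                nlinarith [abs_nonneg (S t), sq_nonneg (|S t| - 1)]
              linarith
            rw [abs_mul]
            calc |S t| * |F k t ^ 3| ≤ (1 + (S t ^ 4 / (24 * K ^ 3) + 24 * K ^ 3) / 2) * K ^ 3 :=
                  mul_le_mul h3 h2 (abs_nonneg _) (by positivity)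
              _ = _ := by ring
        refine (h0.trans h1).trans (le_of_eq ?_)
        rw [integral_const_mul]
        congr 1
        have j1 : Integrable (fun t => S t ^ 4 / (24 * K ^ 3)) mu := (hSb.pow 4).int.div_const _
        have j2 : Integrable (fun t => S t ^ 4 / (24 * K ^ 3) + 24 * K ^ 3) mu :=
          j1.add (integrable_const _)
        have j3 : Integrable (fun t => (S t ^ 4 / (24 * K ^ 3) + 24 * K ^ 3) / 2) mu :=
          j2.div_const _
        rw [integral_add (integrable_const _) j3, integral_div,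
          integral_add j1 (integrable_const _), integral_div, integral_const, integral_const]
        simp [hM]
      -- fourth term
      have t4 : ∫ t, F k t ^ 4 ∂mu ≤ K ^ 4 := by
        have h1 : ∫ t, F k t ^ 4 ∂mu ≤ ∫ _, K ^ 4 ∂mu := by
          refine integral_mono_ae ((hFb k).pow 4).int (integrable_const _) ?_
          filter_upwards [hFK k] with t ht
          have h2 : F k t ^ 4 = |F k t| ^ 4 := (Even.pow_abs (by decide) _).symm
          rw [h2]
          exact pow_le_pow_left₀ (abs_nonneg _) ht 4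
        rw [integral_const] at h1
        simpa using h1
      -- collect
      have hak0 : 0 ≤ a k ^ 2 := sq_nonneg _
      have hak := ha1 k
      have c1 : 4 * a k * (∫ t, S t ^ 3 * F k t ∂mu) ≤ 4 * (1 / 2) ^ k := by
        have h1 : a k * (∫ t, S t ^ 3 * F k t ∂mu) ≤ 1 * (1 / 2) ^ k := by
          refine (le_abs_self _).trans ?_
          rw [abs_mul]
          exact mul_le_mul hak t1 (abs_nonneg _) zero_le_one
        linarith
      have c2 : 6 * a k ^ 2 * (∫ t, S t ^ 2 * F k t ^ 2 ∂mu) ≤
          a k ^ 2 * (B / 4 + 108 * K ^ 4) := by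
        have h1 : 6 * (∫ t, S t ^ 2 * F k t ^ 2 ∂mu) ≤ B / 4 + 108 * K ^ 4 := by
          refine (mul_le_mul_of_nonneg_left t2 (by norm_num)).trans ?_
          have h2 : 6 * (K ^ 2 * ((M / (36 * K ^ 2) + 36 * K ^ 2) / 2)) = M / 12 + 108 * K ^ 4 := by
            have : K ≠ 0 := by positivity
            field_simp
            ring
          rw [h2]
          linarith
        calc 6 * a k ^ 2 * (∫ t, S t ^ 2 * F k t ^ 2 ∂mu) =
              a k ^ 2 * (6 * ∫ t, S t ^ 2 * F k t ^ 2 ∂mu) := by ring
          _ ≤ _ := mul_le_mul_of_nonneg_left h1 hak0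
      have c3 : 4 * a k ^ 3 * (∫ t, S t * F k t ^ 3 ∂mu) ≤
          a k ^ 2 * (B / 4 + 4 * K ^ 3 + 48 * K ^ 6) := by
        have h1 : 4 * |∫ t, S t * F k t ^ 3 ∂mu| ≤ B / 4 + 4 * K ^ 3 + 48 * K ^ 6 := by
          refine (mul_le_mul_of_nonneg_left t3 (by norm_num)).trans ?_
          have h2 : 4 * (K ^ 3 * (1 + (M / (24 * K ^ 3) + 24 * K ^ 3) / 2)) =
              M / 12 + 4 * K ^ 3 + 48 * K ^ 6 := by
            have : K ≠ 0 := by positivity
            field_simp
            ring
          rw [h2]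
          linarith
        have h3 : a k * (∫ t, S t * F k t ^ 3 ∂mu) ≤ 1 * |∫ t, S t * F k t ^ 3 ∂mu| := by
          refine (le_abs_self _).trans ?_
          rw [abs_mul]
          exact mul_le_mul_of_nonneg_right hak (abs_nonneg _)
        calc 4 * a k ^ 3 * (∫ t, S t * F k t ^ 3 ∂mu) =
              a k ^ 2 * (4 * (a k * ∫ t, S t * F k t ^ 3 ∂mu)) := by ring
          _ ≤ a k ^ 2 * (B / 4 + 4 * K ^ 3 + 48 * K ^ 6) :=
              mul_le_mul_of_nonneg_left (by linarith) hak0
      have c4 : a k ^ 4 * (∫ t, F k t ^ 4 ∂mu) ≤ a k ^ 2 * K ^ 4 := by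
        have h1 : a k ^ 4 ≤ a k ^ 2 := by
          have h2 : a k ^ 2 ≤ 1 := by
            rw [← sq_abs]
            exact pow_le_one₀ (abs_nonneg _) hak
          nlinarith
        have h2 : 0 ≤ ∫ t, F k t ^ 4 ∂mu := integral_nonneg fun t => by positivity
        exact mul_le_mul h1 t4 h2 hak0
      rw [hexp, Finset.sum_range_succ (fun i => a i ^ 2), Finset.sum_range_succ (fun i => (1 / 2 : ℝ) ^ i)]
      have hB4 : 4 * (1 / 2 : ℝ) ^ k ≤ B * (1 / 2) ^ k :=
        mul_le_mul_of_nonneg_right (by linarith) (by positivity)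
      have hBa : a k ^ 2 * (B / 4 + 108 * K ^ 4) + a k ^ 2 * (B / 4 + 4 * K ^ 3 + 48 * K ^ 6) +
          a k ^ 2 * K ^ 4 ≤ B * a k ^ 2 := by
        have e : a k ^ 2 * (B / 4 + 108 * K ^ 4) + a k ^ 2 * (B / 4 + 4 * K ^ 3 + 48 * K ^ 6) +
          a k ^ 2 * K ^ 4 = a k ^ 2 * (B / 2 + D) := by rw [hD]; ring
        rw [e, mul_comm B]
        exact mul_le_mul_of_nonneg_left (by linarith) hak0
      have ih' : M ≤ B * (∑ i ∈ Finset.range k, a i ^ 2 +
        ∑ i ∈ Finset.range k, (1 / 2 : ℝ) ^ i) := ih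
      nlinarith
  -- conclusion
  have key2 : ∀ (s : Finset ℕ) (a : ℕ → ℝ), ∑ i ∈ s, a i ^ 2 ≤ 1 →
      ∫ t, (∑ i ∈ s, a i * F i t) ^ 4 ∂mu ≤ 3 * B := by
    intro s a ha
    set b : ℕ → ℝ := fun i => if i ∈ s then a i else 0 with hb
    obtain ⟨k, hk⟩ : ∃ k, s ⊆ Finset.range k := ⟨s.sup id + 1, fun i hi =>
      Finset.mem_range.2 (Nat.lt_succ_of_le (Finset.le_sup (f := id) hi))⟩
    have h1 : ∀ j, ∑ i ∈ Finset.range j, b i ^ 2 ≤ 1 := by
      intro j
      refine le_trans ?_ ha
      have e : ∀ i, b i ^ 2 = if i ∈ s then a i ^ 2 else 0 := by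
        intro i
        simp only [hb]
        split_ifs <;> simp
      simp only [e]
      rw [← Finset.sum_filter]
      refine Finset.sum_le_sum_of_subset_of_nonneg ?_ fun i _ _ => sq_nonneg _
      intro i hi
      exact (Finset.mem_filter.1 hi).2
    have h2 := key b h1 k
    have h3 : ∀ t, ∑ i ∈ Finset.range k, b i * F i t = ∑ i ∈ s, a i * F i t := by
      intro t
      rw [← Finset.sum_subset hk]
      · refine Finset.sum_congr rfl fun i hi => ?_
        simp only [hb]
        rw [if_pos hi]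
      · intro i _ hi
        simp only [hb]
        rw [if_neg hi, zero_mul]
    simp only [h3] at h2
    have h4 : ∑ i ∈ Finset.range k, (1 / 2 : ℝ) ^ i ≤ 2 := by
      have h2 := (summable_geometric_two).sum_le_tsum (Finset.range k)
        (fun i _ => by positivity)
      rwa [tsum_geometric_two] at h2
    calc ∫ t, (∑ i ∈ s, a i * F i t) ^ 4 ∂mu ≤ B * (∑ i ∈ Finset.range k, b i ^ 2 +
          ∑ i ∈ Finset.range k, (1 / 2 : ℝ) ^ i) := h2
      _ ≤ B * (1 + 2) := mul_le_mul_of_nonneg_left (add_le_add (h1 k) h4) hB0.le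
      _ = 3 * B := by ring
  refine ⟨φ, 3 * B, hφ, by positivity, fun s a => ?_⟩
  set A : ℝ := ∑ i ∈ s, a i ^ 2 with hA
  have hA0 : 0 ≤ A := Finset.sum_nonneg fun i _ => sq_nonneg _
  rcases hA0.eq_or_lt with h0 | h0
  · have h1 : ∀ i ∈ s, a i = 0 := fun i hi => by
      have := (Finset.sum_eq_zero_iff_of_nonneg fun i _ => sq_nonneg (a i)).1 h0.symm i hi
      exact pow_eq_zero_iff (by norm_num : (2:ℕ) ≠ 0) |>.1 this
    have h2 : ∀ t, ∑ i ∈ s, a i * f (φ i) t = 0 := fun t =>
      Finset.sum_eq_zero fun i hi => by rw [h1 i hi, zero_mul]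
    simp only [h2]
    rw [← h0]
    simp
  · have h1 := key2 s (fun i => a i / √A) (by
      simp only [div_pow, Real.sq_sqrt hA0]
      rw [← Finset.sum_div, ← hA, div_self h0.ne'])
    have h2 : ∀ t, ∑ i ∈ s, a i / √A * F i t = (∑ i ∈ s, a i * f (φ i) t) / √A := by
      intro t
      rw [Finset.sum_div]
      refine Finset.sum_congr rfl fun i _ => ?_
      simp only [hF]
      ring
    simp only [h2, div_pow] at h1
    rw [integral_div, div_le_iff₀ (by positivity)] at h1
    have h3 : √A ^ 4 = A ^ 2 := by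
      have : √A ^ 4 = (√A ^ 2) ^ 2 := by ring
      rw [this, Real.sq_sqrt hA0]
    rwa [h3] at h1

end Pool.Agent.Q88.KO
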