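import Pool.Agent.Q88.KO.Stm

/-!
# Almost orthogonal subsequences; operators which are not strictly singular
-/

set_option autoImplicit false

namespace Pool.Agent.Q88.KO

open MeasureTheory Set Filter Topology
open scoped ENNReal

/-- a subsequence with a property of each term relative to the previous ones -/
theorem exists_sub {P : (Finset ℕ) → ℕ → ℕ → Prop} (h : ∀ (s : Finset ℕ) (k : ℕ),
    ∀ᶠ n in atTop, P s k n) : ∃ φ : ℕ → ℕ, StrictMono φ ∧
      ∀ k, P ((Finset.range k).image φ) k (φ k) := by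
  classical
  have h1 : ∀ (s : Finset ℕ) (k : ℕ), ∃ n, (∀ m ∈ s, m < n) ∧ P s k n := by
    intro s k
    have h2 : ∀ᶠ n in atTop, ∀ m ∈ s, m < n := by
      rw [Filter.eventually_all_finset]
      exact fun m _ => eventually_gt_atTop m
    exact (h2.and (h s k)).exists
  choose g hg1 hg2 using h1
  -- the finite sets
  let F : ℕ → Finset ℕ := fun k => Nat.rec ∅ (fun k s => insert (g s k) s) k
  have hF0 : F 0 = ∅ := rfl
  have hFs : ∀ k, F (k + 1) = insert (g (F k) k) (F k) := fun k => rfl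
  set φ : ℕ → ℕ := fun k => g (F k) k with hφ
  have hFφ : ∀ k, F k = (Finset.range k).image φ := by
    intro k
    induction k with
    | zero => simp [hF0]
    | succ k ih => rw [hFs, Finset.range_add_one, Finset.image_insert, ← ih]
  refine ⟨φ, strictMono_nat_of_lt_succ fun k => ?_, fun k => ?_⟩
  · have h2 : φ k ∈ F (k + 1) := by
      rw [hFs]
      exact Finset.mem_insert_self _ _
    exact hg1 (F (k + 1)) (k + 1) _ h2
  · rw [← hFφ]
    exact hg2 (F k) k

theorem int_mul {f g : ℝ → ℝ} (hf : MemLp f 2 mu) (hg : MemLp g 2 mu) :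
    Integrable (fun t => f t * g t) mu := hf.integrable_mul hg

theorem pD2 : P_D2 := by
  classical
  intro y hy hw δ hδ h
  obtain ⟨φ, hφ, hP⟩ := exists_sub (P := fun s k n => ∀ m ∈ s,
    |∫ t, y n t * y m t ∂mu| ≤ δ / 16 * (1 / 4) ^ k) (by
      intro s k
      rw [Filter.eventually_all_finset]
      intro m _
      have h1 := (hw (y m) (hy m)).abs
      rw [abs_zero] at h1
      exact (h1.eventually (gt_mem_nhds (show 0 < δ / 16 * (1 / 4) ^ k by positivity))).mono
        fun n hn => hn.le)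
  have hsmall : ∀ i k, i < k → |∫ t, y (φ i) t * y (φ k) t ∂mu| ≤ δ / 16 * (1 / 4) ^ k := by
    intro i k hik
    have h1 := hP k (φ i) (Finset.mem_image_of_mem φ (Finset.mem_range.2 hik))
    have h2 : (fun t => y (φ i) t * y (φ k) t) = fun t => y (φ k) t * y (φ i) t := by
      funext t; ring
    rw [h2]
    exact h1
  have hsmall' : ∀ i k, i ≠ k → |∫ t, y (φ i) t * y (φ k) t ∂mu| ≤
      δ / 16 * ((1 / 2) ^ i * (1 / 2) ^ k) := by
    have key : ∀ i k, i < k → |∫ t, y (φ i) t * y (φ k) t ∂mu| ≤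
        δ / 16 * ((1 / 2) ^ i * (1 / 2) ^ k) := by
      intro i k hik
      refine (hsmall i k hik).trans (mul_le_mul_of_nonneg_left ?_ (by positivity))
      have e : (1 / 4 : ℝ) ^ k = (1 / 2) ^ k * (1 / 2) ^ k := by
        rw [← mul_pow]; norm_num
      rw [e]
      exact mul_le_mul_of_nonneg_right
        (pow_le_pow_of_le_one (by norm_num) (by norm_num) hik.le) (by positivity)
    intro i k hik
    rcases lt_or_gt_of_ne hik with h1 | h1
    · exact key i k h1
    · have h2 := key k i h1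
      have h3 : (fun t => y (φ i) t * y (φ k) t) = fun t => y (φ k) t * y (φ i) t := by
        funext t; ring
      rw [h3, mul_comm ((1 / 2 : ℝ) ^ i)]
      exact h2
  refine ⟨φ, δ / 2, hφ, by positivity, fun s a => ?_⟩
  -- expand
  have hexp : ∫ t, (∑ i ∈ s, a i * y (φ i) t) ^ 2 ∂mu =
      ∑ i ∈ s, ∑ k ∈ s, a i * a k * ∫ t, y (φ i) t * y (φ k) t ∂mu := by
    have h1 : ∀ t, (∑ i ∈ s, a i * y (φ i) t) ^ 2 =
        ∑ i ∈ s, ∑ k ∈ s, a i * a k * (y (φ i) t * y (φ k) t) := by
      intro t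
      rw [sq, Finset.sum_mul_sum]
      refine Finset.sum_congr rfl fun i _ => Finset.sum_congr rfl fun k _ => ?_
      ring
    simp only [h1]
    rw [integral_finsetSum]
    · refine Finset.sum_congr rfl fun i _ => ?_
      rw [integral_finsetSum]
      · refine Finset.sum_congr rfl fun k _ => ?_
        rw [integral_const_mul]
      · exact fun k _ => (int_mul (hy _) (hy _)).const_mul _
    · exact fun i _ => integrable_finsetSum _ fun k _ => (int_mul (hy _) (hy _)).const_mul _
  rw [hexp]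
  have hterm : ∀ i ∈ s, ∀ k ∈ s, (if i = k then a i ^ 2 * δ else 0) -
      |a i| * |a k| * (δ / 16 * ((1 / 2) ^ i * (1 / 2) ^ k)) ≤
      a i * a k * ∫ t, y (φ i) t * y (φ k) t ∂mu := by
    intro i _ k _
    by_cases hik : i = k
    · subst hik
      rw [if_pos rfl]
      have h1 := h (φ i)
      have h2 : (fun t => y (φ i) t * y (φ i) t) = fun t => y (φ i) t ^ 2 := by
        funext t; ring
      rw [h2]
      have h3 : 0 ≤ |a i| * |a i| * (δ / 16 * ((1 / 2) ^ i * (1 / 2) ^ i)) := by positivity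
      nlinarith [mul_le_mul_of_nonneg_left h1 (sq_nonneg (a i))]
    · rw [if_neg hik, zero_sub]
      have h1 : |a i * a k * ∫ t, y (φ i) t * y (φ k) t ∂mu| ≤
          |a i| * |a k| * (δ / 16 * ((1 / 2) ^ i * (1 / 2) ^ k)) := by
        rw [abs_mul, abs_mul]
        exact mul_le_mul_of_nonneg_left (hsmall' i k hik) (by positivity)
      exact (neg_le_neg h1).trans (neg_abs_le _)
  have hsum := Finset.sum_le_sum fun i hi => Finset.sum_le_sum fun k hk => hterm i hi k hk
  refine le_trans ?_ hsum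
  simp only [Finset.sum_sub_distrib]
  have e1 : ∑ i ∈ s, ∑ k ∈ s, (if i = k then a i ^ 2 * δ else 0) = δ * ∑ i ∈ s, a i ^ 2 := by
    rw [Finset.mul_sum]
    refine Finset.sum_congr rfl fun i hi => ?_
    rw [Finset.sum_ite_eq, if_pos hi, mul_comm]
  have e2 : ∑ i ∈ s, ∑ k ∈ s, |a i| * |a k| * (δ / 16 * ((1 / 2) ^ i * (1 / 2) ^ k)) =
      δ / 16 * (∑ i ∈ s, |a i| * (1 / 2) ^ i) ^ 2 := by
    rw [sq, Finset.sum_mul_sum, Finset.mul_sum]
    refine Finset.sum_congr rfl fun i _ => ?_
    rw [Finset.mul_sum]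
    refine Finset.sum_congr rfl fun k _ => ?_
    ring
  have e3 : (∑ i ∈ s, |a i| * (1 / 2) ^ i) ^ 2 ≤ (∑ i ∈ s, a i ^ 2) * 2 := by
    refine (Finset.sum_mul_sq_le_sq_mul_sq s _ _).trans ?_
    simp only [sq_abs]
    refine mul_le_mul_of_nonneg_left ?_ (Finset.sum_nonneg fun i _ => sq_nonneg _)
    have h1 : ∀ i ∈ s, ((1 / 2 : ℝ) ^ i) ^ 2 ≤ (1 / 2) ^ i := by
      intro i _
      have h2 : (0:ℝ) ≤ (1 / 2) ^ i := by positivity
      have h3 : ((1 / 2 : ℝ)) ^ i ≤ 1 := pow_le_one₀ (by norm_num) (by norm_num)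
      nlinarith
    refine (Finset.sum_le_sum h1).trans ?_
    have h2 := (summable_geometric_two).sum_le_tsum s (fun i _ => by positivity)
    rw [tsum_geometric_two] at h2
    exact h2
  rw [e1, e2]
  have h5 : 0 ≤ ∑ i ∈ s, a i ^ 2 := Finset.sum_nonneg fun i _ => sq_nonneg _
  nlinarith [mul_le_mul_of_nonneg_left e3 (show 0 ≤ δ / 16 by positivity)]

theorem pSS : P_SS := by
  classical
  rintro E _ _ T g ⟨C, hC, hup⟩ ⟨κ, hκ, hlow⟩ hss
  have hT : ∀ (s : Finset ℕ) (a : ℕ → ℝ), T (∑ i ∈ s, a i • g i) = ∑ i ∈ s, a i • T (g i) := by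
    intro s a
    rw [map_sum]
    exact Finset.sum_congr rfl fun i _ => map_smul T _ _
  refine hss (Submodule.span ℝ (Set.range g)).topologicalClosure
    (Submodule.isClosed_topologicalClosure _) ?_ ⟨κ / C, by positivity, ?_⟩
  · intro hfd
    have hli : LinearIndependent ℝ g := by
      rw [linearIndependent_iff']
      intro s a h0 i hi
      have h1 := hlow s a
      rw [← hT, h0, map_zero, norm_zero] at h1
      have h2 : √(∑ i ∈ s, a i ^ 2) ≤ 0 := by
        by_contra hcon
        push Not at hcon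
        have := mul_pos hκ hcon
        linarith
      have h3 := (Real.sqrt_eq_zero (Finset.sum_nonneg fun i _ => sq_nonneg (a i))).1
        (le_antisymm h2 (Real.sqrt_nonneg _))
      have h4 := (Finset.sum_eq_zero_iff_of_nonneg fun i _ => sq_nonneg (a i)).1 h3 i hi
      exact pow_eq_zero_iff (by norm_num : (2:ℕ) ≠ 0) |>.1 h4
    let G : ℕ → (Submodule.span ℝ (Set.range g)).topologicalClosure := fun n =>
      ⟨g n, Submodule.le_topologicalClosure _ (Submodule.subset_span ⟨n, rfl⟩)⟩
    have hG : LinearIndependent ℝ G := by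
      refine LinearIndependent.of_comp (Submodule.subtype _) ?_
      exact hli
    have := hG.finite
    exact not_finite ℕ
  · intro x hx
    have hcl : IsClosed {x : E | κ / C * ‖x‖ ≤ ‖T x‖} :=
      isClosed_le (by fun_prop) (by fun_prop)
    have hsub : (Submodule.span ℝ (Set.range g) : Set E) ⊆ {x : E | κ / C * ‖x‖ ≤ ‖T x‖} := by
      intro x hx
      obtain ⟨l, rfl⟩ := (Finsupp.mem_span_range_iff_exists_finsupp).1 hx
      show κ / C * ‖l.sum fun i a => a • g i‖ ≤ ‖T (l.sum fun i a => a • g i)‖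
      unfold Finsupp.sum
      rw [hT]
      have h1 := hup l.support l
      have h2 := hlow l.support l
      calc κ / C * ‖∑ i ∈ l.support, l i • g i‖ ≤ κ / C * (C * √(∑ i ∈ l.support, l i ^ 2)) :=
            mul_le_mul_of_nonneg_left h1 (by positivity)
        _ = κ * √(∑ i ∈ l.support, l i ^ 2) := by field_simp
        _ ≤ _ := h2
    have h1 : x ∈ closure (Submodule.span ℝ (Set.range g) : Set E) := hx
    exact closure_minimal hsub hcl h1

end Pool.Agent.Q88.KO
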