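import Pool.Agent.Q88.KO.Stm

/-!
# Almost disjoint subsequences
-/

set_option autoImplicit false

namespace Pool.Agent.Q88.KO

open MeasureTheory Set Filter Topology
open scoped ENNReal

theorem D3x_tsum_half (β : ℝ) (hβ : 0 ≤ β) :
    ∑' j : ℕ, ENNReal.ofReal (β * (1 / 2) ^ (j + 1)) = ENNReal.ofReal β := by
  have h1 : HasSum (fun j : ℕ => β * (1 / 2 : ℝ) ^ (j + 1)) β := by
    have h2 := (hasSum_geometric_two.mul_left (β * (1 / 2)))
    have h3 : β * (1 / 2) * 2 = β := by ring
    rw [h3] at h2
    have h4 : (fun j : ℕ => β * (1 / 2 : ℝ) ^ (j + 1)) = fun j => β * (1 / 2) * (1 / 2) ^ j :=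
      funext fun j => by ring
    rw [h4]
    exact h2
  rw [← ENNReal.ofReal_tsum_of_nonneg (fun j => by positivity) h1.summable, h1.tsum_eq]

theorem pD3 (hB : DictB) : P_D3 := by
  intro c d hd ε hε
  let A : ℕ → Set ℝ := fun n => {t | c.J (d n) t ≠ 0}
  have hA : ∀ n, MeasurableSet (A n) := by
    intro n
    have h1 : Measurable (c.J (d n) : ℝ → ℝ) := (c.J (d n)).measurable
    exact (measurableSet_eq_fun h1 measurable_const).compl
  choose! η hη1 hη2 using hB.N8 c
  have hstep : ∀ (k n : ℕ) (β : ℝ), 0 < β → ∃ n', n < n' ∧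
      mu (A n') ≤ ENNReal.ofReal (β * (1 / 2) ^ (k + 1)) := by
    intro k n β hβ
    obtain ⟨m, h1, h2⟩ := ((hd (β * (1 / 2) ^ (k + 1)) (by positivity)).and
      (eventually_gt_atTop n)).exists
    exact ⟨m, h2, h1⟩
  choose! g hg1 hg2 using hstep
  let p : ℕ → ℕ × ℝ := fun k => Nat.rec (0, η (d 0) (ε 0))
    (fun k q => (g k q.1 q.2, min q.2 (η (d (g k q.1 q.2)) (ε (k + 1))))) k
  have hp1 : ∀ k, (p (k + 1)).1 = g k (p k).1 (p k).2 := fun k => rfl
  have hp2 : ∀ k, (p (k + 1)).2 = min (p k).2 (η (d (p (k + 1)).1) (ε (k + 1))) := fun k => rfl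
  have hpos : ∀ k, 0 < (p k).2 := by
    intro k
    induction k with
    | zero => exact hη1 _ _ (hε 0)
    | succ k ih =>
      rw [hp2]
      exact lt_min ih (hη1 _ _ (hε _))
  have hle : ∀ k, (p k).2 ≤ η (d (p k).1) (ε k) := by
    intro k
    cases k with
    | zero => exact le_rfl
    | succ k =>
      rw [hp2]
      exact min_le_right _ _
  have hanti : Antitone fun k => (p k).2 := by
    refine antitone_nat_of_succ_le fun k => ?_
    rw [hp2]
    exact min_le_left _ _
  have hmeas : ∀ k, mu (A (p (k + 1)).1) ≤ ENNReal.ofReal ((p k).2 * (1 / 2) ^ (k + 1)) := by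
    intro k
    rw [hp1]
    exact hg2 k _ _ (hpos k)
  have hmono : StrictMono fun k => (p k).1 := by
    refine strictMono_nat_of_lt_succ fun k => ?_
    rw [hp1]
    exact hg1 k _ _ (hpos k)
  let B : ℕ → Set ℝ := fun k => ⋃ j : ℕ, A (p (k + j + 1)).1
  have hBm : ∀ k, MeasurableSet (B k) := fun k => MeasurableSet.iUnion fun j => hA _
  have hBs : ∀ k, mu (B k) ≤ ENNReal.ofReal (η (d (p k).1) (ε k)) := by
    intro k
    calc mu (B k) ≤ ∑' j : ℕ, mu (A (p (k + j + 1)).1) := measure_iUnion_le _
      _ ≤ ∑' j : ℕ, ENNReal.ofReal ((p k).2 * (1 / 2) ^ (j + 1)) := by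
          refine ENNReal.tsum_le_tsum fun j => (hmeas (k + j)).trans ?_
          refine ENNReal.ofReal_le_ofReal ?_
          refine mul_le_mul (hanti (Nat.le_add_right k j)) ?_ (by positivity) (hpos k).le
          exact pow_le_pow_of_le_one (by norm_num) (by norm_num) (by omega)
      _ = ENNReal.ofReal (p k).2 := D3x_tsum_half _ (hpos k).le
      _ ≤ _ := ENNReal.ofReal_le_ofReal (hle k)
  choose d' hd' using fun k => hB.N6 c (d (p k).1) (B k)ᶜ (hBm k).compl
  refine ⟨fun k => (p k).1, d', hmono, ?_, ?_, ?_⟩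
  · intro k
    refine hη2 (d (p k).1) (ε k) (hε k) (B k) (hBm k) (hBs k) _ ?_
    unfold Res
    rw [map_sub]
    have h1 := hd' k
    unfold Res at h1
    filter_upwards [AEEqFun.coeFn_sub (c.J (d (p k).1)) (c.J (d' k)), h1] with t h2 h3
    rw [h2, Pi.sub_apply, h3]
    by_cases ht : t ∈ B k
    · rw [indicator_of_mem ht, indicator_of_notMem (show t ∉ (B k)ᶜ from fun h => h ht), sub_zero]
    · rw [indicator_of_notMem ht, indicator_of_mem (show t ∈ (B k)ᶜ from ht), sub_self]
  · have key : ∀ m n, m < n → Dj c.J (d' m) (d' n) := by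
      intro m n hmn
      unfold Dj
      have h1 := hd' m
      have h2 := hd' n
      unfold Res at h1 h2
      filter_upwards [h1, h2] with t h3 h4
      by_cases ht : t ∈ A (p n).1
      · left
        rw [h3]
        have hB' : t ∈ B m := by
          refine mem_iUnion.mpr ⟨n - m - 1, ?_⟩
          have : m + (n - m - 1) + 1 = n := by omega
          rw [this]
          exact ht
        exact indicator_of_notMem (show t ∉ (B m)ᶜ from fun h => h hB') _
      · right
        have h5 : c.J (d (p n).1) t = 0 := not_not.mp ht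
        rw [h4]
        by_cases h6 : t ∈ (B n)ᶜ
        · rw [indicator_of_mem h6, h5]
        · rw [indicator_of_notMem h6]
    intro m n hmn
    rcases lt_or_gt_of_ne hmn with h | h
    · exact key m n h
    · have := key n m h
      unfold Dj at this ⊢
      filter_upwards [this] with t ht
      exact ht.symm
  · intro k
    have h1 := hd' k
    unfold Res at h1
    filter_upwards [h1] with t h2
    rw [h2]
    by_cases h6 : t ∈ (B k)ᶜ
    · rw [indicator_of_mem h6]
    · rw [indicator_of_notMem h6, abs_zero]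
      exact abs_nonneg _

end Pool.Agent.Q88.KO
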