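import Pool.Agent.Q88.KO.DB

/-!
# Flat blocks
-/

set_option autoImplicit false

namespace Pool.Agent.Q88.KO

open MeasureTheory Set Filter Topology
open scoped ENNReal

namespace FBx

open DAx

theorem exp_le_four : Real.exp (5 / 4) ≤ 4 := by
  have h1 : Real.exp (5 / 4) = Real.exp 1 * Real.exp (1 / 4) := by
    rw [← Real.exp_add]
    norm_num
  have h2 := Real.exp_one_lt_d9
  have h3 : Real.exp (1 / 4) ≤ 4 / 3 := by
    have h4 := Real.add_one_le_exp (-(1 / 4) : ℝ)
    rw [Real.exp_neg] at h4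
    have h5 : 0 < Real.exp (1 / 4) := Real.exp_pos _
    have h6 : (3 / 4 : ℝ) ≤ (Real.exp (1 / 4))⁻¹ := by linarith
    have h7 : (3 / 4 : ℝ) * Real.exp (1 / 4) ≤ 1 := by
      calc (3 / 4 : ℝ) * Real.exp (1 / 4) ≤ (Real.exp (1 / 4))⁻¹ * Real.exp (1 / 4) :=
            mul_le_mul_of_nonneg_right h6 h5.le
        _ = 1 := inv_mul_cancel₀ h5.ne'
    linarith
  rw [h1]
  nlinarith [Real.exp_pos (1 / 4), Real.exp_pos 1]

/-- an upper estimate at the scale `β k` -/
theorem star (c : Cx) (h : ℕ → c.E) (hN : (∃ L : ℝ, Nr c L h) ∨ Far c h) :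
    ∃ (β : ℕ → ℝ) (N : ℕ → ℕ), (∀ k, 0 ≤ β k) ∧ ∀ k n, N k ≤ n → ∀ᵐ t ∂mu, ∀ α : ℝ,
      Real.exp (-(k : ℝ)) ≤ α → α ≤ 1 →
      c.Φ (α * Real.exp (-β k) * |c.J (h n) t|) ≤
        20 * (α * Real.exp (-β k)) ^ 2 * c.Φ |c.J (h n) t| := by
  -- the estimate at one point
  have key : ∀ (β x : ℝ) (α : ℝ), 0 < α → c.H (x - β + Real.log α) ≤ c.H x + 5 / 4 →
      ∀ s : ℝ, 0 < s → Real.log s = x → c.Φ (α * Real.exp (-β) * s) ≤
        20 * (α * Real.exp (-β)) ^ 2 * c.Φ s := by
    intro β x α hα hH s hs hx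
    have h0 : 0 < α * Real.exp (-β) * s := by positivity
    have h1 := c.prof.hi _ h0
    have h2 : Real.log (α * Real.exp (-β) * s) = x - β + Real.log α := by
      rw [Real.log_mul (by positivity) hs.ne', Real.log_mul hα.ne' (Real.exp_pos _).ne',
        Real.log_exp, hx]
      ring
    rw [h2] at h1
    have h3 := c.prof.lo s hs
    rw [hx] at h3
    have h4 : Real.exp (c.H (x - β + Real.log α)) ≤ 4 * Real.exp (c.H x) := by
      calc Real.exp (c.H (x - β + Real.log α)) ≤ Real.exp (c.H x + 5 / 4) := Real.exp_le_exp.2 hH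
        _ = Real.exp (5 / 4) * Real.exp (c.H x) := by rw [Real.exp_add, mul_comm]
        _ ≤ _ := mul_le_mul_of_nonneg_right exp_le_four (Real.exp_pos _).le
    calc c.Φ (α * Real.exp (-β) * s) ≤
          (α * Real.exp (-β) * s) ^ 2 * Real.exp (c.H (x - β + Real.log α)) := h1
      _ ≤ (α * Real.exp (-β) * s) ^ 2 * (4 * Real.exp (c.H x)) :=
          mul_le_mul_of_nonneg_left h4 (by positivity)
      _ = 4 * (α * Real.exp (-β)) ^ 2 * (s ^ 2 * Real.exp (c.H x)) := by ring
      _ ≤ 4 * (α * Real.exp (-β)) ^ 2 * (5 * c.Φ s) :=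
          mul_le_mul_of_nonneg_left h3 (by positivity)
      _ = _ := by ring
  have hzero : ∀ (β α : ℝ), c.Φ (α * Real.exp (-β) * |(0:ℝ)|) ≤
      20 * (α * Real.exp (-β)) ^ 2 * c.Φ |(0:ℝ)| := by
    intro β α
    rw [abs_zero, mul_zero, c.prof.orl.zero, mul_zero]
  rcases hN with ⟨L, hN⟩ | hN
  · obtain ⟨k₀, hk₀⟩ := c.prof.scale L
    choose x₀ hx₀ using fun k : ℕ => hk₀ (k₀ + k) (Nat.le_add_right _ _)
    refine ⟨fun k => c.b (k₀ + k), fun k => ⌈x₀ k⌉₊, fun k => c.prof.bpos _, fun k n hn => ?_⟩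
    filter_upwards [hN n] with t ht α hα1 hα2
    by_cases h0 : c.J (h n) t = 0
    · rw [h0]
      exact hzero _ _
    · obtain ⟨h1, h2⟩ := ht h0
      have hα : 0 < α := lt_of_lt_of_le (Real.exp_pos _) hα1
      have hlog1 : Real.log α ≤ 0 := Real.log_nonpos hα.le hα2
      have hlog2 : -(k : ℝ) ≤ Real.log α := by
        rw [← Real.log_exp (-(k : ℝ))]
        exact Real.log_le_log (Real.exp_pos _) hα1
      have h3 : x₀ k ≤ Real.log |c.J (h n) t| :=
        (Nat.le_ceil _).trans ((by exact_mod_cast hn : ((⌈x₀ k⌉₊ : ℕ) : ℝ) ≤ n).trans h1)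
      have hfl : ⌊-Real.log α⌋₊ ≤ k₀ + k := by
        have h5 : ⌊-Real.log α⌋₊ ≤ k := Nat.floor_le_of_le (by linarith)
        omega
      have h4 := hx₀ k _ h3 h2 ⌊-Real.log α⌋₊ (Nat.zero_le _) hfl
      refine key _ _ α hα ?_ _ (abs_pos.2 h0) rfl
      have h5 := c.prof.nonneg (Real.log |c.J (h n) t|)
      have h6 := c.prof.lip (Real.log |c.J (h n) t| - c.b (k₀ + k) + Real.log α)
        (Real.log |c.J (h n) t| - c.b (k₀ + k) - (⌊-Real.log α⌋₊ : ℝ))
      have e : Real.log |c.J (h n) t| - c.b (k₀ + k) + Real.log α -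
        (Real.log |c.J (h n) t| - c.b (k₀ + k) - (⌊-Real.log α⌋₊ : ℝ)) =
        (⌊-Real.log α⌋₊ : ℝ) - -Real.log α := by ring
      have h7 := Nat.floor_le (show 0 ≤ -Real.log α by linarith)
      have h8 := (Nat.lt_floor_add_one (-Real.log α)).le
      rw [e] at h6
      have h9 : |(⌊-Real.log α⌋₊ : ℝ) - -Real.log α| ≤ 1 := by
        rw [abs_le]
        constructor <;> linarith
      have h10 := (abs_le.1 h6).2
      linarith
  · choose L hL using fun k : ℕ => c.prof.flat (c.b k + k)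
    refine ⟨c.b, fun k => ⌈L k⌉₊, c.prof.bpos, fun k n hn => ?_⟩
    filter_upwards [hN n] with t ht α hα1 hα2
    by_cases h0 : c.J (h n) t = 0
    · rw [h0]
      exact hzero _ _
    · obtain ⟨h1, h2⟩ := ht h0
      have hα : 0 < α := lt_of_lt_of_le (Real.exp_pos _) hα1
      have hlog1 : Real.log α ≤ 0 := Real.log_nonpos hα.le hα2
      have hlog2 : -(k : ℝ) ≤ Real.log α := by
        rw [← Real.log_exp (-(k : ℝ))]
        exact Real.log_le_log (Real.exp_pos _) hα1
      have h3 : L k ≤ n := (Nat.le_ceil _).trans (by exact_mod_cast hn)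
      have h4 := hL k (Real.log |c.J (h n) t|) (fun z hz => h3.trans (h2 z hz))
        (c.b k - Real.log α) (by have := c.prof.bpos k; linarith) (by linarith)
      refine key _ _ α hα ?_ _ (abs_pos.2 h0) rfl
      have e : Real.log |c.J (h n) t| - (c.b k - Real.log α) =
        Real.log |c.J (h n) t| - c.b k + Real.log α := by ring
      rw [e, abs_le] at h4
      linarith [h4.2]

end FBx

theorem pFB (hA : DictA) : P_FB := by
  classical
  intro c h B hb hd hN
  obtain ⟨β, N, hβ, hst⟩ := FBx.star c h hN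
  obtain ⟨C₁, hC₁⟩ := hA.N1 c B
  set C : ℝ := |C₁| + 1 with hC
  have hC0 : 0 < C := by positivity
  have hmd : ∀ n, md c (h n) ≤ ENNReal.ofReal C := fun n =>
    (hC₁ _ (hb n)).trans (ENNReal.ofReal_le_ofReal (by have := le_abs_self C₁; linarith))
  -- the blocks
  let M : ℕ → ℕ := fun k => ⌈Real.exp (2 * β k)⌉₊
  let st : ℕ → ℕ := fun k => Nat.rec (N 0) (fun k r => max (N (k + 1)) (r + M k)) k
  have hst0 : st 0 = N 0 := rfl
  have hsts : ∀ k, st (k + 1) = max (N (k + 1)) (st k + M k) := fun k => rfl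
  have hstN : ∀ k, N k ≤ st k := by
    intro k
    rcases k with _ | k
    · exact le_rfl
    · rw [hsts]
      exact le_max_left _ _
  have hstM : ∀ k, st k + M k ≤ st (k + 1) := fun k => by
    rw [hsts]
    exact le_max_right _ _
  have hmono : Monotone st := monotone_nat_of_le_succ fun k => (Nat.le_add_right _ _).trans (hstM k)
  let S : ℕ → Finset ℕ := fun k => Finset.Ico (st k) (st k + M k)
  have hScard : ∀ k, (S k).card = M k := fun k => by simp [S]
  have hdis : ∀ m n, m < n → Disjoint (S m) (S n) := by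
    intro m n hmn
    rw [Finset.disjoint_left]
    intro i h1 h2
    have h3 := (Finset.mem_Ico.1 h1).2
    have h4 := (Finset.mem_Ico.1 h2).1
    have h5 : st (m + 1) ≤ st n := hmono hmn
    have h6 := hstM m
    omega
  have hS : ∀ m n, m ≠ n → Disjoint (S m) (S n) := by
    intro m n hmn
    rcases lt_or_gt_of_ne hmn with h1 | h1
    · exact hdis m n h1
    · exact (hdis n m h1).symm
  have hSN : ∀ k, ∀ n ∈ S k, N k ≤ n := fun k n hn => (hstN k).trans (Finset.mem_Ico.1 hn).1
  set τ : ℕ → ℝ := fun k => Real.exp (-β k) with hτ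
  have hτ0 : ∀ k, 0 < τ k := fun k => Real.exp_pos _
  have hτM : ∀ k, τ k ^ 2 * Real.exp (2 * β k) = 1 := by
    intro k
    simp only [hτ]
    rw [← Real.exp_nat_mul, ← Real.exp_add]
    have : ((2 : ℕ) : ℝ) * -β k + 2 * β k = 0 := by push_cast; ring
    rw [this, Real.exp_zero]
  have hM1 : ∀ k, 1 ≤ τ k ^ 2 * (M k : ℝ) := by
    intro k
    rw [← hτM k]
    exact mul_le_mul_of_nonneg_left (Nat.le_ceil _) (by positivity)
  have hM2 : ∀ k, τ k ^ 2 * (M k : ℝ) ≤ 2 := by
    intro k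
    have h1 : (M k : ℝ) ≤ 2 * Real.exp (2 * β k) := by
      have h2 := (Nat.ceil_lt_add_one (Real.exp_pos (2 * β k)).le).le
      have h3 : 1 ≤ Real.exp (2 * β k) := Real.one_le_exp (by have := hβ k; linarith)
      have h4 : (M k : ℝ) ≤ Real.exp (2 * β k) + 1 := h2
      linarith
    calc τ k ^ 2 * (M k : ℝ) ≤ τ k ^ 2 * (2 * Real.exp (2 * β k)) :=
          mul_le_mul_of_nonneg_left h1 (by positivity)
      _ = 2 := by linarith [hτM k]
  refine ⟨S, τ, hS, hτ0, fun k => by rw [hScard]; exact hM1 k, ?_⟩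
  -- the estimate of one term
  have hterm : ∀ k, ∀ n ∈ S k, ∀ a : ℝ, |a| ≤ 1 →
      md c ((a * τ k) • h n) ≤ ENNReal.ofReal (20 * (a ^ 2 + Real.exp (-(2 * k : ℝ))) * τ k ^ 2 * C) := by
    intro k n hn a ha
    set α : ℝ := max |a| (Real.exp (-(k : ℝ))) with hα
    have hα1 : Real.exp (-(k : ℝ)) ≤ α := le_max_right _ _
    have hα2 : α ≤ 1 := max_le ha (by
      rw [Real.exp_le_one_iff]
      have := Nat.cast_nonneg (α := ℝ) k
      linarith)
    have hα0 : 0 < α := lt_of_lt_of_le (Real.exp_pos _) hα1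
    have hα3 : α ^ 2 ≤ a ^ 2 + Real.exp (-(2 * k : ℝ)) := by
      have e : Real.exp (-(2 * k : ℝ)) = Real.exp (-(k : ℝ)) ^ 2 := by
        rw [← Real.exp_nat_mul]
        congr 1
        push_cast
        ring
      rw [e, hα]
      rcases le_total |a| (Real.exp (-(k : ℝ))) with h1 | h1
      · rw [max_eq_right h1]
        nlinarith [sq_nonneg a]
      · rw [max_eq_left h1, sq_abs]
        nlinarith [sq_nonneg (Real.exp (-(k : ℝ)))]
    have h1 : md c ((a * τ k) • h n) ≤ ENNReal.ofReal (20 * (α * τ k) ^ 2) * md c (h n) := by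
      refine DAx.rho_le c.Φ (by positivity) ?_
      rw [map_smul]
      filter_upwards [AEEqFun.coeFn_smul (a * τ k) (c.J (h n)), hst k n (hSN k n hn)] with t h2 h3
      rw [h2, Pi.smul_apply, smul_eq_mul, abs_mul, abs_mul, abs_of_pos (hτ0 k)]
      refine le_trans ?_ (h3 α hα1 hα2)
      refine c.prof.orl.mono (mem_Ici.2 (by positivity)) (mem_Ici.2 (by positivity)) ?_
      refine mul_le_mul_of_nonneg_right ?_ (abs_nonneg _)
      exact mul_le_mul_of_nonneg_right (le_max_left _ _) (hτ0 k).le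
    refine h1.trans ?_
    calc ENNReal.ofReal (20 * (α * τ k) ^ 2) * md c (h n) ≤
          ENNReal.ofReal (20 * (α * τ k) ^ 2) * ENNReal.ofReal C := by
          gcongr
          exact hmd n
      _ = ENNReal.ofReal (20 * (α * τ k) ^ 2 * C) := (ENNReal.ofReal_mul (by positivity)).symm
      _ ≤ _ := by
          refine ENNReal.ofReal_le_ofReal ?_
          have e : 20 * (α * τ k) ^ 2 * C = 20 * α ^ 2 * τ k ^ 2 * C := by ring
          rw [e]
          gcongr
  -- the normalised estimate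
  obtain ⟨D, hD⟩ := hA.N2 c (120 * C)
  have hnorm : ∀ (s : Finset ℕ) (a : ℕ → ℝ), ∑ k ∈ s, a k ^ 2 ≤ 1 →
      ‖∑ k ∈ s, a k • (τ k • ∑ n ∈ S k, h n)‖ ≤ D := by
    intro s a ha
    have ha1 : ∀ k ∈ s, |a k| ≤ 1 := by
      intro k hk
      have h1 : a k ^ 2 ≤ 1 :=
        (Finset.single_le_sum (f := fun k => a k ^ 2) (fun i _ => sq_nonneg _) hk).trans ha
      exact abs_le_one_iff_mul_self_le_one.2 (by nlinarith)
    let b : ℕ → ℝ := fun n => if hn : ∃ k, n ∈ S k then a hn.choose * τ hn.choose else 0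
    have hb1 : ∀ k n, n ∈ S k → b n = a k * τ k := by
      intro k n hn
      have hn' : ∃ k, n ∈ S k := ⟨k, hn⟩
      have e : hn'.choose = k := by
        by_contra hne
        exact (Finset.disjoint_left.1 (hS _ _ hne)) hn'.choose_spec hn
      simp only [b]
      rw [dif_pos hn', e]
    have hdis' : Set.PairwiseDisjoint (↑s : Set ℕ) S := fun m _ n _ hmn => hS m n hmn
    have hsum1 : ∑ k ∈ s, a k • (τ k • ∑ n ∈ S k, h n) = ∑ n ∈ s.biUnion S, b n • h n := by
      rw [Finset.sum_biUnion hdis']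
      refine Finset.sum_congr rfl fun k _ => ?_
      rw [Finset.smul_sum, Finset.smul_sum]
      refine Finset.sum_congr rfl fun n hn => ?_
      rw [hb1 k n hn, smul_smul]
    refine hD _ ?_
    have hdj : ∀ m n, m ≠ n → Dj c.J (b m • h m) (b n • h n) := by
      intro m n hmn
      have h1 := hd m n hmn
      unfold Dj at h1 ⊢
      rw [map_smul, map_smul]
      filter_upwards [h1, AEEqFun.coeFn_smul (b m) (c.J (h m)),
        AEEqFun.coeFn_smul (b n) (c.J (h n))] with t h2 h3 h4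
      rw [h3, h4, Pi.smul_apply, Pi.smul_apply]
      rcases h2 with h2 | h2
      · left; rw [h2, smul_zero]
      · right; rw [h2, smul_zero]
    rw [hsum1, hA.add c _ (fun n => b n • h n) hdj, Finset.sum_biUnion hdis']
    have hk : ∀ k ∈ s, ∑ n ∈ S k, md c (b n • h n) ≤
        ENNReal.ofReal (40 * C * (a k ^ 2 + Real.exp (-(2 * k : ℝ)))) := by
      intro k hks
      calc ∑ n ∈ S k, md c (b n • h n) ≤ ∑ n ∈ S k,
            ENNReal.ofReal (20 * (a k ^ 2 + Real.exp (-(2 * k : ℝ))) * τ k ^ 2 * C) := by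
            refine Finset.sum_le_sum fun n hn => ?_
            rw [hb1 k n hn]
            exact hterm k n hn (a k) (ha1 k hks)
        _ = ENNReal.ofReal ((M k : ℝ) * (20 * (a k ^ 2 + Real.exp (-(2 * k : ℝ))) * τ k ^ 2 * C)) := by
            rw [Finset.sum_const, hScard, nsmul_eq_mul, ← ENNReal.ofReal_natCast,
              ← ENNReal.ofReal_mul (by positivity)]
        _ ≤ _ := by
            refine ENNReal.ofReal_le_ofReal ?_
            have e : (M k : ℝ) * (20 * (a k ^ 2 + Real.exp (-(2 * k : ℝ))) * τ k ^ 2 * C) =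
              20 * C * (a k ^ 2 + Real.exp (-(2 * k : ℝ))) * (τ k ^ 2 * (M k : ℝ)) := by ring
            rw [e]
            calc 20 * C * (a k ^ 2 + Real.exp (-(2 * k : ℝ))) * (τ k ^ 2 * (M k : ℝ)) ≤
                  20 * C * (a k ^ 2 + Real.exp (-(2 * k : ℝ))) * 2 := by
                  gcongr
                  exact hM2 k
              _ = _ := by ring
    refine (Finset.sum_le_sum hk).trans ?_
    rw [← ENNReal.ofReal_sum_of_nonneg fun k _ => by positivity]
    refine ENNReal.ofReal_le_ofReal ?_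
    rw [← Finset.mul_sum, Finset.sum_add_distrib]
    have hgeo : ∑ k ∈ s, Real.exp (-(2 * k : ℝ)) ≤ 2 := by
      have e : ∀ k : ℕ, Real.exp (-(2 * k : ℝ)) ≤ (1 / 2 : ℝ) ^ k := by
        intro k
        have h1 : Real.exp (-(2 * k : ℝ)) = Real.exp (-2) ^ k := by
          rw [← Real.exp_nat_mul]
          congr 1
          ring
        rw [h1]
        refine pow_le_pow_left₀ (Real.exp_pos _).le ?_ k
        rw [Real.exp_neg, one_div]
        refine inv_anti₀ (by norm_num) ?_
        have := Real.add_one_le_exp (2:ℝ)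
        linarith
      refine (Finset.sum_le_sum fun k _ => e k).trans ?_
      have h2 := (summable_geometric_two).sum_le_tsum s (fun i _ => by positivity)
      rwa [tsum_geometric_two] at h2
    nlinarith
  -- homogeneity
  refine ⟨|D| + 1, by positivity, fun s a => ?_⟩
  set A : ℝ := ∑ k ∈ s, a k ^ 2 with hA'
  have hA0 : 0 ≤ A := Finset.sum_nonneg fun i _ => sq_nonneg _
  rcases hA0.eq_or_lt with h0 | h0
  · have h1 : ∀ i ∈ s, a i = 0 := fun i hi => by
      have := (Finset.sum_eq_zero_iff_of_nonneg fun i _ => sq_nonneg (a i)).1 h0.symm i hi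
      exact pow_eq_zero_iff (by norm_num : (2:ℕ) ≠ 0) |>.1 this
    rw [Finset.sum_eq_zero fun i hi => by rw [h1 i hi, zero_smul], norm_zero]
    positivity
  · have hs : 0 < √A := Real.sqrt_pos.2 h0
    have h1 := hnorm s (fun k => a k / √A) (by
      simp only [div_pow, Real.sq_sqrt hA0]
      rw [← Finset.sum_div, ← hA', div_self h0.ne'])
    have h2 : ∑ k ∈ s, (a k / √A) • (τ k • ∑ n ∈ S k, h n) =
        (√A)⁻¹ • ∑ k ∈ s, a k • (τ k • ∑ n ∈ S k, h n) := by
      rw [Finset.smul_sum]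
      refine Finset.sum_congr rfl fun k _ => ?_
      rw [div_eq_inv_mul, mul_smul]
    rw [h2, norm_smul, norm_inv, Real.norm_eq_abs, abs_of_pos hs, inv_mul_le_iff₀ hs] at h1
    refine h1.trans ?_
    rw [mul_comm]
    refine mul_le_mul_of_nonneg_right ?_ hs.le
    have := le_abs_self D
    linarith

end Pool.Agent.Q88.KO
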