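import Pool.Agent.Q88.KO.DB

/-!
# Not 2-DH
-/

set_option autoImplicit false

namespace Pool.Agent.Q88.KO

open MeasureTheory Set Filter Topology
open scoped ENNReal

theorem pG (hA : DictA) (hB : DictB) : P_G := by
  classical
  intro c hDH
  -- the heights
  choose z hzZ hz using fun m : ℕ => c.prof.unb ((m : ℝ) + 2)
  set s : ℕ → ℝ := fun m => Real.exp (z m) with hs
  have hs0 : ∀ m, 0 < s m := fun m => Real.exp_pos _
  have hls : ∀ m, Real.log (s m) = z m := fun m => Real.log_exp _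
  have hΦ : ∀ m : ℕ, (2:ℝ) ^ (m + 1) ≤ c.Φ (s m) := by
    intro m
    have h1 := DBx.sq_le c (hs0 m).le
    have h2 : 5 * (2:ℝ) ^ (m + 1) ≤ s m ^ 2 := by
      have e1 : s m ^ 2 = Real.exp (2 * z m) := by
        simp only [hs]
        rw [← Real.exp_nat_mul]
        congr 1
      have e2 : Real.exp (2 * ((m : ℝ) + 2)) ≤ Real.exp (2 * z m) :=
        Real.exp_le_exp.2 (by linarith [hz m])
      have e3 : Real.exp (2 * ((m : ℝ) + 2)) = Real.exp 1 ^ (2 * m + 4) := by
        rw [← Real.exp_nat_mul]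
        congr 1
        push_cast
        ring
      have e4 : (2 : ℝ) ≤ Real.exp 1 := by
        have := Real.add_one_le_exp (1:ℝ); linarith
      have e5 : (2 : ℝ) ^ (2 * m + 4) ≤ Real.exp 1 ^ (2 * m + 4) :=
        pow_le_pow_left₀ (by norm_num) e4 _
      have e6 : 5 * (2:ℝ) ^ (m + 1) ≤ 2 ^ (2 * m + 4) := by
        have e7 : (2:ℝ) ^ (2 * m + 4) = 2 ^ m * (2 ^ (m + 1) * 8) := by ring
        rw [e7]
        have e8 : (1:ℝ) ≤ 2 ^ m := one_le_pow₀ (by norm_num)
        have e9 : (0:ℝ) < 2 ^ (m + 1) := by positivity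
        nlinarith
      rw [e1]
      linarith
    linarith
  have hΦ0 : ∀ m, 0 < c.Φ (s m) := fun m => lt_of_lt_of_le (by positivity) (hΦ m)
  set w : ℕ → ℝ := fun m => 1 / c.Φ (s m) with hw
  have hw0 : ∀ m, 0 < w m := fun m => by
    have := hΦ0 m
    positivity
  have hw1 : ∀ m : ℕ, w m ≤ (1 / 2) ^ (m + 1) := by
    intro m
    simp only [hw]
    rw [one_div_pow]
    exact one_div_le_one_div_of_le (by positivity) (hΦ m)
  -- the sets
  set A : ℕ → Set ℝ := fun m => Ico ((1 / 2 : ℝ) ^ (m + 1)) ((1 / 2) ^ (m + 1) + w m) with hAdef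
  have hAm : ∀ m, MeasurableSet (A m) := fun m => measurableSet_Ico
  have hAsub : ∀ m, A m ⊆ Icc 0 1 := by
    intro m t ht
    have h1 : (1 / 2 : ℝ) ^ (m + 1) + (1 / 2) ^ (m + 1) = (1 / 2) ^ m := by
      rw [pow_succ]; ring
    have h2 : (1 / 2 : ℝ) ^ m ≤ 1 := pow_le_one₀ (by norm_num) (by norm_num)
    have h3 : (0:ℝ) < (1 / 2) ^ (m + 1) := by positivity
    have h4 := hw1 m
    exact ⟨h3.le.trans ht.1, by linarith [ht.2]⟩
  have hmuA : ∀ m, mu (A m) = ENNReal.ofReal (w m) := by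
    intro m
    unfold mu
    rw [Measure.restrict_apply (hAm m), inter_eq_left.2 (hAsub m)]
    simp only [hAdef]
    rw [Real.volume_Ico, add_sub_cancel_left]
  have hdisj : ∀ m n, m < n → Disjoint (A m) (A n) := by
    intro m n hmn
    rw [Set.disjoint_left]
    intro t h1 h2
    have h3 : t < (1 / 2 : ℝ) ^ (n + 1) + (1 / 2) ^ (n + 1) := by
      have := hw1 n
      linarith [h2.2]
    have h4 : (1 / 2 : ℝ) ^ (n + 1) + (1 / 2) ^ (n + 1) = (1 / 2) ^ n := by
      rw [pow_succ]; ring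
    have h5 : (1 / 2 : ℝ) ^ n ≤ (1 / 2) ^ (m + 1) :=
      pow_le_pow_of_le_one (by norm_num) (by norm_num) hmn
    linarith [h1.1]
  -- the functions
  set f : ℕ → ℝ → ℝ := fun m => (A m).indicator fun _ => s m with hf
  have hfm : ∀ m, AEStronglyMeasurable (f m) mu := fun m =>
    (aestronglyMeasurable_const).indicator (hAm m)
  have hfb : ∀ m, ∀ᵐ t ∂mu, |f m t| ≤ s m := fun m => Eventually.of_forall fun t => by
    simp only [hf]
    by_cases ht : t ∈ A m
    · rw [indicator_of_mem ht, abs_of_pos (hs0 m)]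
    · rw [indicator_of_notMem ht, abs_zero]
      exact (hs0 m).le
  choose x hx using fun m => hB.N11 c (f m) (s m) (hfm m) (hfb m)
  -- the modular of multiples
  have hrho : ∀ (m : ℕ) (a : ℝ), 0 ≤ a → rho c.Φ (fun t => a * c.J (x m) t) =
      ENNReal.ofReal (c.Φ (a * s m) * w m) := by
    intro m a ha
    unfold rho
    have h1 : ∫⁻ t, ENNReal.ofReal (c.Φ |a * c.J (x m) t|) ∂mu =
        ∫⁻ t, (A m).indicator (fun _ => ENNReal.ofReal (c.Φ (a * s m))) t ∂mu := by
      refine lintegral_congr_ae ?_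
      filter_upwards [hx m] with t ht
      rw [ht]
      simp only [hf]
      by_cases htA : t ∈ A m
      · rw [indicator_of_mem htA, indicator_of_mem htA,
          abs_of_nonneg (mul_nonneg ha (hs0 m).le)]
      · rw [indicator_of_notMem htA, indicator_of_notMem htA, mul_zero, abs_zero,
          c.prof.orl.zero, ENNReal.ofReal_zero]
    rw [h1, lintegral_indicator (hAm m), setLIntegral_const, hmuA,
      ← ENNReal.ofReal_mul (DAx.Phi_nonneg c (mul_nonneg ha (hs0 m).le))]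
  -- normalised
  have hnorm : ∀ m, ‖x m‖ = 1 := by
    intro m
    refine le_antisymm ?_ ?_
    · refine DAx.norm_le_of c one_pos ?_
      have h1 : (fun t => c.J (x m) t / 1) = fun t => 1 * c.J (x m) t := by
        funext t; ring
      rw [h1, hrho m 1 zero_le_one, one_mul, ← ENNReal.ofReal_one]
      refine ENNReal.ofReal_le_ofReal ?_
      simp only [hw]
      rw [mul_one_div, div_self (hΦ0 m).ne']
    · rw [c.orl.norm]
      refine le_csInf (DAx.nonempty c _) ?_
      rintro r ⟨hr, h1⟩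
      by_contra hcon
      push Not at hcon
      have h2 : (fun t => c.J (x m) t / r) = fun t => r⁻¹ * c.J (x m) t := by
        funext t; rw [div_eq_inv_mul]
      rw [h2, hrho m r⁻¹ (inv_pos.2 hr).le, ← ENNReal.ofReal_one,
        ENNReal.ofReal_le_ofReal_iff zero_le_one] at h1
      -- convexity
      have h3 := c.prof.orl.convex.2 (x := r⁻¹ * s m) (y := 0)
        (mem_Ici.2 (by have := hs0 m; positivity)) (mem_Ici.2 le_rfl) hr.le
        (show 0 ≤ 1 - r by linarith) (by ring)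
      simp only [smul_eq_mul, mul_zero, add_zero, c.prof.orl.zero] at h3
      rw [← mul_assoc, mul_inv_cancel₀ hr.ne', one_mul] at h3
      have h4 : c.Φ (r⁻¹ * s m) ≤ c.Φ (s m) := by
        simp only [hw] at h1
        rw [mul_one_div, div_le_one (hΦ0 m)] at h1
        exact h1
      have h5 := hΦ0 m
      nlinarith
  have hdj : ∀ m n, m ≠ n → Dj c.J (x m) (x n) := by
    intro m n hmn
    unfold Dj
    filter_upwards [hx m, hx n] with t h1 h2
    rw [h1, h2]
    simp only [hf]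
    by_cases htm : t ∈ A m
    · right
      refine indicator_of_notMem (fun htn => ?_) _
      rcases lt_or_gt_of_ne hmn with h | h
      · exact Set.disjoint_left.1 (hdisj m n h) htm htn
      · exact Set.disjoint_left.1 (hdisj n m h) htn htm
    · left
      exact indicator_of_notMem htm _
  obtain ⟨φ, hφ, C, hC, hell⟩ := hDH x hnorm hdj
  obtain ⟨C₁, hC₁⟩ := hA.N1 c C
  -- contradiction
  obtain ⟨u, hu, x₀, htop⟩ := c.prof.top (10 * (|C₁| + 1))
  set t₀ : ℝ := Real.exp (-u) with ht₀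
  have ht0 : 0 < t₀ := Real.exp_pos _
  have ht2 : t₀ ^ 2 * Real.exp (2 * u) = 1 := by
    rw [ht₀, ← Real.exp_nat_mul, ← Real.exp_add]
    have : ((2 : ℕ) : ℝ) * -u + 2 * u = 0 := by push_cast; ring
    rw [this, Real.exp_zero]
  set N : ℕ := ⌊Real.exp (2 * u)⌋₊ with hN
  have hN1 : (N : ℝ) ≤ Real.exp (2 * u) := Nat.floor_le (Real.exp_pos _).le
  have hN2 : Real.exp (2 * u) / 2 ≤ N := by
    have h1 := (Nat.lt_floor_add_one (Real.exp (2 * u))).le
    have h2 : 1 ≤ Real.exp (2 * u) := Real.one_le_exp (by linarith)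
    have h3 : (1:ℝ) ≤ N := by
      have : 1 ≤ N := Nat.le_floor (by exact_mod_cast h2)
      exact_mod_cast this
    have h4 : Real.exp (2 * u) ≤ (N : ℝ) + 1 := h1
    linarith
  set K : ℕ := ⌈x₀⌉₊ with hK
  set S : Finset ℕ := Finset.Ico K (K + N) with hS
  have hcard : (S.card : ℝ) = N := by simp [hS]
  have hSx : ∀ k ∈ S, x₀ ≤ z (φ k) := by
    intro k hk
    have h1 : K ≤ k := (Finset.mem_Ico.1 hk).1
    have h2 : (K : ℝ) ≤ k := by exact_mod_cast h1
    have h3 : (k : ℝ) ≤ φ k := by exact_mod_cast hφ.id_le k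
    have h4 := hz (φ k)
    have h5 := Nat.le_ceil x₀
    linarith
  have hup := (hell S fun _ => t₀).2
  rw [Finset.sum_const, nsmul_eq_mul, hcard] at hup
  have hup' : ‖∑ k ∈ S, t₀ • x (φ k)‖ ≤ C := by
    refine hup.trans ?_
    have h1 : √((N : ℝ) * t₀ ^ 2) ≤ 1 := by
      have h0 : (N : ℝ) * t₀ ^ 2 ≤ 1 := by
        nlinarith [mul_le_mul_of_nonneg_left hN1 (sq_nonneg t₀)]
      calc √((N : ℝ) * t₀ ^ 2) ≤ √1 := Real.sqrt_le_sqrt h0
        _ = 1 := Real.sqrt_one
    nlinarith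
  have hmd := hC₁ _ hup'
  have hdj' : ∀ m n, m ≠ n → Dj c.J (t₀ • x (φ m)) (t₀ • x (φ n)) := by
    intro m n hmn
    have h1 := hdj (φ m) (φ n) fun he => hmn (hφ.injective he)
    unfold Dj at h1 ⊢
    rw [map_smul, map_smul]
    filter_upwards [h1, AEEqFun.coeFn_smul t₀ (c.J (x (φ m))),
      AEEqFun.coeFn_smul t₀ (c.J (x (φ n)))] with t h2 h3 h4
    rw [h3, h4, Pi.smul_apply, Pi.smul_apply]
    rcases h2 with h2 | h2
    · left; rw [h2, smul_zero]
    · right; rw [h2, smul_zero]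
  rw [hA.add c S (fun k => t₀ • x (φ k)) hdj'] at hmd
  have hlow : ∀ k ∈ S, ENNReal.ofReal (t₀ ^ 2 * Real.exp (10 * (|C₁| + 1)) / 5) ≤
      md c (t₀ • x (φ k)) := by
    intro k hk
    have h1 : md c (t₀ • x (φ k)) = rho c.Φ (fun t => t₀ * c.J (x (φ k)) t) := by
      unfold md rho
      rw [map_smul]
      refine lintegral_congr_ae ?_
      filter_upwards [AEEqFun.coeFn_smul t₀ (c.J (x (φ k)))] with t ht
      rw [ht, Pi.smul_apply, smul_eq_mul]
    rw [h1, hrho _ _ ht0.le]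
    refine ENNReal.ofReal_le_ofReal ?_
    have h2 := c.prof.lo (t₀ * s (φ k)) (mul_pos ht0 (hs0 _))
    have h3 : Real.log (t₀ * s (φ k)) = z (φ k) - u := by
      rw [Real.log_mul ht0.ne' (hs0 _).ne', hls, ht₀, Real.log_exp]
      ring
    rw [h3] at h2
    have h4 := htop _ (hzZ (φ k)) (hSx k hk)
    have h5 := c.prof.hi (s (φ k)) (hs0 _)
    rw [hls, c.prof.zer _ (hzZ _), Real.exp_zero, mul_one] at h5
    have h6 := hΦ0 (φ k)
    have h7 : (t₀ * s (φ k)) ^ 2 * Real.exp (10 * (|C₁| + 1)) ≤ 5 * c.Φ (t₀ * s (φ k)) :=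
      (mul_le_mul_of_nonneg_left (Real.exp_le_exp.2 h4) (by positivity)).trans h2
    simp only [hw]
    rw [mul_one_div, div_le_div_iff₀ (by norm_num) h6]
    calc t₀ ^ 2 * Real.exp (10 * (|C₁| + 1)) * c.Φ (s (φ k)) ≤
          t₀ ^ 2 * Real.exp (10 * (|C₁| + 1)) * s (φ k) ^ 2 :=
          mul_le_mul_of_nonneg_left h5 (by positivity)
      _ = (t₀ * s (φ k)) ^ 2 * Real.exp (10 * (|C₁| + 1)) := by ring
      _ ≤ 5 * c.Φ (t₀ * s (φ k)) := h7
      _ = _ := by ring
  have hsum := (Finset.sum_le_sum hlow).trans hmd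
  rw [Finset.sum_const, nsmul_eq_mul] at hsum
  have h8 : ((S.card : ℕ) : ℝ≥0∞) = ENNReal.ofReal (N : ℝ) := by
    rw [← hcard, ENNReal.ofReal_natCast]
  rw [h8, ← ENNReal.ofReal_mul (by positivity)] at hsum
  have hsum2 : ENNReal.ofReal ((N : ℝ) * (t₀ ^ 2 * Real.exp (10 * (|C₁| + 1)) / 5)) ≤
      ENNReal.ofReal |C₁| := hsum.trans (ENNReal.ofReal_le_ofReal (le_abs_self _))
  rw [ENNReal.ofReal_le_ofReal_iff (abs_nonneg _)] at hsum2
  have h9 : 1 / 2 ≤ (N : ℝ) * t₀ ^ 2 := by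
    have := mul_le_mul_of_nonneg_left hN2 (sq_nonneg t₀)
    nlinarith
  have h10 := Real.add_one_le_exp (10 * (|C₁| + 1))
  have h11 := abs_nonneg C₁
  have h12 : 1 / 2 * (Real.exp (10 * (|C₁| + 1)) / 5) ≤
      (N : ℝ) * (t₀ ^ 2 * Real.exp (10 * (|C₁| + 1)) / 5) := by
    have e : (N : ℝ) * (t₀ ^ 2 * Real.exp (10 * (|C₁| + 1)) / 5) =
      ((N : ℝ) * t₀ ^ 2) * (Real.exp (10 * (|C₁| + 1)) / 5) := by ring
    rw [e]
    exact mul_le_mul_of_nonneg_right h9 (by positivity)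
  linarith

end Pool.Agent.Q88.KO
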