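import Pool.Agent.Q88.KO.Stm

/-!
# Sequences from an operator which is not compact
-/

set_option autoImplicit false

namespace Pool.Agent.Q88.KO

open MeasureTheory Set Filter Topology
open scoped ENNReal

namespace PNCh

/-- separated sequences -/
theorem exists_sep {α β : Type} [PseudoMetricSpace β] (T : α → β) (P : α → Prop)
    (h : ¬ TotallyBounded (T '' {x | P x})) :
    ∃ (δ : ℝ) (f : ℕ → α), 0 < δ ∧ (∀ n, P (f n)) ∧
      ∀ m n, m < n → δ ≤ dist (T (f m)) (T (f n)) := by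
  rw [Metric.totallyBounded_iff] at h
  push Not at h
  obtain ⟨δ, hδ, h⟩ := h
  obtain ⟨f, h1, h2⟩ := exists_seq_of_forall_finset_exists P
    (fun x y => δ ≤ dist (T x) (T y)) (by
      intro s _
      by_contra hcon
      push Not at hcon
      apply h (T '' (s : Set α)) (s.finite_toSet.image T)
      rintro _ ⟨y, hy, rfl⟩
      obtain ⟨x, hx, hxy⟩ := hcon y hy
      rw [mem_iUnion₂]
      exact ⟨T x, ⟨x, hx, rfl⟩, by rw [Metric.mem_ball, dist_comm]; exact hxy⟩)
  exact ⟨δ, f, hδ, h1, h2⟩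

/-- close terms of a sequence with totally bounded range -/
theorem exists_close {β : Type} [PseudoMetricSpace β] (y : ℕ → β) (h : TotallyBounded (range y))
    (ε : ℝ) (hε : 0 < ε) : ∃ m n, m < n ∧ dist (y m) (y n) < ε := by
  obtain ⟨t, ht, hcov⟩ := Metric.totallyBounded_iff.mp h (ε / 2) (by linarith)
  have h1 : ∀ n, ∃ p : t, y n ∈ Metric.ball (p : β) (ε / 2) := by
    intro n
    have h2 := hcov ⟨n, rfl⟩
    rw [mem_iUnion₂] at h2
    obtain ⟨p, hp, h3⟩ := h2
    exact ⟨⟨p, hp⟩, h3⟩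
  choose p hp using h1
  have hfin : Finite t := ht
  obtain ⟨m, n, hmn, heq⟩ := Finite.exists_ne_map_eq_of_infinite p
  have key : ∀ m n, p m = p n → dist (y m) (y n) < ε := by
    intro m n h3
    have h4 := hp m
    have h5 := hp n
    rw [Metric.mem_ball] at h4 h5
    rw [h3] at h4
    have h6 := dist_triangle_right (y m) (y n) (p n : β)
    linarith
  rcases lt_or_gt_of_ne hmn with h3 | h3
  · exact ⟨m, n, h3, key m n heq⟩
  · exact ⟨n, m, h3, key n m heq.symm⟩

instance : Fact ((2 : ℝ≥0∞) ≠ ∞) := ⟨by norm_num⟩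

/-- differences of a weakly convergent subsequence of a bounded sequence -/
theorem weak_sub (f : ℕ → ℝ → ℝ) (K : ℝ) (hm : ∀ n, MemLp (f n) 2 mu)
    (hK : ∀ n, ∀ᵐ t ∂mu, |f n t| ≤ K) :
    ∃ φ : ℕ → ℕ, StrictMono φ ∧ Wn (fun n t => f (φ (n + 1)) t - f (φ n) t) := by
  let u : ℕ → Lp ℝ 2 mu := fun n => (hm n).toLp (f n)
  have hu : ∀ n, ‖u n‖ ≤ |K| := by
    intro n
    have h1 : ‖u n‖ = (eLpNorm (f n) 2 mu).toReal := Lp.norm_toLp (f n) (hm n)
    rw [h1]
    have h2 : eLpNorm (f n) 2 mu ≤ mu univ ^ (2 : ℝ≥0∞).toReal⁻¹ * ENNReal.ofReal K :=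
      eLpNorm_le_of_ae_bound (hK n)
    rw [measure_univ, ENNReal.one_rpow, one_mul] at h2
    have h3 := ENNReal.toReal_mono ENNReal.ofReal_ne_top h2
    refine h3.trans ?_
    rw [ENNReal.toReal_ofReal_eq_iff.mpr ?_]
    · exact le_abs_self K
    · have h4 : ∀ᵐ t ∂mu, 0 ≤ K := (hK n).mono fun t ht => (abs_nonneg _).trans ht
      obtain ⟨t, ht⟩ := h4.exists
      exact ht
  let v : ℕ → WeakDual ℝ (Lp ℝ 2 mu) := fun n => StrongDual.toWeakDual (innerSL ℝ (u n))
  have hv : ∀ n, v n ∈ WeakDual.toStrongDual ⁻¹' Metric.closedBall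
      (0 : StrongDual ℝ (Lp ℝ 2 mu)) |K| := by
    intro n
    rw [mem_preimage, Metric.mem_closedBall, dist_zero_right]
    have h1 : WeakDual.toStrongDual (v n) = innerSL ℝ (u n) := rfl
    rw [h1, innerSL_apply_norm]
    exact hu n
  obtain ⟨a, -, φ, hφ, ha⟩ := WeakDual.isSeqCompact_closedBall ℝ (Lp ℝ 2 mu) 0 |K| hv
  refine ⟨φ, hφ, fun g hg => ?_⟩
  have h1 : Tendsto (fun n => ∫ t, f (φ n) t * g t ∂mu) atTop (𝓝 (a (hg.toLp g))) := by
    have h2 := ((WeakDual.eval_continuous (hg.toLp g)).tendsto a).comp ha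
    refine h2.congr fun n => ?_
    have h3 : v (φ n) (hg.toLp g) = inner ℝ (u (φ n)) (hg.toLp g) := rfl
    change v (φ n) (hg.toLp g) = _
    rw [h3, L2.inner_def]
    refine integral_congr_ae ?_
    filter_upwards [(hm (φ n)).coeFn_toLp, hg.coeFn_toLp] with t h4 h5
    change inner ℝ (((hm (φ n)).toLp (f (φ n)) : Lp ℝ 2 mu) t) _ = _
    rw [h4, h5]
    simp [mul_comm]
  have h2 := (h1.comp (tendsto_add_atTop_nat 1)).sub h1
  rw [sub_self] at h2
  refine h2.congr fun n => ?_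
  simp only [Function.comp_apply]
  have h3 : Integrable (fun t => f (φ (n + 1)) t * g t) mu := (hm (φ (n + 1))).integrable_mul hg
  have h4 : Integrable (fun t => f (φ n) t * g t) mu := (hm (φ n)).integrable_mul hg
  rw [← integral_sub h3 h4]
  refine integral_congr_ae (Eventually.of_forall fun t => ?_)
  simp only
  ring

theorem J_sub (c : Cx) (e e' : c.E) : c.J (e - e') =ᵐ[mu] fun t => c.J e t - c.J e' t := by
  rw [map_sub]
  exact AEEqFun.coeFn_sub _ _

/-- restriction to the set of the small values -/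
theorem cut (hB : DictB) (c : Cx) (e : c.E) (K : ℝ) (hK : 0 ≤ K) : ∃ e' : c.E,
    (∀ᵐ t ∂mu, |c.J e' t| ≤ K) ∧ (∀ᵐ t ∂mu, |c.J (e - e') t| ≤ |c.J e t|) ∧
      ∀ᵐ t ∂mu, c.J (e - e') t ≠ 0 → K < |c.J e t| := by
  have hmeas : Measurable (c.J e) := (c.J e).measurable
  have hA : MeasurableSet {t | |c.J e t| ≤ K} :=
    measurableSet_le hmeas.abs measurable_const
  obtain ⟨e', he'⟩ := hB.N6 c e _ hA
  refine ⟨e', ?_, ?_, ?_⟩
  · filter_upwards [he'] with t ht
    rw [ht]
    by_cases h : t ∈ {t | |c.J e t| ≤ K}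
    · rw [indicator_of_mem h]
      exact h
    · rw [indicator_of_notMem h, abs_zero]
      exact hK
  · filter_upwards [he', J_sub c e e'] with t ht h1
    rw [h1, ht]
    by_cases h : t ∈ {t | |c.J e t| ≤ K}
    · rw [indicator_of_mem h, sub_self, abs_zero]
      exact abs_nonneg _
    · rw [indicator_of_notMem h, sub_zero]
  · filter_upwards [he', J_sub c e e'] with t ht h1 h2
    rw [h1, ht] at h2
    by_contra h
    rw [not_lt] at h
    apply h2
    rw [indicator_of_mem (show t ∈ {t | |c.J e t| ≤ K} from h), sub_self]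

end PNCh

open PNCh in
/-- **KO-NC.** -/
theorem pNC (hB : DictB) (hD3 : P_D3) : P_NC := by
  intro c T hT
  -- a separated sequence
  have htb : ¬ TotallyBounded (T '' {x | x ∈ Metric.closedBall (0 : c.E) 1}) := by
    intro htb
    apply hT
    exact (isCompactOperator_iff_isCompact_closure_image_closedBall (T : c.E →ₗ[ℝ] c.E)
      one_pos).mpr (htb.closure.isCompact_of_isClosed isClosed_closure)
  obtain ⟨δ, x, hδ, hx, hsep⟩ := exists_sep T _ htb
  have hx1 : ∀ n, ‖x n‖ ≤ 1 := fun n => by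
    have := hx n
    rwa [Metric.mem_closedBall, dist_zero_right] at this
  have hcut : ∀ (K : ℕ) (n : ℕ), ∃ e' : c.E, (∀ᵐ t ∂mu, |c.J e' t| ≤ K) ∧
      (∀ᵐ t ∂mu, |c.J (x n - e') t| ≤ |c.J (x n) t|) ∧
        ∀ᵐ t ∂mu, c.J (x n - e') t ≠ 0 → (K : ℝ) < |c.J (x n) t| :=
    fun K n => cut hB c (x n) K (Nat.cast_nonneg K)
  choose xK hxK1 hxK2 hxK3 using hcut
  by_cases hcase : ∃ K : ℕ, ¬ TotallyBounded (range fun n => T (xK K n))
  · left
    obtain ⟨K, hK⟩ := hcase
    have hK' : ¬ TotallyBounded ((fun n => T (xK K n)) '' {n | (fun _ : ℕ => True) n}) := by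
      rwa [show {n | (fun _ : ℕ => True) n} = univ from rfl, image_univ]
    obtain ⟨δ', g, hδ', -, hg⟩ := exists_sep (fun n => T (xK K n)) _ hK'
    obtain ⟨φ, hφ, hW⟩ := weak_sub (fun n => c.J (xK K (g n))) K
      (fun n => by
        obtain ⟨C, hC, h9⟩ := hB.N9 c
        exact (h9 _).1) (fun n => hxK1 K (g n))
    refine ⟨fun n => xK K (g (φ (n + 1))) - xK K (g (φ n)), 2 * K, δ', ?_, ?_, hδ', ?_⟩
    · intro n
      filter_upwards [hxK1 K (g (φ (n + 1))), hxK1 K (g (φ n)),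
        J_sub c (xK K (g (φ (n + 1)))) (xK K (g (φ n)))] with t h1 h2 h3
      rw [h3]
      have h4 := abs_sub (c.J (xK K (g (φ (n + 1)))) t) (c.J (xK K (g (φ n))) t)
      linarith
    · intro f hf
      refine (hW f hf).congr fun n => ?_
      refine integral_congr_ae ?_
      filter_upwards [J_sub c (xK K (g (φ (n + 1)))) (xK K (g (φ n)))] with t h1
      rw [h1]
    · intro n
      rw [map_sub, ← dist_eq_norm, dist_comm]
      exact hg _ _ (hφ (Nat.lt_succ_self n))
  · right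
    push Not at hcase
    have hpair : ∀ K : ℕ, ∃ m n, m < n ∧ dist (T (xK K m)) (T (xK K n)) < δ / 2 :=
      fun K => exists_close _ (hcase K) _ (by linarith)
    choose m n hmn hclose using hpair
    obtain ⟨d, hd⟩ : ∃ d : ℕ → c.E, ∀ K, d K =
        (x (m K) - xK K (m K)) - (x (n K) - xK K (n K)) := ⟨_, fun _ => rfl⟩
    obtain ⟨C, hC, h9⟩ := hB.N9 c
    have hnorm : ∀ K l, ‖x l - xK K l‖ ≤ 1 := fun K l =>
      (hB.N5 c _ _ (hxK2 K l)).trans (hx1 l)
    have hdn : ∀ K, ‖d K‖ ≤ 2 := by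
      intro K
      rw [hd]
      have h1 := norm_sub_le (x (m K) - xK K (m K)) (x (n K) - xK K (n K))
      have h2 := hnorm K (m K)
      have h3 := hnorm K (n K)
      linarith
    have hTd : ∀ K, δ / 2 ≤ ‖T (d K)‖ := by
      intro K
      have h1 : T (d K) = (T (x (m K)) - T (x (n K))) - (T (xK K (m K)) - T (xK K (n K))) := by
        rw [hd, map_sub, map_sub, map_sub]
        abel
      have h2 := hsep _ _ (hmn K)
      have h3 := hclose K
      rw [dist_eq_norm] at h2 h3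
      rw [h1]
      have h4 := norm_sub_norm_le (T (x (m K)) - T (x (n K))) (T (xK K (m K)) - T (xK K (n K)))
      linarith
    -- the supports
    have hcheb : ∀ K l : ℕ, (K : ℝ) ^ 2 * mu.real {t | (K : ℝ) < |c.J (x l) t|} ≤ C := by
      intro K l
      obtain ⟨h1, h2⟩ := h9 (x l)
      have h3 : (K : ℝ) ^ 2 * mu.real {t | (K : ℝ) ^ 2 ≤ (c.J (x l) t) ^ 2} ≤
          ∫ t, (c.J (x l) t) ^ 2 ∂mu :=
        mul_meas_ge_le_integral_of_nonneg (Eventually.of_forall fun t => sq_nonneg _)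
          h1.integrable_sq _
      have h4 : mu.real {t | (K : ℝ) < |c.J (x l) t|} ≤
          mu.real {t | (K : ℝ) ^ 2 ≤ (c.J (x l) t) ^ 2} := by
        refine measureReal_mono (fun t ht => ?_)
        change (K : ℝ) < |c.J (x l) t| at ht
        change (K : ℝ) ^ 2 ≤ (c.J (x l) t) ^ 2
        rw [← sq_abs (c.J (x l) t)]
        exact pow_le_pow_left₀ (Nat.cast_nonneg K) ht.le 2
      have h5 : C * ‖x l‖ ^ 2 ≤ C := by
        have h6 : ‖x l‖ ^ 2 ≤ 1 := pow_le_one₀ (norm_nonneg _) (hx1 l)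
        calc C * ‖x l‖ ^ 2 ≤ C * 1 := mul_le_mul_of_nonneg_left h6 hC.le
          _ = C := mul_one C
      have h7 := mul_le_mul_of_nonneg_left h4 (sq_nonneg (K : ℝ))
      linarith
    have hsupp : ∀ η : ℝ, 0 < η → ∀ᶠ K in atTop, mu {t | c.J (d K) t ≠ 0} ≤ ENNReal.ofReal η := by
      intro η hη
      obtain ⟨K₀, hK₀⟩ := exists_nat_ge (max 1 (2 * C / η))
      filter_upwards [eventually_ge_atTop K₀] with K hK
      have hK1 : (1 : ℝ) ≤ K := (le_max_left _ _).trans (hK₀.trans (by exact_mod_cast hK))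
      have hK2 : 2 * C / η ≤ K := (le_max_right _ _).trans (hK₀.trans (by exact_mod_cast hK))
      rw [div_le_iff₀ hη] at hK2
      have h1 : mu {t | c.J (d K) t ≠ 0} ≤
          mu ({t | (K : ℝ) < |c.J (x (m K)) t|} ∪ {t | (K : ℝ) < |c.J (x (n K)) t|}) := by
        apply measure_mono_ae
        filter_upwards [hxK3 K (m K), hxK3 K (n K),
          J_sub c (x (m K) - xK K (m K)) (x (n K) - xK K (n K))] with t h2 h3 h4 h5
        change c.J (d K) t ≠ 0 at h5
        rw [hd, h4] at h5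
        by_cases h6 : c.J (x (m K) - xK K (m K)) t = 0
        · right
          apply h3
          intro h7
          apply h5
          rw [h6, h7, sub_zero]
        · left
          exact h2 h6
      refine h1.trans ?_
      rw [← ENNReal.ofReal_toReal (measure_ne_top mu _)]
      apply ENNReal.ofReal_le_ofReal
      have h2 : mu.real ({t | (K : ℝ) < |c.J (x (m K)) t|} ∪ {t | (K : ℝ) < |c.J (x (n K)) t|}) ≤
          mu.real {t | (K : ℝ) < |c.J (x (m K)) t|} + mu.real {t | (K : ℝ) < |c.J (x (n K)) t|} :=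
        measureReal_union_le _ _
      have h3 := hcheb K (m K)
      have h4 := hcheb K (n K)
      change mu.real _ ≤ η
      have h5 : 0 ≤ mu.real {t | (K : ℝ) < |c.J (x (m K)) t|} := measureReal_nonneg
      have h6 : 0 ≤ mu.real {t | (K : ℝ) < |c.J (x (n K)) t|} := measureReal_nonneg
      have h7 : (K : ℝ) ≤ (K : ℝ) ^ 2 := by nlinarith
      have h8 : (K : ℝ) * (mu.real {t | (K : ℝ) < |c.J (x (m K)) t|} +
          mu.real {t | (K : ℝ) < |c.J (x (n K)) t|}) ≤ K * η := by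
        have h10 := mul_le_mul_of_nonneg_right h7 (add_nonneg h5 h6)
        linarith
      have h9 := le_of_mul_le_mul_left h8 (by linarith)
      linarith
    obtain ⟨φ, d', hφ, hd1, hd2, -⟩ := hD3 c d hsupp (fun _ => δ / (8 * (‖T‖ + 1)))
      (fun _ => by positivity)
    refine ⟨d', 2 + δ / (8 * (‖T‖ + 1)), δ / 4, fun k => ?_, hd2, by linarith, fun k => ?_⟩
    · have h1 := hd1 k
      have h2 := hdn (φ k)
      have h3 := norm_sub_le (d (φ k)) (d (φ k) - d' k)
      rw [sub_sub_cancel] at h3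
      linarith
    · have h1 := hd1 k
      have h2 := hTd (φ k)
      have h3 : T (d' k) = T (d (φ k)) - T (d (φ k) - d' k) := by
        rw [← map_sub, sub_sub_cancel]
      have h4 := norm_sub_norm_le (T (d (φ k))) (T (d (φ k) - d' k))
      have h5 := T.le_opNorm (d (φ k) - d' k)
      have h6 : ‖T‖ * ‖d (φ k) - d' k‖ ≤ δ / 8 := by
        have hT0 : 0 ≤ ‖T‖ := norm_nonneg _
        calc ‖T‖ * ‖d (φ k) - d' k‖ ≤ (‖T‖ + 1) * (δ / (8 * (‖T‖ + 1))) := by
              refine mul_le_mul (by linarith) h1 (norm_nonneg _) (by positivity)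
          _ = δ / 8 := by field_simp
      rw [h3]
      linarith

end Pool.Agent.Q88.KO
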