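import Pool.Agent.Q88.KO.Stm

/-!
# Images of sequences with an upper estimate are weakly null in `L²`
-/

set_option autoImplicit false

namespace Pool.Agent.Q88.KO

open MeasureTheory Set Filter Topology
open scoped ENNReal

namespace Wx

theorem int_mul {f g : ℝ → ℝ} (hf : MemLp f 2 mu) (hg : MemLp g 2 mu) :
    Integrable (fun t => f t * g t) mu := MemLp.integrable_mul hf hg

/-- the functional `e ↦ ∫ J(e) g` -/
noncomputable def psi (hB : DictB) (c : Cx) (g : ℝ → ℝ) (hg : MemLp g 2 mu) : c.E →ₗ[ℝ] ℝ where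
  toFun e := ∫ t, c.J e t * g t ∂mu
  map_add' e e' := by
    obtain ⟨C, -, hC⟩ := hB.N9 c
    rw [← integral_add (int_mul (hC e).1 hg) (int_mul (hC e').1 hg)]
    refine integral_congr_ae ?_
    rw [map_add]
    filter_upwards [AEEqFun.coeFn_add (c.J e) (c.J e')] with t ht
    rw [ht, Pi.add_apply]
    ring
  map_smul' a e := by
    rw [RingHom.id_apply, smul_eq_mul, ← integral_const_mul]
    refine integral_congr_ae ?_
    rw [map_smul]
    filter_upwards [AEEqFun.coeFn_smul a (c.J e)] with t ht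
    rw [ht, Pi.smul_apply, smul_eq_mul]
    ring

theorem psi_bdd (hB : DictB) (c : Cx) (g : ℝ → ℝ) (hg : MemLp g 2 mu) :
    ∃ K : ℝ, 0 < K ∧ ∀ e : c.E, |psi hB c g hg e| ≤ K * ‖e‖ := by
  obtain ⟨C, hC0, hC⟩ := hB.N9 c
  have hg2 : Integrable (fun t => g t ^ 2) mu := hg.integrable_sq
  refine ⟨C + ∫ t, g t ^ 2 ∂mu, ?_, ?_⟩
  · have : 0 ≤ ∫ t, g t ^ 2 ∂mu := integral_nonneg fun t => sq_nonneg _
    linarith
  · -- the unit sphere
    have h1 : ∀ e : c.E, ‖e‖ ≤ 1 → |psi hB c g hg e| ≤ C + ∫ t, g t ^ 2 ∂mu := by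
      intro e he
      have h2 : |psi hB c g hg e| ≤ ∫ t, |c.J e t * g t| ∂mu := abs_integral_le_integral_abs
      refine h2.trans ?_
      have h3 : ∫ t, |c.J e t * g t| ∂mu ≤ ∫ t, ((c.J e t) ^ 2 + g t ^ 2) ∂mu := by
        refine integral_mono (int_mul (hC e).1 hg).abs ((hC e).1.integrable_sq.add hg2) ?_
        intro t
        show |c.J e t * g t| ≤ (c.J e t) ^ 2 + g t ^ 2
        rw [abs_mul]
        nlinarith [sq_nonneg (|c.J e t| - |g t|), sq_abs (c.J e t), sq_abs (g t),
          abs_nonneg (c.J e t), abs_nonneg (g t)]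
      refine h3.trans ?_
      rw [integral_add (hC e).1.integrable_sq hg2]
      have h4 : ∫ t, (c.J e t) ^ 2 ∂mu ≤ C := by
        refine (hC e).2.trans ?_
        have : ‖e‖ ^ 2 ≤ 1 := by
          have := norm_nonneg e
          nlinarith
        nlinarith
      linarith
    intro e
    by_cases he : e = 0
    · rw [he, map_zero, norm_zero, abs_zero, mul_zero]
    · have hn : 0 < ‖e‖ := norm_pos_iff.mpr he
      have h5 := h1 (‖e‖⁻¹ • e) (by rw [norm_smul, norm_inv, norm_norm,
        inv_mul_cancel₀ hn.ne'])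
      rw [map_smul, smul_eq_mul, abs_mul, abs_inv, abs_norm] at h5
      rw [inv_mul_le_iff₀ hn] at h5
      linarith

end Wx

open Wx

theorem pW (hA : DictA) (hB : DictB) : P_W := by
  intro c T r hr g hg
  obtain ⟨K, hK0, hK⟩ := psi_bdd hB c g hg
  let ψ : c.E →ₗ[ℝ] ℝ := psi hB c g hg
  let v : ℕ → ℝ := fun n => ψ (T (r n))
  show Tendsto v atTop (𝓝 0)
  -- finite combinations
  have hcomb : ∀ (s : Finset ℕ) (a : ℕ → ℝ),
      |∑ i ∈ s, a i * v i| ≤ K * ‖T‖ * ‖∑ i ∈ s, a i • r i‖ := by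
    intro s a
    have h1 : ∑ i ∈ s, a i * v i = ψ (T (∑ i ∈ s, a i • r i)) := by
      rw [map_sum, map_sum]
      refine Finset.sum_congr rfl fun i _ => ?_
      rw [map_smul, map_smul, smul_eq_mul]
    rw [h1]
    calc |ψ (T (∑ i ∈ s, a i • r i))| ≤ K * ‖T (∑ i ∈ s, a i • r i)‖ := hK _
      _ ≤ K * (‖T‖ * ‖∑ i ∈ s, a i • r i‖) :=
          mul_le_mul_of_nonneg_left (T.le_opNorm _) hK0.le
      _ = _ := by ring
  have hKT : 0 ≤ K * ‖T‖ := mul_nonneg hK0.le (norm_nonneg _)
  rcases hr with ⟨C, hC0, hC⟩ | ⟨⟨B, hBd⟩, hdj⟩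
  · -- square summable
    have h1 : ∀ s : Finset ℕ, ∑ i ∈ s, v i ^ 2 ≤ (K * ‖T‖ * C) ^ 2 := by
      intro s
      have h2 := (hcomb s v).trans (mul_le_mul_of_nonneg_left (hC s v) hKT)
      have h3 : ∑ i ∈ s, v i * v i = ∑ i ∈ s, v i ^ 2 :=
        Finset.sum_congr rfl fun i _ => (sq _).symm
      have h4 : 0 ≤ ∑ i ∈ s, v i ^ 2 := Finset.sum_nonneg fun i _ => sq_nonneg _
      rw [h3, abs_of_nonneg h4] at h2
      have h5 := Real.sq_sqrt h4
      have h6 := Real.sqrt_nonneg (∑ i ∈ s, v i ^ 2)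
      set q := √(∑ i ∈ s, v i ^ 2) with hq
      rcases h6.eq_or_lt with h7 | h7
      · rw [← h5, ← h7]
        nlinarith [sq_nonneg (K * ‖T‖ * C)]
      · have h8 : q ≤ K * ‖T‖ * C := by
          rw [← h5] at h2
          have : q * q ≤ (K * ‖T‖ * C) * q := by nlinarith
          exact le_of_mul_le_mul_right this h7
        rw [← h5]
        exact pow_le_pow_left₀ h6 h8 2
    have h2 : Summable fun i => v i ^ 2 :=
      summable_of_sum_le (fun i => sq_nonneg _) h1
    have h3 := h2.tendsto_atTop_zero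
    have h4 : Tendsto (fun i => √(v i ^ 2)) atTop (𝓝 √0) := h3.sqrt
    rw [Real.sqrt_zero] at h4
    have h5 : (fun i => √(v i ^ 2)) = fun i => |v i| := funext fun i => Real.sqrt_sq_eq_abs _
    rw [h5] at h4
    exact (tendsto_zero_iff_abs_tendsto_zero _).mpr h4
  · -- disjoint sequences
    obtain ⟨M, hM⟩ := hA.N1 c B
    obtain ⟨C, hC⟩ := hA.N2 c (5 * max M 0)
    by_contra hcon
    have h1 : ∃ ε > 0, ∃ᶠ i in atTop, ε ≤ |v i| := by
      rw [Metric.tendsto_atTop] at hcon
      push Not at hcon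
      obtain ⟨ε, hε, h2⟩ := hcon
      refine ⟨ε, hε, frequently_atTop.mpr fun N => ?_⟩
      obtain ⟨n, hn, h3⟩ := h2 N
      rw [dist_zero_right, Real.norm_eq_abs] at h3
      exact ⟨n, hn, h3⟩
    obtain ⟨ε, hε, hfr⟩ := h1
    have hinf : {i | ε ≤ |v i|}.Infinite := Nat.frequently_atTop_iff_infinite.mp hfr
    have key : ∀ m : ℕ, 0 < m → ε * (m : ℝ) ^ 3 ≤ K * ‖T‖ * C := by
      intro m hm
      have hm' : (0 : ℝ) < m := Nat.cast_pos.mpr hm
      obtain ⟨s, hs1, hs2⟩ := hinf.exists_subset_card_eq (m ^ 7)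
      let a : ℕ → ℝ := fun i => if 0 ≤ v i then ((m : ℝ) ^ 4)⁻¹ else -((m : ℝ) ^ 4)⁻¹
      have ha : ∀ i, |a i| = ((m : ℝ) ^ 4)⁻¹ := by
        intro i
        show |if 0 ≤ v i then ((m : ℝ) ^ 4)⁻¹ else -((m : ℝ) ^ 4)⁻¹| = _
        split_ifs
        · exact abs_of_pos (by positivity)
        · rw [abs_neg]
          exact abs_of_pos (by positivity)
      have hav : ∀ i, a i * v i = ((m : ℝ) ^ 4)⁻¹ * |v i| := by
        intro i
        show (if 0 ≤ v i then ((m : ℝ) ^ 4)⁻¹ else -((m : ℝ) ^ 4)⁻¹) * v i = _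
        split_ifs with h
        · rw [abs_of_nonneg h]
        · rw [abs_of_neg (not_le.mp h)]
          ring
      have ha1 : ∀ i, |a i| ≤ 1 := by
        intro i
        rw [ha i]
        refine inv_le_one_of_one_le₀ ?_
        exact one_le_pow₀ (by exact_mod_cast hm)
      have ha2 : ∀ i, |a i| ^ (7 / 4 : ℝ) = ((m : ℝ) ^ 7)⁻¹ := by
        intro i
        rw [ha i, ← Real.rpow_natCast, ← Real.rpow_neg hm'.le, ← Real.rpow_mul hm'.le,
          ← Real.rpow_natCast, ← Real.rpow_neg hm'.le]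
        congr 1
        norm_num
      have hmd : md c (∑ i ∈ s, a i • r i) ≤ ENNReal.ofReal (5 * max M 0) := by
        have h2 : ∀ i j, i ≠ j → Dj c.J (a i • r i) (a j • r j) := by
          intro i j hij
          have h3 := hdj i j hij
          unfold Dj at h3 ⊢
          rw [map_smul, map_smul]
          filter_upwards [h3, AEEqFun.coeFn_smul (a i) (c.J (r i)),
            AEEqFun.coeFn_smul (a j) (c.J (r j))] with t h4 h5 h6
          rw [h5, h6, Pi.smul_apply, Pi.smul_apply]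
          rcases h4 with h4 | h4
          · left
            rw [h4, smul_zero]
          · right
            rw [h4, smul_zero]
        rw [hA.add c s (fun i => a i • r i) h2]
        calc ∑ i ∈ s, md c (a i • r i)
            ≤ ∑ i ∈ s, ENNReal.ofReal (5 * ((m : ℝ) ^ 7)⁻¹ * max M 0) := by
              refine Finset.sum_le_sum fun i _ => ?_
              refine (hA.scm c (a i) (r i) (ha1 i)).trans ?_
              rw [ha2 i, ENNReal.ofReal_mul (p := 5 * ((m : ℝ) ^ 7)⁻¹) (by positivity)]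
              refine mul_le_mul' le_rfl ((hM (r i) (hBd i)).trans ?_)
              exact ENNReal.ofReal_le_ofReal (le_max_left _ _)
          _ = ENNReal.ofReal (5 * max M 0) := by
              rw [Finset.sum_const, hs2, nsmul_eq_mul, ← ENNReal.ofReal_natCast,
                ← ENNReal.ofReal_mul (by positivity)]
              congr 1
              push_cast
              field_simp
      have h3 := (hcomb s a).trans (mul_le_mul_of_nonneg_left (hC _ hmd) hKT)
      refine le_trans ?_ h3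
      refine le_trans ?_ (le_abs_self _)
      calc ε * (m : ℝ) ^ 3 = ∑ i ∈ s, ((m : ℝ) ^ 4)⁻¹ * ε := by
            rw [Finset.sum_const, hs2, nsmul_eq_mul]
            push_cast
            field_simp
        _ ≤ ∑ i ∈ s, a i * v i := by
            refine Finset.sum_le_sum fun i hi => ?_
            rw [hav i]
            exact mul_le_mul_of_nonneg_left (hs1 hi) (by positivity)
    obtain ⟨m, hm⟩ := exists_nat_gt (max 1 (K * ‖T‖ * C / ε))
    have hm1 : (1 : ℝ) < m := (le_max_left _ _).trans_lt hm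
    have hm2 : K * ‖T‖ * C / ε < m := (le_max_right _ _).trans_lt hm
    have hm0 : 0 < m := by
      have : (0 : ℝ) < m := by linarith
      exact_mod_cast this
    have h4 := key m hm0
    rw [div_lt_iff₀ hε] at hm2
    have h5 : (m : ℝ) ≤ (m : ℝ) ^ 3 := by nlinarith [sq_nonneg ((m : ℝ) - 1)]
    nlinarith

end Pool.Agent.Q88.KO
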