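import Pool.Agent.Q88.KO.DB
import Pool.Agent.Q88.KO.PD2

/-!
# Lower 2-estimate for disjoint sequences
-/

set_option autoImplicit false

namespace Pool.Agent.Q88.KO

open MeasureTheory Set Filter Topology
open scoped ENNReal

namespace Pax

open DAx

theorem J_sum' (c : Cx) (s : Finset ℕ) (a : ℕ → ℝ) (r : ℕ → c.E) :
    c.J (∑ i ∈ s, a i • r i) =ᵐ[mu] fun t => ∑ i ∈ s, a i * c.J (r i) t := by
  classical
  induction s using Finset.induction_on with
  | empty =>
    simp only [Finset.sum_empty, map_zero]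
    exact AEEqFun.coeFn_zero
  | insert j s hj ih =>
    rw [Finset.sum_insert hj, map_add, map_smul]
    filter_upwards [AEEqFun.coeFn_add (a j • c.J (r j)) (c.J (∑ i ∈ s, a i • r i)),
      AEEqFun.coeFn_smul (a j) (c.J (r j)), ih] with t h1 h2 h3
    rw [h1, Pi.add_apply, h2, Pi.smul_apply, h3, Finset.sum_insert hj, smul_eq_mul]

/-- comparison with the restrictions of disjoint elements -/
theorem cmp (hB : DictB) (c : Cx) (x y : ℕ → c.E) (hd : ∀ m n, m ≠ n → Dj c.J (x m) (x n))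
    (h : ∀ k, ∀ᵐ t ∂mu, c.J (y k) t = c.J (x k) t ∨ c.J (y k) t = 0) (s : Finset ℕ)
    (a : ℕ → ℝ) : ‖∑ i ∈ s, a i • y i‖ ≤ ‖∑ i ∈ s, a i • x i‖ := by
  refine hB.N5 c _ _ ?_
  have hd' : ∀ᵐ t ∂mu, ∀ m n, m ≠ n → c.J (x m) t = 0 ∨ c.J (x n) t = 0 := by
    rw [ae_all_iff]; intro m
    rw [ae_all_iff]; intro n
    by_cases hmn : m = n
    · exact Eventually.of_forall fun t h => absurd hmn h
    · exact (hd m n hmn).mono fun t ht _ => ht
  have h' : ∀ᵐ t ∂mu, ∀ k, c.J (y k) t = c.J (x k) t ∨ c.J (y k) t = 0 := ae_all_iff.2 h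
  filter_upwards [J_sum' c s a x, J_sum' c s a y, hd', h'] with t h1 h2 h3 h4
  rw [h1, h2]
  by_cases hex : ∃ i ∈ s, c.J (y i) t ≠ 0
  · obtain ⟨i, hi, hyi⟩ := hex
    have hxi : c.J (y i) t = c.J (x i) t := (h4 i).resolve_right hyi
    have hxi0 : c.J (x i) t ≠ 0 := hxi ▸ hyi
    have hx : ∀ j, j ≠ i → c.J (x j) t = 0 := fun j hj => (h3 j i hj).resolve_right hxi0
    have hy : ∀ j, j ≠ i → c.J (y j) t = 0 := fun j hj => by
      rcases h4 j with h5 | h5
      · rw [h5, hx j hj]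
      · exact h5
    rw [Finset.sum_eq_single i (fun j _ hj => by rw [hy j hj, mul_zero]) (fun h => absurd hi h),
      Finset.sum_eq_single i (fun j _ hj => by rw [hx j hj, mul_zero]) (fun h => absurd hi h),
      hxi]
  · push Not at hex
    rw [Finset.sum_eq_zero fun i hi => by rw [hex i hi, mul_zero], abs_zero]
    exact abs_nonneg _

theorem ofReal_sum_le (s : Finset ℕ) (x : ℕ → ℝ) :
    ENNReal.ofReal (∑ i ∈ s, x i) ≤ ∑ i ∈ s, ENNReal.ofReal (x i) := by
  have h1 : ∀ i, ENNReal.ofReal (x i) = ENNReal.ofReal (max (x i) 0) := fun i => by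
    rcases le_total (x i) 0 with h | h
    · rw [max_eq_right h, ENNReal.ofReal_of_nonpos h, ENNReal.ofReal_zero]
    · rw [max_eq_left h]
  simp only [h1]
  rw [← ENNReal.ofReal_sum_of_nonneg fun i _ => le_max_right _ _]
  exact ENNReal.ofReal_le_ofReal (Finset.sum_le_sum fun i _ => le_max_left _ _)

/-- a lower estimate of the modular gives a lower 2-estimate -/
theorem low_of (hA : DictA) (c : Cx) (h : ℕ → c.E) (hd : ∀ m n, m ≠ n → Dj c.J (h m) (h n))
    {c₀ η : ℝ} (hc₀ : 0 < c₀) (hη : 0 < η) (hm : ∀ k, ENNReal.ofReal η ≤ md c (h k))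
    (hst : ∀ k : ℕ, ∀ᵐ t ∂mu, ∀ α : ℝ, Real.exp (-((k : ℝ) + 1)) ≤ α → α ≤ 1 →
      c₀ * α ^ 2 * c.Φ |c.J (h k) t| ≤ c.Φ (α * |c.J (h k) t|)) : Low h := by
  classical
  obtain ⟨κ, hκ, hN4⟩ := hA.N4 c (c₀ * η / 2) (by positivity)
  have hterm : ∀ (k : ℕ) (a : ℝ), |a| ≤ 1 →
      ENNReal.ofReal (c₀ * η * (a ^ 2 - Real.exp (-(2 * ((k : ℝ) + 1))))) ≤ md c (a • h k) := by
    intro k a ha
    have he : Real.exp (-(2 * ((k : ℝ) + 1))) = Real.exp (-((k : ℝ) + 1)) ^ 2 := by
      rw [← Real.exp_nat_mul]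
      congr 1
      push_cast
      ring
    rcases lt_or_ge |a| (Real.exp (-((k : ℝ) + 1))) with h1 | h1
    · have h2 : a ^ 2 ≤ Real.exp (-((k : ℝ) + 1)) ^ 2 := by
        rw [← sq_abs]
        exact pow_le_pow_left₀ (abs_nonneg _) h1.le 2
      rw [ENNReal.ofReal_of_nonpos]
      · exact zero_le
      · rw [he]
        have h3 : 0 < c₀ * η := by positivity
        nlinarith
    · have h2 : ENNReal.ofReal (c₀ * a ^ 2) * md c (h k) ≤ md c (a • h k) := by
        unfold md rho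
        rw [← lintegral_const_mul' _ _ ENNReal.ofReal_ne_top, map_smul]
        refine lintegral_mono_ae ?_
        filter_upwards [AEEqFun.coeFn_smul a (c.J (h k)), hst k] with t h3 h4
        rw [h3, Pi.smul_apply, smul_eq_mul, abs_mul, ← ENNReal.ofReal_mul (by positivity)]
        refine ENNReal.ofReal_le_ofReal ?_
        have h5 := h4 |a| h1 ha
        rwa [sq_abs] at h5
      refine le_trans ?_ h2
      calc ENNReal.ofReal (c₀ * η * (a ^ 2 - Real.exp (-(2 * ((k : ℝ) + 1))))) ≤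
            ENNReal.ofReal (c₀ * a ^ 2 * η) := by
            refine ENNReal.ofReal_le_ofReal ?_
            have h3 : 0 < c₀ * η * Real.exp (-(2 * ((k : ℝ) + 1))) := by positivity
            nlinarith
        _ = ENNReal.ofReal (c₀ * a ^ 2) * ENNReal.ofReal η := ENNReal.ofReal_mul (by positivity)
        _ ≤ _ := by
            gcongr
            exact hm k
  have hgeo : ∀ s : Finset ℕ, ∑ k ∈ s, Real.exp (-(2 * ((k : ℝ) + 1))) ≤ 1 / 2 := by
    intro s
    have e : ∀ k : ℕ, Real.exp (-(2 * ((k : ℝ) + 1))) ≤ 1 / 4 * (1 / 2 : ℝ) ^ k := by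
      intro k
      have h1 : Real.exp (-(2 * ((k : ℝ) + 1))) = Real.exp (-2) * Real.exp (-2) ^ k := by
        rw [← Real.exp_nat_mul, ← Real.exp_add]
        congr 1
        ring
      have h2 : Real.exp (-2) ≤ 1 / 4 := by
        rw [Real.exp_neg, one_div]
        refine inv_anti₀ (by norm_num) ?_
        have h3 : Real.exp 2 = Real.exp 1 * Real.exp 1 := by
          rw [← Real.exp_add]; norm_num
        have h4 := Real.add_one_le_exp (1:ℝ)
        rw [h3]
        nlinarith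
      rw [h1]
      refine mul_le_mul h2 (pow_le_pow_left₀ (Real.exp_pos _).le (by linarith) k)
        (by positivity) (by norm_num)
    refine (Finset.sum_le_sum fun k _ => e k).trans ?_
    rw [← Finset.mul_sum]
    have h2 := (summable_geometric_two).sum_le_tsum s (fun i _ => by positivity)
    rw [tsum_geometric_two] at h2
    linarith
  have hnorm : ∀ (s : Finset ℕ) (a : ℕ → ℝ), ∑ k ∈ s, a k ^ 2 = 1 →
      κ ≤ ‖∑ k ∈ s, a k • h k‖ := by
    intro s a ha
    have ha1 : ∀ k ∈ s, |a k| ≤ 1 := by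
      intro k hk
      have h1 : a k ^ 2 ≤ 1 :=
        (Finset.single_le_sum (f := fun k => a k ^ 2) (fun i _ => sq_nonneg _) hk).trans ha.le
      exact abs_le_one_iff_mul_self_le_one.2 (by nlinarith)
    refine hN4 _ ?_
    have hdj : ∀ m n, m ≠ n → Dj c.J (a m • h m) (a n • h n) := by
      intro m n hmn
      have h1 := hd m n hmn
      unfold Dj at h1 ⊢
      rw [map_smul, map_smul]
      filter_upwards [h1, AEEqFun.coeFn_smul (a m) (c.J (h m)),
        AEEqFun.coeFn_smul (a n) (c.J (h n))] with t h2 h3 h4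
      rw [h3, h4, Pi.smul_apply, Pi.smul_apply]
      rcases h2 with h2 | h2
      · left; rw [h2, smul_zero]
      · right; rw [h2, smul_zero]
    rw [hA.add c s (fun n => a n • h n) hdj]
    refine le_trans ?_ (Finset.sum_le_sum fun k hk => hterm k (a k) (ha1 k hk))
    refine le_trans ?_ (ofReal_sum_le s _)
    refine ENNReal.ofReal_le_ofReal ?_
    rw [← Finset.mul_sum, Finset.sum_sub_distrib, ha]
    have h1 := hgeo s
    have h2 : 0 < c₀ * η := by positivity
    nlinarith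
  refine ⟨κ, hκ, fun s a => ?_⟩
  set A : ℝ := ∑ k ∈ s, a k ^ 2 with hA'
  have hA0 : 0 ≤ A := Finset.sum_nonneg fun i _ => sq_nonneg _
  rcases hA0.eq_or_lt with h0 | h0
  · rw [← h0, Real.sqrt_zero, mul_zero]
    exact norm_nonneg _
  · have hs : 0 < √A := Real.sqrt_pos.2 h0
    have h1 := hnorm s (fun k => a k / √A) (by
      simp only [div_pow, Real.sq_sqrt hA0]
      rw [← Finset.sum_div, ← hA', div_self h0.ne'])
    have h2 : ∑ k ∈ s, (a k / √A) • h k = (√A)⁻¹ • ∑ k ∈ s, a k • h k := by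
      rw [Finset.smul_sum]
      refine Finset.sum_congr rfl fun k _ => ?_
      rw [div_eq_inv_mul, mul_smul]
    rw [h2, norm_smul, norm_inv, Real.norm_eq_abs, abs_of_pos hs, ← div_eq_inv_mul,
      le_div_iff₀ hs] at h1
    exact h1

theorem sub_disj {c : Cx} {x y : ℕ → c.E} (hd : ∀ m n, m ≠ n → Dj c.J (x m) (x n))
    {φ : ℕ → ℕ} (hφ : StrictMono φ)
    (h : ∀ k, ∀ᵐ t ∂mu, c.J (y k) t = c.J (x (φ k)) t ∨ c.J (y k) t = 0) :
    ∀ m n, m ≠ n → Dj c.J (y m) (y n) := by
  intro m n hmn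
  have h4 := hd (φ m) (φ n) (fun he => hmn (hφ.injective he))
  unfold Dj at h4 ⊢
  filter_upwards [h4, h m, h n] with t ht h5 h6
  rcases h5 with h5 | h5
  · rcases h6 with h6 | h6
    · rw [h5, h6]
      exact ht
    · exact Or.inr h6
  · exact Or.inl h5

end Pax

theorem pa (hA : DictA) (hB : DictB) (hNF : P_NF) : P_a := by
  classical
  intro c h B δ hb hd hδ hn
  obtain ⟨φ, h', hφ, h1, ⟨δ', hδ', h2⟩, h3⟩ := hNF c (ContinuousLinearMap.id ℝ c.E) h B δ hb hd hδ hn
  have h2' : ∀ k, δ' ≤ ‖h' k‖ := h2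
  have hd' := Pax.sub_disj hd hφ h1
  obtain ⟨η, hη, hN3⟩ := hA.N3 c δ' hδ'
  have hm : ∀ k, ENNReal.ofReal η ≤ md c (h' k) := fun k => hN3 _ (h2' k)
  -- from `h'` to `h`
  have back : ∀ ψ : ℕ → ℕ, StrictMono ψ → Low (fun k => h' (ψ k)) →
      ∃ θ : ℕ → ℕ, StrictMono θ ∧ Low fun k => h (θ k) := by
    rintro ψ hψ ⟨κ, hκ, hl⟩
    refine ⟨fun k => φ (ψ k), hφ.comp hψ, κ, hκ, fun s a => (hl s a).trans ?_⟩
    refine Pax.cmp hB c (fun k => h (φ (ψ k))) (fun k => h' (ψ k)) ?_ (fun k => h1 (ψ k)) s a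
    intro m n hmn
    exact hd _ _ fun he => hmn (hψ.injective (hφ.injective he))
  -- the basic estimate
  have key : ∀ (x u d : ℝ), c.H x ≤ c.H (x - u) + d → ∀ s : ℝ, 0 < s → Real.log s = x →
      Real.exp (-d) / 5 * Real.exp (-u) ^ 2 * c.Φ s ≤ c.Φ (Real.exp (-u) * s) := by
    intro x u d hH s hs hx
    have h4 := c.prof.hi s hs
    have h5 := c.prof.lo (Real.exp (-u) * s) (by positivity)
    have e1 : Real.log (Real.exp (-u) * s) = x - u := by
      rw [Real.log_mul (Real.exp_pos _).ne' hs.ne', Real.log_exp, hx]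
      ring
    rw [e1] at h5
    rw [hx] at h4
    have h6 : Real.exp (-d) * Real.exp (c.H x) ≤ Real.exp (c.H (x - u)) := by
      rw [← Real.exp_add]
      exact Real.exp_le_exp.2 (by linarith)
    calc Real.exp (-d) / 5 * Real.exp (-u) ^ 2 * c.Φ s ≤
          Real.exp (-d) / 5 * Real.exp (-u) ^ 2 * (s ^ 2 * Real.exp (c.H x)) :=
          mul_le_mul_of_nonneg_left h4 (by positivity)
      _ = (Real.exp (-u) * s) ^ 2 * (Real.exp (-d) * Real.exp (c.H x)) / 5 := by ring
      _ ≤ (Real.exp (-u) * s) ^ 2 * Real.exp (c.H (x - u)) / 5 := by gcongr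
      _ ≤ _ := by linarith
  have hzero : ∀ (d α : ℝ), d * α ^ 2 * c.Φ |(0:ℝ)| ≤ c.Φ (α * |(0:ℝ)|) := by
    intro d α
    rw [abs_zero, mul_zero, c.prof.orl.zero, mul_zero]
  rcases h3 with ⟨L, h3⟩ | h3
  · refine back id strictMono_id (Pax.low_of hA c h' hd' (c₀ := Real.exp (-(|L| / 4)) / 5)
      (by positivity) hη hm fun k => ?_)
    filter_upwards [h3 k] with t ht α hα1 hα2
    by_cases h0 : c.J (h' k) t = 0
    · rw [h0]
      exact hzero _ _
    · obtain ⟨-, z, hz, hzL⟩ := ht h0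
      have hα : 0 < α := lt_of_lt_of_le (Real.exp_pos _) hα1
      have h4 := key (Real.log |c.J (h' k) t|) (-Real.log α) (|L| / 4) ?_ _ (abs_pos.2 h0) rfl
      · rwa [neg_neg, Real.exp_log hα] at h4
      · have h5 := c.prof.lip (Real.log |c.J (h' k) t|) z
        rw [c.prof.zer z hz, sub_zero] at h5
        have h6 := c.prof.nonneg (Real.log |c.J (h' k) t| - -Real.log α)
        have h7 := le_abs_self (c.H (Real.log |c.J (h' k) t|))
        have h8 := le_abs_self L
        linarith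
  · choose L hL using fun k : ℕ => c.prof.flat ((k : ℝ) + 1)
    obtain ⟨ψ, hψ, hψL⟩ := exists_sub (P := fun _ k n => L k ≤ (n : ℝ)) (by
      intro s k
      exact (tendsto_natCast_atTop_atTop (R := ℝ)).eventually_ge_atTop (L k))
    refine back ψ hψ (Pax.low_of hA c (fun k => h' (ψ k))
      (fun m n hmn => hd' _ _ fun he => hmn (hψ.injective he)) (c₀ := Real.exp (-1) / 5)
      (by positivity) hη (fun k => hm _) fun k => ?_)
    filter_upwards [h3 (ψ k)] with t ht α hα1 hα2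
    by_cases h0 : c.J (h' (ψ k)) t = 0
    · rw [h0]
      exact hzero _ _
    · obtain ⟨-, hz⟩ := ht h0
      have hα : 0 < α := lt_of_lt_of_le (Real.exp_pos _) hα1
      have hlog1 : Real.log α ≤ 0 := Real.log_nonpos hα.le hα2
      have hlog2 : -((k : ℝ) + 1) ≤ Real.log α := by
        rw [← Real.log_exp (-((k : ℝ) + 1))]
        exact Real.log_le_log (Real.exp_pos _) hα1
      have h4 := key (Real.log |c.J (h' (ψ k)) t|) (-Real.log α) 1 ?_ _ (abs_pos.2 h0) rfl
      · rwa [neg_neg, Real.exp_log hα] at h4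
      · have h5 := hL k (Real.log |c.J (h' (ψ k)) t|) (fun z hzZ => (hψL k).trans (hz z hzZ))
          (-Real.log α) (by linarith) (by linarith)
        rw [abs_le] at h5
        linarith [h5.1]

end Pool.Agent.Q88.KO
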