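import Pool.Agent.Q88.KO.Defs

/-!
# The steps
-/

set_option autoImplicit false

namespace Pool.Agent.Q88.KO

open MeasureTheory Set Filter Topology
open scoped ENNReal

instance : IsProbabilityMeasure mu := ⟨by simp [mu]⟩

/-- The profile: `Φ(s)` is comparable with `s² exp(H(log s))`. `Z` is the set of the ends of the
blocks, `b` are the scales. -/
structure Prof (Φ H : ℝ → ℝ) (Z : Set ℝ) (b : ℕ → ℝ) : Prop where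
  orl : IsOrlicz Φ
  lo : ∀ s, 0 < s → s ^ 2 * Real.exp (H (Real.log s)) ≤ 5 * Φ s
  hi : ∀ s, 0 < s → Φ s ≤ s ^ 2 * Real.exp (H (Real.log s))
  nonneg : ∀ x, 0 ≤ H x
  lip : ∀ x y, |H x - H y| ≤ |x - y| / 4
  neg : ∀ x, x ≤ 0 → H x = 0
  zer : ∀ z ∈ Z, H z = 0
  flat : ∀ u : ℝ, ∃ L : ℝ, ∀ x, (∀ z ∈ Z, L ≤ |x - z|) → ∀ t, 0 ≤ t → t ≤ u →
    |H (x - t) - H x| ≤ 1
  bpos : ∀ k, 0 ≤ b k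
  scale : ∀ L : ℝ, ∃ k₀ : ℕ, ∀ k, k₀ ≤ k → ∃ x₀ : ℝ, ∀ x, x₀ ≤ x → (∃ z ∈ Z, |x - z| ≤ L) →
    ∀ t, 0 ≤ t → t ≤ k → H (x - b k - t) ≤ 1
  top : ∀ M : ℝ, ∃ u, 0 < u ∧ ∃ x₀ : ℝ, ∀ z ∈ Z, x₀ ≤ z → M ≤ H (z - u)
  unb : ∀ x : ℝ, ∃ z ∈ Z, x ≤ z

/-- the context of all later steps -/
structure Cx where
  Φ : ℝ → ℝ
  H : ℝ → ℝ
  Z : Set ℝ
  b : ℕ → ℝ
  E : Type
  [i1 : NormedAddCommGroup E]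
  [i2 : NormedSpace ℝ E]
  [i3 : CompleteSpace E]
  J : E →ₗ[ℝ] (ℝ →ₘ[mu] ℝ)
  prof : Prof Φ H Z b
  orl : IsOrliczSpace Φ E J

attribute [instance] Cx.i1 Cx.i2 Cx.i3

/-- the modular on `E` -/
noncomputable def md (c : Cx) (e : c.E) : ℝ≥0∞ := rho c.Φ (c.J e)

/-- `e'` is the restriction of `e` to `A` -/
def Res (c : Cx) (e e' : c.E) (A : Set ℝ) : Prop := c.J e' =ᵐ[mu] A.indicator (c.J e)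

/-- lower 2-estimate -/
def Low {E : Type} [NormedAddCommGroup E] [NormedSpace ℝ E] (y : ℕ → E) : Prop :=
  ∃ κ : ℝ, 0 < κ ∧ ∀ (s : Finset ℕ) (a : ℕ → ℝ), κ * √(∑ i ∈ s, a i ^ 2) ≤ ‖∑ i ∈ s, a i • y i‖

/-- upper 2-estimate -/
def Upp {E : Type} [NormedAddCommGroup E] [NormedSpace ℝ E] (y : ℕ → E) : Prop :=
  ∃ C : ℝ, 0 < C ∧ ∀ (s : Finset ℕ) (a : ℕ → ℝ), ‖∑ i ∈ s, a i • y i‖ ≤ C * √(∑ i ∈ s, a i ^ 2)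

/-- weakly null in `L²` -/
def Wn (f : ℕ → ℝ → ℝ) : Prop :=
  ∀ g : ℝ → ℝ, MemLp g 2 mu → Tendsto (fun n => ∫ t, f n t * g t ∂mu) atTop (𝓝 0)

/-- the values of the `k`-th term are large and near to `Z` (in the logarithmic scale) -/
def Nr (c : Cx) (L : ℝ) (h : ℕ → c.E) : Prop :=
  ∀ k : ℕ, ∀ᵐ t ∂mu, c.J (h k) t ≠ 0 → (k : ℝ) ≤ Real.log |c.J (h k) t| ∧
    ∃ z ∈ c.Z, |Real.log |c.J (h k) t| - z| ≤ L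

/-- the values of the `k`-th term are large and far from `Z` (in the logarithmic scale) -/
def Far (c : Cx) (h : ℕ → c.E) : Prop :=
  ∀ k : ℕ, ∀ᵐ t ∂mu, c.J (h k) t ≠ 0 → (k : ℝ) ≤ Real.log |c.J (h k) t| ∧
    ∀ z ∈ c.Z, (k : ℝ) ≤ |Real.log |c.J (h k) t| - z|

/-! ### The steps -/

/-- the profile exists -/
def P_A : Prop := ∃ (Φ H : ℝ → ℝ) (Z : Set ℝ) (b : ℕ → ℝ), Prof Φ H Z b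

/-- the Orlicz space exists and is complete -/
def P_B : Prop := ∀ Φ : ℝ → ℝ, IsOrlicz Φ → (∀ s, 0 ≤ s → s ^ 2 ≤ 5 * Φ s) →
  ∃ (E : Type) (_ : NormedAddCommGroup E) (_ : NormedSpace ℝ E) (_ : CompleteSpace E)
    (J : E →ₗ[ℝ] (ℝ →ₘ[mu] ℝ)), IsOrliczSpace Φ E J

/-- norm and modular -/
structure DictA : Prop where
  /-- scaling of `Φ` -/
  sc : ∀ c : Cx, ∀ a s : ℝ, 0 ≤ a → a ≤ 1 → 0 ≤ s →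
    c.Φ (a * s) ≤ 5 * a ^ (7 / 4 : ℝ) * c.Φ s ∧ a ^ (9 / 4 : ℝ) * c.Φ s ≤ 5 * c.Φ (a * s)
  /-- scaling of the modular -/
  scm : ∀ c : Cx, ∀ (a : ℝ) (e : c.E), |a| ≤ 1 →
    md c (a • e) ≤ ENNReal.ofReal (5 * |a| ^ (7 / 4 : ℝ)) * md c e
  /-- additivity on disjoint elements -/
  add : ∀ c : Cx, ∀ (s : Finset ℕ) (e : ℕ → c.E), (∀ m n, m ≠ n → Dj c.J (e m) (e n)) →
    md c (∑ i ∈ s, e i) = ∑ i ∈ s, md c (e i)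
  N1 : ∀ c : Cx, ∀ B : ℝ, ∃ C : ℝ, ∀ e : c.E, ‖e‖ ≤ B → md c e ≤ ENNReal.ofReal C
  N2 : ∀ c : Cx, ∀ B : ℝ, ∃ C : ℝ, ∀ e : c.E, md c e ≤ ENNReal.ofReal B → ‖e‖ ≤ C
  N3 : ∀ c : Cx, ∀ δ : ℝ, 0 < δ → ∃ η : ℝ, 0 < η ∧ ∀ e : c.E, δ ≤ ‖e‖ → ENNReal.ofReal η ≤ md c e
  N4 : ∀ c : Cx, ∀ η : ℝ, 0 < η → ∃ δ : ℝ, 0 < δ ∧ ∀ e : c.E, ENNReal.ofReal η ≤ md c e → δ ≤ ‖e‖

/-- the lattice structure, `L²` and `L⁴` -/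
structure DictB : Prop where
  N5 : ∀ c : Cx, ∀ e e' : c.E, (∀ᵐ t ∂mu, |c.J e t| ≤ |c.J e' t|) → ‖e‖ ≤ ‖e'‖
  N6 : ∀ c : Cx, ∀ (e : c.E) (A : Set ℝ), MeasurableSet A → ∃ e', Res c e e' A
  N7 : ∀ c : Cx, ∀ C : ℝ, ∃ C' : ℝ, 0 < C' ∧ ∀ (e : c.E) (A : Set ℝ), MeasurableSet A →
    (∀ᵐ t ∂mu, t ∉ A → c.J e t = 0) → (∀ᵐ t ∂mu, |c.J e t| ≤ C) →
      ‖e‖ ^ 4 ≤ C' * (mu A).toReal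
  N8 : ∀ c : Cx, ∀ (e : c.E) (ε : ℝ), 0 < ε → ∃ η : ℝ, 0 < η ∧ ∀ A : Set ℝ, MeasurableSet A →
    mu A ≤ ENNReal.ofReal η → ∀ e', Res c e e' A → ‖e'‖ ≤ ε
  N9 : ∀ c : Cx, ∃ C : ℝ, 0 < C ∧ ∀ e : c.E, MemLp (c.J e) 2 mu ∧
    ∫ t, (c.J e t) ^ 2 ∂mu ≤ C * ‖e‖ ^ 2
  N10 : ∀ c : Cx, ∃ C : ℝ, 0 < C ∧ ∀ e : c.E, MemLp (c.J e) 4 mu →
    ‖e‖ ^ 4 ≤ C * ∫ t, (c.J e t) ^ 4 ∂mu
  N11 : ∀ c : Cx, ∀ (f : ℝ → ℝ) (K : ℝ), AEStronglyMeasurable f mu → (∀ᵐ t ∂mu, |f t| ≤ K) →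
    ∃ e : c.E, c.J e =ᵐ[mu] f

/-- bounded functions: upper 2-estimate in `L⁴` for a subsequence -/
def P_D1 : Prop := ∀ (f : ℕ → ℝ → ℝ) (K : ℝ), (∀ n, AEStronglyMeasurable (f n) mu) →
  (∀ n, ∀ᵐ t ∂mu, |f n t| ≤ K) → Wn f → ∃ (φ : ℕ → ℕ) (C : ℝ), StrictMono φ ∧ 0 < C ∧
    ∀ (s : Finset ℕ) (a : ℕ → ℝ), ∫ t, (∑ i ∈ s, a i * f (φ i) t) ^ 4 ∂mu ≤
      C * (∑ i ∈ s, a i ^ 2) ^ 2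

/-- lower 2-estimate in `L²` for a subsequence -/
def P_D2 : Prop := ∀ y : ℕ → ℝ → ℝ, (∀ n, MemLp (y n) 2 mu) → Wn y → ∀ δ : ℝ, 0 < δ →
  (∀ n, δ ≤ ∫ t, (y n t) ^ 2 ∂mu) → ∃ (φ : ℕ → ℕ) (κ : ℝ), StrictMono φ ∧ 0 < κ ∧
    ∀ (s : Finset ℕ) (a : ℕ → ℝ), κ * (∑ i ∈ s, a i ^ 2) ≤ ∫ t, (∑ i ∈ s, a i * y (φ i) t) ^ 2 ∂mu

/-- sequences with small supports are almost disjoint -/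
def P_D3 : Prop := ∀ (c : Cx) (d : ℕ → c.E),
  (∀ η : ℝ, 0 < η → ∀ᶠ n in atTop, mu {t | c.J (d n) t ≠ 0} ≤ ENNReal.ofReal η) →
  ∀ ε : ℕ → ℝ, (∀ k, 0 < ε k) → ∃ (φ : ℕ → ℕ) (d' : ℕ → c.E), StrictMono φ ∧
    (∀ k, ‖d (φ k) - d' k‖ ≤ ε k) ∧ (∀ m n, m ≠ n → Dj c.J (d' m) (d' n)) ∧
    ∀ k, ∀ᵐ t ∂mu, |c.J (d' k) t| ≤ |c.J (d (φ k)) t|

/-- images of sequences with an upper 2-estimate and of disjoint bounded sequences are weakly null in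
`L²` -/
def P_W : Prop := ∀ c : Cx, ∀ (T : c.E →L[ℝ] c.E) (r : ℕ → c.E),
  (Upp r ∨ ((∃ B : ℝ, ∀ n, ‖r n‖ ≤ B) ∧ ∀ m n, m ≠ n → Dj c.J (r m) (r n))) →
    Wn (fun n => c.J (T (r n)))

/-- near or far -/
def P_NF : Prop := ∀ (c : Cx) (T : c.E →L[ℝ] c.E) (h : ℕ → c.E) (B δ : ℝ), (∀ n, ‖h n‖ ≤ B) →
  (∀ m n, m ≠ n → Dj c.J (h m) (h n)) → 0 < δ → (∀ n, δ ≤ ‖T (h n)‖) →
  ∃ (φ : ℕ → ℕ) (h' : ℕ → c.E), StrictMono φ ∧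
    (∀ k, ∀ᵐ t ∂mu, c.J (h' k) t = c.J (h (φ k)) t ∨ c.J (h' k) t = 0) ∧
    (∃ δ' : ℝ, 0 < δ' ∧ ∀ k, δ' ≤ ‖T (h' k)‖) ∧ ((∃ L : ℝ, Nr c L h') ∨ Far c h')

/-- lower 2-estimate for disjoint sequences -/
def P_a : Prop := ∀ (c : Cx) (h : ℕ → c.E) (B δ : ℝ), (∀ n, ‖h n‖ ≤ B) →
  (∀ m n, m ≠ n → Dj c.J (h m) (h n)) → 0 < δ → (∀ n, δ ≤ ‖h n‖) →
  ∃ φ : ℕ → ℕ, StrictMono φ ∧ Low fun k => h (φ k)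

/-- lower 2-estimate for weakly null sequences -/
def P_lA : Prop := ∀ (c : Cx) (y : ℕ → c.E) (B δ : ℝ), (∀ n, ‖y n‖ ≤ B) →
  Wn (fun n => c.J (y n)) → 0 < δ → (∀ n, δ ≤ ‖y n‖) →
  ∃ φ : ℕ → ℕ, StrictMono φ ∧ Low fun k => y (φ k)

/-- operators which are not strictly singular -/
def P_SS : Prop := ∀ (E : Type) [NormedAddCommGroup E] [NormedSpace ℝ E] (T : E →L[ℝ] E)
  (g : ℕ → E), Upp g → Low (fun k => T (g k)) → ¬ StrictlySingular T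

/-- sequences from an operator which is not compact -/
def P_NC : Prop := ∀ (c : Cx) (T : c.E →L[ℝ] c.E), ¬ IsCompactOperator T →
  (∃ (r : ℕ → c.E) (K δ : ℝ), (∀ n, ∀ᵐ t ∂mu, |c.J (r n) t| ≤ K) ∧ Wn (fun n => c.J (r n)) ∧
    0 < δ ∧ ∀ n, δ ≤ ‖T (r n)‖) ∨
  (∃ (h : ℕ → c.E) (B δ : ℝ), (∀ n, ‖h n‖ ≤ B) ∧ (∀ m n, m ≠ n → Dj c.J (h m) (h n)) ∧
    0 < δ ∧ ∀ n, δ ≤ ‖T (h n)‖)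

/-- flat blocks -/
def P_FB : Prop := ∀ (c : Cx) (h : ℕ → c.E) (B : ℝ), (∀ n, ‖h n‖ ≤ B) →
  (∀ m n, m ≠ n → Dj c.J (h m) (h n)) → ((∃ L : ℝ, Nr c L h) ∨ Far c h) →
  ∃ (S : ℕ → Finset ℕ) (τ : ℕ → ℝ), (∀ m n, m ≠ n → Disjoint (S m) (S n)) ∧ (∀ k, 0 < τ k) ∧
    (∀ k, 1 ≤ τ k ^ 2 * (S k).card) ∧ Upp fun k => τ k • ∑ n ∈ S k, h n

/-- not 2-DH -/
def P_G : Prop := ∀ c : Cx, ¬ TwoDH c.E c.J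

end Pool.Agent.Q88.KO
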